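import Mathlib

open Finset Function

set_option linter.unusedSectionVars false

namespace Pool.Agent.Helper47.HInt

variable {E : Type*} [Fintype E] [DecidableEq E]

/-- uniform average over configurations -/
noncomputable def EX (φ : (E → Bool) → ℝ) : ℝ := (∑ x, φ x) / 2 ^ Fintype.card E

/-- sign of a coordinate -/
def eps (x : E → Bool) (e : E) : ℝ := if x e then 1 else -1

/-- `φ` depends only on the coordinates in `X` -/
def DepOn (φ : (E → Bool) → ℝ) (X : Finset E) : Prop :=
  ∀ x y : E → Bool, (∀ e ∈ X, x e = y e) → φ x = φ y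

lemma EX_add (φ ψ : (E → Bool) → ℝ) : EX (fun x => φ x + ψ x) = EX φ + EX ψ := by
  unfold EX; rw [sum_add_distrib, add_div]

lemma EX_sub (φ ψ : (E → Bool) → ℝ) : EX (fun x => φ x - ψ x) = EX φ - EX ψ := by
  unfold EX; rw [sum_sub_distrib, sub_div]

lemma EX_mul_left (c : ℝ) (φ : (E → Bool) → ℝ) : EX (fun x => c * φ x) = c * EX φ := by
  unfold EX; rw [← mul_sum, mul_div_assoc]

lemma EX_neg (φ : (E → Bool) → ℝ) : EX (fun x => - φ x) = - EX φ := by
  unfold EX; rw [sum_neg_distrib, neg_div]

lemma EX_sum {ι : Type*} (s : Finset ι) (φ : ι → (E → Bool) → ℝ) :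
    EX (fun x => ∑ i ∈ s, φ i x) = ∑ i ∈ s, EX (φ i) := by
  unfold EX; rw [sum_comm, sum_div]

lemma EX_const (c : ℝ) : EX (fun _ : E → Bool => c) = c := by
  unfold EX
  rw [sum_const, card_univ, Fintype.card_fun, Fintype.card_bool, nsmul_eq_mul]
  push_cast
  field_simp

lemma EX_mono {φ ψ : (E → Bool) → ℝ} (h : ∀ x, φ x ≤ ψ x) : EX φ ≤ EX ψ := by
  unfold EX
  gcongr with x _
  exact h x

lemma EX_nonneg {φ : (E → Bool) → ℝ} (h : ∀ x, 0 ≤ φ x) : 0 ≤ EX φ := by
  unfold EX
  have : 0 ≤ ∑ x, φ x := sum_nonneg fun x _ => h x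
  positivity

lemma EX_congr {φ ψ : (E → Bool) → ℝ} (h : ∀ x, φ x = ψ x) : EX φ = EX ψ := by
  unfold EX
  congr 1
  exact sum_congr rfl fun x _ => h x

lemma EX_flip (e : E) (φ : (E → Bool) → ℝ) :
    EX (fun x => φ (update x e (!(x e)))) = EX φ := by
  unfold EX
  congr 1
  have hinv : Involutive (fun x : E → Bool => update x e (!(x e))) := by
    intro x
    simp
  exact (Equiv.sum_comp hinv.toPerm φ)

lemma EX_update (e : E) (φ : (E → Bool) → ℝ) :
    EX φ = (EX (fun x => φ (update x e true)) + EX (fun x => φ (update x e false))) / 2 := by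
  have h : EX (fun x => φ (update x e true)) + EX (fun x => φ (update x e false))
      = EX φ + EX (fun x => φ (update x e (!(x e)))) := by
    rw [← EX_add, ← EX_add]
    apply EX_congr
    intro x
    have hx : update x e (x e) = x := update_eq_self e x
    cases h : x e
    · rw [h] at hx
      simp only [Bool.not_false]
      rw [hx]
      ring
    · rw [h] at hx
      simp only [Bool.not_true]
      rw [hx]
  rw [h, EX_flip]
  ring

lemma eps_sq (x : E → Bool) (e : E) : eps x e * eps x e = 1 := by
  unfold eps; split_ifs <;> norm_num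

lemma eps_flip (x : E → Bool) (e : E) : eps (update x e (!(x e))) e = - eps x e := by
  unfold eps
  rw [update_self]
  cases x e <;> simp

lemma DepOn.mono {φ : (E → Bool) → ℝ} {X Y : Finset E} (h : DepOn φ X) (hXY : X ⊆ Y) :
    DepOn φ Y := fun x y hxy => h x y fun e he => hxy e (hXY he)

lemma DepOn.update {φ : (E → Bool) → ℝ} {X : Finset E} (h : DepOn φ X) {e : E} (he : e ∉ X)
    (x : E → Bool) (b : Bool) : φ (Function.update x e b) = φ x := by
  apply h
  intro e' he'
  rw [update_of_ne]
  rintro rfl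
  exact he he'

lemma DepOn.const (c : ℝ) (X : Finset E) : DepOn (fun _ => c) X := fun _ _ _ => rfl

lemma DepOn.add {φ ψ : (E → Bool) → ℝ} {X : Finset E} (h : DepOn φ X) (h' : DepOn ψ X) :
    DepOn (fun x => φ x + ψ x) X := fun x y hxy => by
  simp only [h x y hxy, h' x y hxy]

lemma DepOn.sub {φ ψ : (E → Bool) → ℝ} {X : Finset E} (h : DepOn φ X) (h' : DepOn ψ X) :
    DepOn (fun x => φ x - ψ x) X := fun x y hxy => by
  simp only [h x y hxy, h' x y hxy]

lemma DepOn.mul {φ ψ : (E → Bool) → ℝ} {X : Finset E} (h : DepOn φ X) (h' : DepOn ψ X) :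
    DepOn (fun x => φ x * ψ x) X := fun x y hxy => by
  simp only [h x y hxy, h' x y hxy]

lemma DepOn.div {φ ψ : (E → Bool) → ℝ} {X : Finset E} (h : DepOn φ X) (h' : DepOn ψ X) :
    DepOn (fun x => φ x / ψ x) X := fun x y hxy => by
  simp only [h x y hxy, h' x y hxy]

lemma DepOn.pow {φ : (E → Bool) → ℝ} {X : Finset E} (h : DepOn φ X) (n : ℕ) :
    DepOn (fun x => φ x ^ n) X := fun x y hxy => by
  simp only [h x y hxy]

lemma DepOn.sum {ι : Type*} {s : Finset ι} {φ : ι → (E → Bool) → ℝ} {X : Finset E}
    (h : ∀ i ∈ s, DepOn (φ i) X) : DepOn (fun x => ∑ i ∈ s, φ i x) X := fun x y hxy =>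
  sum_congr rfl fun i hi => h i hi x y hxy

lemma DepOn.prod {ι : Type*} {s : Finset ι} {φ : ι → (E → Bool) → ℝ} {X : Finset E}
    (h : ∀ i ∈ s, DepOn (φ i) X) : DepOn (fun x => ∏ i ∈ s, φ i x) X := fun x y hxy =>
  prod_congr rfl fun i hi => h i hi x y hxy

lemma DepOn.eps {X : Finset E} {e : E} (he : e ∈ X) : DepOn (fun x => eps x e) X := by
  intro x y hxy
  simp only [HInt.eps, hxy e he]

lemma EX_mul_eps {φ : (E → Bool) → ℝ} {X : Finset E} (h : DepOn φ X) {e : E} (he : e ∉ X) :
    EX (fun x => φ x * eps x e) = 0 := by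
  have h1 := EX_flip e (fun x => φ x * eps x e)
  have h2 : EX (fun x => φ (update x e (!(x e))) * eps (update x e (!(x e))) e)
      = - EX (fun x => φ x * eps x e) := by
    rw [← EX_neg]
    apply EX_congr
    intro x
    rw [h.update he, eps_flip]
    ring
  linarith

/-- conditional expectation given the coordinates in `X` -/
noncomputable def cexp (X : Finset E) (φ : (E → Bool) → ℝ) (x : E → Bool) : ℝ :=
  EX (fun y => φ (X.piecewise x y))

lemma cexp_depOn (X : Finset E) (φ : (E → Bool) → ℝ) : DepOn (cexp X φ) X := by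
  intro x y hxy
  unfold cexp
  apply EX_congr
  intro z
  congr 1
  ext e
  by_cases he : e ∈ X
  · simp [he, hxy e he]
  · simp [he]

lemma cexp_univ (φ : (E → Bool) → ℝ) (x : E → Bool) : cexp univ φ x = φ x := by
  unfold cexp
  simp only [piecewise_univ]
  exact EX_const _

lemma cexp_empty (φ : (E → Bool) → ℝ) (x : E → Bool) : cexp ∅ φ x = EX φ := by
  unfold cexp
  simp only [piecewise_empty]

lemma piecewise_insert_update (X : Finset E) {e : E} (he : e ∉ X) (x y : E → Bool) (b : Bool) :
    (insert e X).piecewise (update x e b) y = update (X.piecewise x y) e b := by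
  ext e'
  by_cases h : e' = e
  · subst h; simp
  · by_cases h' : e' ∈ X
    · simp [h, h']
    · simp [h, h']

lemma piecewise_update_right (X : Finset E) {e : E} (he : e ∉ X) (x y : E → Bool) (b : Bool) :
    X.piecewise x (update y e b) = update (X.piecewise x y) e b := by
  ext e'
  by_cases h : e' = e
  · subst h; simp [he]
  · by_cases h' : e' ∈ X
    · simp [h, h']
    · simp [h, h']

lemma cexp_insert_avg (X : Finset E) {e : E} (he : e ∉ X) (φ : (E → Bool) → ℝ) (x : E → Bool) :
    cexp X φ x = (cexp (insert e X) φ (update x e true) +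
      cexp (insert e X) φ (update x e false)) / 2 := by
  unfold cexp
  rw [EX_update e]
  simp only [piecewise_insert_update X he, piecewise_update_right X he]

/-- discrete derivative -/
def dd (f : (E → Bool) → ℝ) (e : E) (x : E → Bool) : ℝ :=
  f (update x e true) - f (update x e false)

/-- conditional influence of `e` given the coordinates in `X` -/
noncomputable def D (f : (E → Bool) → ℝ) (X : Finset E) (e : E) (x : E → Bool) : ℝ :=
  cexp X (dd f e) x

lemma D_eq (f : (E → Bool) → ℝ) (X : Finset E) (e : E) (he : e ∉ X) (x : E → Bool) :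
    D f X e x = cexp (insert e X) f (update x e true) - cexp (insert e X) f (update x e false) := by
  unfold D cexp dd
  rw [← EX_sub]
  simp only [piecewise_insert_update X he]

lemma cexp_step (f : (E → Bool) → ℝ) (X : Finset E) {e : E} (he : e ∉ X) (x : E → Bool) :
    cexp (insert e X) f x - cexp X f x = eps x e * D f X e x / 2 := by
  rw [D_eq f X e he, cexp_insert_avg X he f x]
  have hx : update x e (x e) = x := update_eq_self e x
  unfold eps
  cases h : x e
  · rw [h] at hx
    simp only [Bool.false_eq_true, if_false]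
    rw [hx]
    ring
  · rw [h] at hx
    simp only [if_true]
    rw [hx]
    ring

lemma D_insert_self (f : (E → Bool) → ℝ) (X : Finset E) (e : E) (x : E → Bool) :
    D f (insert e X) e x = D f X e x := by
  unfold D cexp dd
  apply EX_congr
  intro y
  have : ∀ b, update ((insert e X).piecewise x y) e b = update (X.piecewise x y) e b := by
    intro b
    ext e'
    by_cases h : e' = e
    · subst h; simp
    · by_cases h' : e' ∈ X
      · simp [h, h']
      · simp [h, h']
  rw [this, this]

lemma D_depOn (f : (E → Bool) → ℝ) (X : Finset E) (e : E) : DepOn (D f X e) (X.erase e) := by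
  by_cases he : e ∈ X
  · have h := cexp_depOn (X.erase e) (dd f e)
    have heq : D f X e = D f (X.erase e) e := by
      ext x
      rw [← D_insert_self f (X.erase e) e x, insert_erase he]
    rw [heq]
    exact h
  · rw [erase_eq_of_notMem he]
    exact cexp_depOn X (dd f e)

lemma D_avg (f : (E → Bool) → ℝ) (X : Finset E) {e : E} (he : e ∉ X) (e' : E) (x : E → Bool) :
    D f X e' x = (D f (insert e X) e' (update x e true) +
      D f (insert e X) e' (update x e false)) / 2 :=
  cexp_insert_avg X he (dd f e') x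

lemma D_sq_mono (f : (E → Bool) → ℝ) (X : Finset E) {e : E} (he : e ∉ X) (e' : E) :
    EX (fun x => D f X e' x ^ 2) ≤ EX (fun x => D f (insert e X) e' x ^ 2) := by
  rw [EX_update e (fun x => D f (insert e X) e' x ^ 2), ← EX_add]
  have : EX (fun x => D f X e' x ^ 2) ≤ EX (fun x => (1 / 2 : ℝ) *
      (D f (insert e X) e' (update x e true) ^ 2 + D f (insert e X) e' (update x e false) ^ 2)) := by
    apply EX_mono
    intro x
    rw [D_avg f X he e' x]
    nlinarith [sq_nonneg (D f (insert e X) e' (update x e true) -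
      D f (insert e X) e' (update x e false))]
  rw [EX_mul_left] at this
  linarith

lemma D_nonneg {f : (E → Bool) → ℝ} (hf : Monotone f) (X : Finset E) (e : E) (x : E → Bool) :
    0 ≤ D f X e x := by
  unfold D cexp
  apply EX_nonneg
  intro y
  unfold dd
  apply sub_nonneg.2
  apply hf
  intro e'
  by_cases h : e' = e
  · subst h; simp
  · simp [h]

lemma D_le_one {f : (E → Bool) → ℝ} (h0 : ∀ x, 0 ≤ f x) (h1 : ∀ x, f x ≤ 1) (X : Finset E) (e : E)
    (x : E → Bool) : D f X e x ≤ 1 := by
  unfold D cexp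
  rw [← EX_const (E := E) 1]
  apply EX_mono
  intro y
  unfold dd
  linarith [h0 (update (X.piecewise x y) e false), h1 (update (X.piecewise x y) e true)]

lemma cexp_nonneg {f : (E → Bool) → ℝ} (h0 : ∀ x, 0 ≤ f x) (X : Finset E) (x : E → Bool) :
    0 ≤ cexp X f x := EX_nonneg fun _ => h0 _

lemma cexp_le_one {f : (E → Bool) → ℝ} (h1 : ∀ x, f x ≤ 1) (X : Finset E) (x : E → Bool) :
    cexp X f x ≤ 1 := by
  unfold cexp
  rw [← EX_const (E := E) 1]
  exact EX_mono fun _ => h1 _

end Pool.Agent.Helper47.HInt
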