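import Pool.Agent.Helper47.HInt9

open Finset Function Filter Topology

set_option linter.unusedSectionVars false

namespace Pool.Agent.Helper47.HInt

variable {V : Type*} [Fintype V] [DecidableEq V]

open Classical in
/-- neighbours in `R` -/
noncomputable def Nb (R : Finset V) (G : SimpleGraph V) (v : V) : Finset V :=
  R.filter (fun u => G.Adj v u)

/-- the complete bipartite graph between two sets -/
def bip (S T : Finset V) : SimpleGraph V := SimpleGraph.fromRel (fun a b => a ∈ S ∧ b ∈ T)

open Classical in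
/-- the centers with large degree into `R` -/
noncomputable def Iset (C R : Finset V) (m : ℕ) (G : SimpleGraph V) : Finset V :=
  C.filter (fun v => R.card + m ≤ 2 * (Nb R G v).card)

open Classical in
/-- the family -/
noncomputable def Fam (C R : Finset V) (m : ℕ) : Finset (SimpleGraph V) :=
  univ.filter (fun G => C.card + m ≤ 2 * (Iset C R m G).card)

lemma mem_Nb {R : Finset V} {G : SimpleGraph V} {v u : V} :
    u ∈ Nb R G v ↔ u ∈ R ∧ G.Adj v u := by
  classical
  unfold Nb
  rw [mem_filter]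

lemma symmDiff_adj (G K : SimpleGraph V) (a b : V) :
    (symmDiff G K).Adj a b ↔ (G.Adj a b ∧ ¬ K.Adj a b) ∨ (K.Adj a b ∧ ¬ G.Adj a b) := by
  rw [symmDiff_def, SimpleGraph.sup_adj, SimpleGraph.sdiff_adj, SimpleGraph.sdiff_adj]

lemma bip_adj (S T : Finset V) (a b : V) :
    (bip S T).Adj a b ↔ a ≠ b ∧ ((a ∈ S ∧ b ∈ T) ∨ (b ∈ S ∧ a ∈ T)) := by
  unfold bip
  rw [SimpleGraph.fromRel_adj]

lemma Nb_flip1 {R : Finset V} {v : V} (hv : v ∉ R) {T : Finset V} (hT : T ⊆ R)
    (G : SimpleGraph V) : Nb R (symmDiff G (bip {v} T)) v = symmDiff (Nb R G v) T := by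
  ext u
  rw [mem_symmDiff, mem_Nb, mem_Nb, symmDiff_adj, bip_adj]
  have h2 : v ∉ T := fun h => hv (hT h)
  by_cases hu : u ∈ R
  · have h1 : v ≠ u := fun h => hv (h ▸ hu)
    simp only [hu, true_and, mem_singleton, h2, and_false, or_false, h1, ne_eq, not_false_eq_true]
  · have h1 : u ∉ T := fun h => hu (hT h)
    simp [hu, h1]

open Classical in
lemma Nb_flip2 {C R : Finset V} (hCR : Disjoint C R) {S : Finset V} (hS : S ⊆ C) {v : V}
    (hv : v ∈ C) (G : SimpleGraph V) :
    Nb R (symmDiff G (bip S R)) v = if v ∈ S then R \ Nb R G v else Nb R G v := by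
  have hvR : v ∉ R := disjoint_left.1 hCR hv
  split_ifs with h
  · ext u
    rw [Finset.mem_sdiff, mem_Nb, mem_Nb, symmDiff_adj, bip_adj]
    by_cases hu : u ∈ R
    · have h1 : v ≠ u := fun h => hvR (h ▸ hu)
      simp [hu, h, h1]
    · simp [hu]
  · ext u
    rw [mem_Nb, mem_Nb, symmDiff_adj, bip_adj]
    by_cases hu : u ∈ R
    · simp [hu, h, hvR]
    · simp [hu]

lemma Nb_subset (R : Finset V) (G : SimpleGraph V) (v : V) : Nb R G v ⊆ R := fun _ h =>
  (mem_Nb.1 h).1

lemma Nb_compl {R : Finset V} {v : V} (hv : v ∉ R) (G : SimpleGraph V) :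
    Nb R Gᶜ v = R \ Nb R G v := by
  ext u
  rw [Finset.mem_sdiff, mem_Nb, mem_Nb, SimpleGraph.compl_adj]
  by_cases hu : u ∈ R
  · have h1 : v ≠ u := fun h => hv (h ▸ hu)
    simp [hu, h1]
  · simp [hu]

open Classical in
lemma row_near {R : Finset V} {v : V} (hv : v ∉ R) (m : ℕ) :
    ((univ.filter (fun G : SimpleGraph V => R.card < 2 * (Nb R G v).card + m ∧
      2 * (Nb R G v).card < R.card + m)).card : ℝ) ≤
      Fintype.card (SimpleGraph V) * ((2 * m + 1) * ((R.card.choose (R.card / 2) : ℕ) / 2 ^ R.card)) := by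
  have h := flip_avg (Ω := SimpleGraph V) R (fun T G => symmDiff G (bip {v} T))
    (fun T G => symmDiff_symmDiff_cancel_right _ _) (fun _ => True) (fun _ _ _ _ => trivial)
    (fun G => Nb R G v) (fun G => Nb_subset R G v) (fun T hT G _ => Nb_flip1 hv hT G)
    (fun T => R.card < 2 * T.card + m ∧ 2 * T.card < R.card + m)
  have h2 := near_half_card R m
  simp only [true_and, filter_true, card_univ] at h
  have h3 : (2 : ℝ) ^ R.card * ((univ.filter (fun G : SimpleGraph V =>
      R.card < 2 * (Nb R G v).card + m ∧ 2 * (Nb R G v).card < R.card + m)).card : ℝ) ≤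
      Fintype.card (SimpleGraph V) * ((2 * m + 1) * (R.card.choose (R.card / 2) : ℕ)) := by
    have h4 := h.le.trans (Nat.mul_le_mul_left _ h2)
    exact_mod_cast h4
  have h5 : (0 : ℝ) < 2 ^ R.card := by positivity
  rw [← mul_le_mul_iff_right₀ h5]
  refine h3.trans (le_of_eq ?_)
  field_simp

/-- no center has nearly balanced degree -/
def Good (C R : Finset V) (m : ℕ) (G : SimpleGraph V) : Prop :=
  ∀ v ∈ C, R.card + m ≤ 2 * (Nb R G v).card ∨ 2 * (Nb R G v).card + m ≤ R.card

lemma card_compl_Nb (R : Finset V) (G : SimpleGraph V) (v : V) :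
    (R \ Nb R G v).card + (Nb R G v).card = R.card :=
  card_sdiff_add_card_eq_card (Nb_subset R G v)

lemma good_flip {C R : Finset V} (hCR : Disjoint C R) {m : ℕ} {S : Finset V} (hS : S ⊆ C)
    {G : SimpleGraph V} (hG : Good C R m G) : Good C R m (symmDiff G (bip S R)) := by
  intro v hv
  rw [Nb_flip2 hCR hS hv]
  have h1 := hG v hv
  have h2 := card_compl_Nb R G v
  split_ifs with h
  · omega
  · exact h1

lemma Iset_flip {C R : Finset V} (hCR : Disjoint C R) {m : ℕ} (hm : 1 ≤ m) {S : Finset V}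
    (hS : S ⊆ C) {G : SimpleGraph V} (hG : Good C R m G) :
    Iset C R m (symmDiff G (bip S R)) = symmDiff (Iset C R m G) S := by
  ext v
  unfold Iset
  rw [mem_symmDiff, mem_filter, mem_filter]
  by_cases hv : v ∈ C
  · rw [Nb_flip2 hCR hS hv]
    have h1 := hG v hv
    have h2 := card_compl_Nb R G v
    by_cases h : v ∈ S
    · simp only [h, if_true, hv, true_and, not_true_eq_false, and_false, false_or]
      omega
    · simp only [h, if_false, hv, true_and, not_false_eq_true, and_true, false_and, or_false]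
  · have h : v ∉ S := fun h => hv (hS h)
    simp [hv, h]

open Classical in
lemma col_near {C R : Finset V} (hCR : Disjoint C R) {m : ℕ} (hm : 1 ≤ m) :
    ((univ.filter (fun G : SimpleGraph V => Good C R m G ∧ (C.card < 2 * (Iset C R m G).card + m ∧
      2 * (Iset C R m G).card < C.card + m))).card : ℝ) ≤
      Fintype.card (SimpleGraph V) * ((2 * m + 1) * ((C.card.choose (C.card / 2) : ℕ) / 2 ^ C.card)) := by
  have h := flip_avg (Ω := SimpleGraph V) C (fun T G => symmDiff G (bip T R))
    (fun T G => symmDiff_symmDiff_cancel_right _ _) (Good C R m)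
    (fun T hT G hG => good_flip hCR hT hG)
    (Iset C R m) (fun G => filter_subset _ _) (fun T hT G hG => Iset_flip hCR hm hT hG)
    (fun T => C.card < 2 * T.card + m ∧ 2 * T.card < C.card + m)
  have h2 := near_half_card C m
  have h2' : (univ.filter (fun G : SimpleGraph V => Good C R m G)).card ≤
      Fintype.card (SimpleGraph V) := card_le_univ _
  have h3 : (2 : ℝ) ^ C.card * ((univ.filter (fun G : SimpleGraph V => Good C R m G ∧
      (C.card < 2 * (Iset C R m G).card + m ∧ 2 * (Iset C R m G).card < C.card + m))).card : ℝ) ≤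
      Fintype.card (SimpleGraph V) * ((2 * m + 1) * (C.card.choose (C.card / 2) : ℕ)) := by
    have h4 := h.le.trans (Nat.mul_le_mul h2' h2)
    exact_mod_cast h4
  have h5 : (0 : ℝ) < 2 ^ C.card := by positivity
  rw [← mul_le_mul_iff_right₀ h5]
  refine h3.trans (le_of_eq ?_)
  field_simp

open Classical in
lemma fam_card {C R : Finset V} (hCR : Disjoint C R) {m : ℕ} (hm : 1 ≤ m) :
    (Fintype.card (SimpleGraph V) : ℝ) ≤ 2 * (Fam C R m).card +
      C.card * (Fintype.card (SimpleGraph V) *
        ((2 * m + 1) * ((R.card.choose (R.card / 2) : ℕ) / 2 ^ R.card))) +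
      Fintype.card (SimpleGraph V) *
        ((2 * m + 1) * ((C.card.choose (C.card / 2) : ℕ) / 2 ^ C.card)) := by
  set N1 : V → Finset (SimpleGraph V) := fun v => univ.filter (fun G : SimpleGraph V =>
    R.card < 2 * (Nb R G v).card + m ∧ 2 * (Nb R G v).card < R.card + m) with hN1
  set N2 : Finset (SimpleGraph V) := univ.filter (fun G : SimpleGraph V => Good C R m G ∧
    (C.card < 2 * (Iset C R m G).card + m ∧ 2 * (Iset C R m G).card < C.card + m)) with hN2
  have hcov : (univ : Finset (SimpleGraph V)) ⊆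
      ((Fam C R m ∪ (Fam C R m).image (fun G => Gᶜ)) ∪ C.biUnion N1) ∪ N2 := by
    intro G _
    rw [mem_union, mem_union, mem_union]
    by_cases hg : Good C R m G
    · by_cases h1 : C.card + m ≤ 2 * (Iset C R m G).card
      · left; left; left
        unfold Fam
        rw [mem_filter]
        exact ⟨mem_univ _, h1⟩
      · by_cases h2 : C.card < 2 * (Iset C R m G).card + m
        · right
          rw [hN2, mem_filter]
          exact ⟨mem_univ _, hg, h2, by omega⟩
        · left; left; right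
          rw [mem_image]
          refine ⟨Gᶜ, ?_, compl_compl G⟩
          unfold Fam
          rw [mem_filter]
          refine ⟨mem_univ _, ?_⟩
          have h3 : C \ Iset C R m G ⊆ Iset C R m Gᶜ := by
            intro v hv
            rw [Finset.mem_sdiff] at hv
            unfold Iset at hv ⊢
            rw [mem_filter] at hv ⊢
            refine ⟨hv.1, ?_⟩
            have h4 : ¬ (R.card + m ≤ 2 * (Nb R G v).card) := fun h => hv.2 ⟨hv.1, h⟩
            have h5 := hg v hv.1
            rw [Nb_compl (disjoint_left.1 hCR hv.1)]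
            have h6 := card_compl_Nb R G v
            omega
          have h4 := card_le_card h3
          have h5 : (C \ Iset C R m G).card + (Iset C R m G).card = C.card :=
            card_sdiff_add_card_eq_card (filter_subset _ _)
          omega
    · left; right
      rw [mem_biUnion]
      unfold Good at hg
      push Not at hg
      obtain ⟨v, hv, h1, h2⟩ := hg
      refine ⟨v, hv, ?_⟩
      rw [hN1, mem_filter]
      exact ⟨mem_univ _, h2, h1⟩
  have hc := card_le_card hcov
  have hc2 : (univ : Finset (SimpleGraph V)).card ≤ (Fam C R m).card + (Fam C R m).card +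
      ∑ v ∈ C, (N1 v).card + N2.card := by
    refine hc.trans ((card_union_le _ _).trans ?_)
    apply Nat.add_le_add_right
    refine (card_union_le _ _).trans ?_
    apply Nat.add_le_add _ card_biUnion_le
    refine (card_union_le _ _).trans ?_
    apply Nat.add_le_add_left
    exact card_image_le
  rw [card_univ] at hc2
  have hc3 : (Fintype.card (SimpleGraph V) : ℝ) ≤ (Fam C R m).card + (Fam C R m).card +
      ∑ v ∈ C, ((N1 v).card : ℝ) + N2.card := by exact_mod_cast hc2
  have h1 : ∑ v ∈ C, ((N1 v).card : ℝ) ≤ ∑ v ∈ C, (Fintype.card (SimpleGraph V) *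
        ((2 * m + 1) * ((R.card.choose (R.card / 2) : ℕ) / 2 ^ R.card)) : ℝ) :=
    sum_le_sum fun v hv => row_near (disjoint_left.1 hCR hv) m
  rw [sum_const, nsmul_eq_mul] at h1
  have h2 := col_near hCR hm (C := C) (R := R)
  linarith

lemma fam_int {W : Type*} [Fintype W] (H : SimpleGraph W) (hH : StarF H)
    {C R : Finset V} (hCR : Disjoint C R) {G₁ G₂ : SimpleGraph V}
    (h1 : G₁ ∈ Fam C R (Fintype.card W)) (h2 : G₂ ∈ Fam C R (Fintype.card W)) :
    H.IsContained (G₁ ⊓ G₂) := by
  classical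
  set m := Fintype.card W with hm
  unfold Fam at h1 h2
  rw [mem_filter] at h1 h2
  apply embed H hH (G₁ ⊓ G₂) (Iset C R m G₁ ∩ Iset C R m G₂) R
  · apply disjoint_left.2
    intro v hv
    rw [mem_inter] at hv
    exact disjoint_left.1 hCR (filter_subset _ _ hv.1)
  · have h3 := card_union_add_card_inter (Iset C R m G₁) (Iset C R m G₂)
    have h4 : (Iset C R m G₁ ∪ Iset C R m G₂).card ≤ C.card :=
      card_le_card (union_subset (filter_subset _ _) (filter_subset _ _))
    omega
  · intro v hv
    rw [mem_inter] at hv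
    unfold Iset at hv
    rw [mem_filter, mem_filter] at hv
    have h3 := card_union_add_card_inter (Nb R G₁ v) (Nb R G₂ v)
    have h4 : (Nb R G₁ v ∪ Nb R G₂ v).card ≤ R.card :=
      card_le_card (union_subset (Nb_subset _ _ _) (Nb_subset _ _ _))
    have h5 : Nb R G₁ v ∩ Nb R G₂ v ⊆ R.filter (fun u => (G₁ ⊓ G₂).Adj v u) := by
      intro u hu
      rw [mem_inter, mem_Nb, mem_Nb] at hu
      rw [mem_filter]
      exact ⟨hu.1.1, hu.1.2, hu.2.2⟩
    have h6 := card_le_card h5
    have h7 : m ≤ (Nb R G₁ v ∩ Nb R G₂ v).card := by omega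
    refine h7.trans (h6.trans (le_of_eq ?_))
    congr!

/-- lower bound for forests of stars -/
theorem lower {W : Type*} [Fintype W] (H : SimpleGraph W) (hH : StarF H) (hne : Nonempty W)
    (ε : ℝ) (hε : 0 < ε) : ∃ N : ℕ, ∀ n ≥ N, ∃ F : Finset (SimpleGraph (Fin n)),
      (∀ G₁ ∈ F, ∀ G₂ ∈ F, H.IsContained (G₁ ⊓ G₂)) ∧
      (1 - ε) * (Fintype.card (SimpleGraph (Fin n)) / 2 : ℝ) ≤ F.card := by
  classical
  set m := Fintype.card W with hm
  have hm1 : 1 ≤ m := Fintype.card_pos
  have ht := choose_half_tendsto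
  have h1 : ∃ l : ℕ, (2 * m + 1 : ℝ) * (((l.choose (l / 2) : ℕ) : ℝ) / 2 ^ l) < ε / 2 := by
    have h2 : Tendsto (fun a : ℕ => (2 * m + 1 : ℝ) * (((a.choose (a / 2) : ℕ) : ℝ) / 2 ^ a)) atTop
        (𝓝 0) := by
      have := ht.const_mul (2 * m + 1 : ℝ)
      rwa [mul_zero] at this
    exact ((h2.eventually (gt_mem_nhds (show (0 : ℝ) < ε / 2 by linarith))).exists)
  obtain ⟨l, hl⟩ := h1
  have h3 : ∃ N : ℕ, ∀ r ≥ N, (l : ℝ) * ((2 * m + 1 : ℝ) * (((r.choose (r / 2) : ℕ) : ℝ) / 2 ^ r)) <
      ε / 2 := by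
    have h2 : Tendsto (fun a : ℕ => (l : ℝ) * ((2 * m + 1 : ℝ) *
        (((a.choose (a / 2) : ℕ) : ℝ) / 2 ^ a))) atTop (𝓝 0) := by
      have := (ht.const_mul (2 * m + 1 : ℝ)).const_mul (l : ℝ)
      rwa [mul_zero, mul_zero] at this
    exact eventually_atTop.1 (h2.eventually (gt_mem_nhds (show (0 : ℝ) < ε / 2 by linarith)))
  obtain ⟨N, hN⟩ := h3
  refine ⟨N + l, fun n hn => ?_⟩
  set C : Finset (Fin n) := univ.filter (fun i => i.val < l) with hC
  set R : Finset (Fin n) := univ.filter (fun i => ¬ i.val < l) with hR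
  have hCR : Disjoint C R := disjoint_filter_filter_not _ _ _
  have hCc : C.card = l := by
    rw [hC, Fin.card_filter_val_lt]
    omega
  have hRc : R.card = n - l := by
    have h4 := card_filter_add_card_filter_not (s := (univ : Finset (Fin n))) (fun i => i.val < l)
    rw [card_univ, Fintype.card_fin] at h4
    rw [← hC, ← hR] at h4
    omega
  refine ⟨Fam C R m, fun G₁ h1 G₂ h2 => fam_int H hH hCR h1 h2, ?_⟩
  have h5 := fam_card hCR hm1 (C := C) (R := R)
  rw [hCc, hRc] at h5
  have h6 := hN (n - l) (by omega)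
  have h7 : (0 : ℝ) ≤ Fintype.card (SimpleGraph (Fin n)) := by positivity
  have h8 : (l : ℝ) * (Fintype.card (SimpleGraph (Fin n)) *
        ((2 * m + 1) * (((n - l).choose ((n - l) / 2) : ℕ) / 2 ^ (n - l)))) ≤
        Fintype.card (SimpleGraph (Fin n)) * (ε / 2) := by
    calc _ = (Fintype.card (SimpleGraph (Fin n)) : ℝ) * ((l : ℝ) *
        ((2 * m + 1) * (((n - l).choose ((n - l) / 2) : ℕ) / 2 ^ (n - l)))) := by ring
      _ ≤ _ := mul_le_mul_of_nonneg_left h6.le h7
  have h9 := mul_le_mul_of_nonneg_left hl.le h7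
  linarith

end Pool.Agent.Helper47.HInt
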