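import Pool.Agent.Helper47.HInt1

open Finset Function

set_option linter.unusedSectionVars false

namespace Pool.Agent.Helper47.HInt

variable {E : Type*} [Fintype E] [DecidableEq E]

section order

variable (σ : Fin (Fintype.card E) ≃ E)

/-- the first `m` coordinates of the order `σ` -/
def pre (m : ℕ) : Finset E := univ.filter (fun e => ((σ.symm e : Fin _) : ℕ) < m)

lemma mem_pre {m : ℕ} {e : E} : e ∈ pre σ m ↔ ((σ.symm e : Fin _) : ℕ) < m := by
  simp [pre]

lemma mem_pre' {m : ℕ} {k : Fin (Fintype.card E)} : σ k ∈ pre σ m ↔ (k : ℕ) < m := by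
  simp [pre]

lemma notMem_pre_self (k : Fin (Fintype.card E)) : σ k ∉ pre σ k := by
  simp [pre]

lemma pre_succ (k : Fin (Fintype.card E)) : pre σ (k + 1) = insert (σ k) (pre σ k) := by
  ext e
  rw [mem_insert, mem_pre, mem_pre, Nat.lt_succ_iff_lt_or_eq, or_comm]
  constructor
  · rintro (h | h)
    · left
      rw [← Fin.ext h, Equiv.apply_symm_apply]
    · exact Or.inr h
  · rintro (h | h)
    · left; rw [h]; simp
    · exact Or.inr h

lemma pre_zero : pre σ 0 = ∅ := by
  ext e; simp [mem_pre]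

lemma pre_all : pre σ (Fintype.card E) = univ := by
  ext e; simp [mem_pre]

lemma pre_mono {m m' : ℕ} (h : m ≤ m') : pre σ m ⊆ pre σ m' := by
  intro e he
  rw [mem_pre] at he ⊢
  omega

lemma card_pre {m : ℕ} (hm : m ≤ Fintype.card E) : (pre σ m).card = m := by
  have h : pre σ m = (univ.filter (fun k : Fin (Fintype.card E) => (k : ℕ) < m)).map
      σ.toEmbedding := by
    ext e
    rw [mem_pre, mem_map]
    constructor
    · intro h
      exact ⟨σ.symm e, by simpa using h, by simp⟩
    · rintro ⟨k, hk, rfl⟩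
      simpa using hk
  rw [h, card_map]
  have : (univ.filter (fun k : Fin (Fintype.card E) => (k : ℕ) < m)).card
      = ((range m)).card := by
    apply card_bij (fun (k : Fin (Fintype.card E)) _ => (k : ℕ))
    · intro k hk; simpa using hk
    · intro a _ b _ h; exact Fin.ext h
    · intro b hb
      rw [mem_range] at hb
      exact ⟨⟨b, by omega⟩, by simpa using hb, rfl⟩
  rw [this, card_range]

/-- influence of the `k`-th coordinate when it is exposed -/
noncomputable def d (f : (E → Bool) → ℝ) (k : Fin (Fintype.card E)) (x : E → Bool) : ℝ :=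
  D f (pre σ k) (σ k) x

lemma d_depOn (f : (E → Bool) → ℝ) (k : Fin (Fintype.card E)) : DepOn (d σ f k) (pre σ k) :=
  (D_depOn f (pre σ k) (σ k)).mono (erase_subset _ _)

lemma tele (f : (E → Bool) → ℝ) (x : E → Bool) : ∀ t m : ℕ, m + t = Fintype.card E →
    f x - cexp (pre σ m) f x = (∑ k ∈ univ.filter (fun k : Fin (Fintype.card E) => m ≤ (k : ℕ)),
      eps x (σ k) * d σ f k x) / 2 := by
  intro t
  induction t with
  | zero =>
    intro m hm
    rw [add_zero] at hm
    subst hm
    rw [pre_all, cexp_univ, sub_self]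
    rw [filter_false_of_mem]
    · simp
    · intro k _; have := k.2; omega
  | succ t ih =>
    intro m hm
    have hlt : m < Fintype.card E := by omega
    have h1 := ih (m + 1) (by omega)
    have h2 := cexp_step f (pre σ m) (e := σ ⟨m, hlt⟩) (notMem_pre_self σ ⟨m, hlt⟩) x
    have h3 : pre σ (m + 1) = insert (σ ⟨m, hlt⟩) (pre σ m) := pre_succ σ ⟨m, hlt⟩
    rw [← h3] at h2
    have h4 : univ.filter (fun k : Fin (Fintype.card E) => m ≤ (k : ℕ))
        = insert (⟨m, hlt⟩ : Fin (Fintype.card E))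
          (univ.filter (fun k : Fin (Fintype.card E) => m + 1 ≤ (k : ℕ))) := by
      ext k
      simp only [mem_filter, mem_univ, true_and, mem_insert, Fin.ext_iff]
      omega
    rw [h4, sum_insert (by simp), add_div, ← h1]
    have h5 : eps x (σ ⟨m, hlt⟩) * d σ f ⟨m, hlt⟩ x / 2
        = eps x (σ ⟨m, hlt⟩) * D f (pre σ m) (σ ⟨m, hlt⟩) x / 2 := rfl
    rw [h5, ← h2]
    ring

lemma tele_zero (f : (E → Bool) → ℝ) (x : E → Bool) :
    f x - EX f = (∑ k, eps x (σ k) * d σ f k x) / 2 := by
  have h := tele σ f x (Fintype.card E) 0 (by omega)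
  rw [pre_zero, cexp_empty] at h
  rw [h]
  simp

variable {σ}

lemma orth {c : Fin (Fintype.card E) → (E → Bool) → ℝ} (hc : ∀ k, DepOn (c k) (pre σ k))
    (S : Finset (Fin (Fintype.card E))) : ∀ (ψ : (E → Bool) → ℝ),
    (∀ k ∈ S, DepOn ψ (pre σ k)) →
    EX (fun x => ψ x * (∑ k ∈ S, eps x (σ k) * c k x) ^ 2)
      = EX (fun x => ψ x * ∑ k ∈ S, c k x ^ 2) := by
  induction S using Finset.induction_on_max with
  | empty => intro ψ _; simp
  | insert k S hk ih =>
    intro ψ hψ
    have hkS : k ∉ S := fun h => lt_irrefl _ (hk k h)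
    have ih' := ih ψ (fun j hj => hψ j (mem_insert_of_mem hj))
    have hψk := hψ k (mem_insert_self _ _)
    have hA : DepOn (fun x => ∑ j ∈ S, eps x (σ j) * c j x) (pre σ k) := by
      apply DepOn.sum
      intro j hj
      have hjk : (j : ℕ) < k := hk j hj
      exact (DepOn.eps ((mem_pre' σ).2 hjk)).mul ((hc j).mono (pre_mono σ hjk.le))
    have h0 := EX_mul_eps (((hψk.mul hA).mul (hc k))) (notMem_pre_self σ k)
    have e1 : EX (fun x => ψ x * (∑ j ∈ insert k S, eps x (σ j) * c j x) ^ 2)
        = EX (fun x => (ψ x * (∑ j ∈ S, eps x (σ j) * c j x) ^ 2 + ψ x * c k x ^ 2) +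
          2 * (ψ x * (∑ j ∈ S, eps x (σ j) * c j x) * c k x * eps x (σ k))) := by
      apply EX_congr
      intro x
      rw [sum_insert hkS]
      have := eps_sq x (σ k)
      linear_combination (ψ x * c k x ^ 2) * this
    have e2 : EX (fun x => ψ x * ∑ j ∈ insert k S, c j x ^ 2)
        = EX (fun x => ψ x * (∑ j ∈ S, c j x ^ 2) + ψ x * c k x ^ 2) := by
      apply EX_congr
      intro x
      rw [sum_insert hkS]
      ring
    rw [e1, e2, EX_add, EX_add, EX_mul_left, h0, EX_add, ih']
    ring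

lemma orth' {c : Fin (Fintype.card E) → (E → Bool) → ℝ} (hc : ∀ k, DepOn (c k) (pre σ k))
    (S : Finset (Fin (Fintype.card E))) :
    EX (fun x => (∑ k ∈ S, eps x (σ k) * c k x) ^ 2) = EX (fun x => ∑ k ∈ S, c k x ^ 2) := by
  have := orth hc S (fun _ => 1) (fun k _ => DepOn.const 1 _)
  simpa using this

/-- variance identity -/
lemma var_eq (f : (E → Bool) → ℝ) :
    EX (fun x => (f x - EX f) ^ 2) = EX (fun x => ∑ k, d σ f k x ^ 2) / 4 := by
  have h := orth' (fun k => d_depOn σ f k) univ
  rw [← h, div_eq_inv_mul, ← EX_mul_left]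
  apply EX_congr
  intro x
  rw [tele_zero σ f x]
  ring

/-- tail variance bound -/
lemma tail_bound {f : (E → Bool) → ℝ} (h0 : ∀ x, 0 ≤ f x) (h1 : ∀ x, f x ≤ 1)
    (j : Fin (Fintype.card E)) :
    EX (fun x => d σ f j x ^ 2 * ∑ k ∈ univ.filter (fun k => j < k), d σ f k x ^ 2)
      ≤ 4 * EX (fun x => d σ f j x ^ 2) := by
  have h := orth (σ := σ) (fun k => d_depOn σ f k) (univ.filter (fun k => j < k))
    (fun x => d σ f j x ^ 2) (by
      intro k hk
      rw [mem_filter] at hk
      exact ((d_depOn σ f j).mono (pre_mono σ (by exact_mod_cast hk.2.le))).pow 2)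
  rw [← h, ← EX_mul_left]
  apply EX_mono
  intro x
  have ht := tele σ f x (Fintype.card E - (j + 1)) (j + 1) (by have := j.2; omega)
  have hset : univ.filter (fun k : Fin (Fintype.card E) => (j : ℕ) + 1 ≤ (k : ℕ))
      = univ.filter (fun k => j < k) := by
    ext k
    simp only [mem_filter, mem_univ, true_and, Fin.lt_def]
    omega
  rw [hset] at ht
  have hsum : ∑ k ∈ univ.filter (fun k => j < k), eps x (σ k) * d σ f k x
      = 2 * (f x - cexp (pre σ (j + 1)) f x) := by rw [ht]; ring
  rw [hsum]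
  have a0 := h0 x
  have a1 := h1 x
  have b0 := cexp_nonneg h0 (pre σ (j + 1)) x
  have b1 := cexp_le_one h1 (pre σ (j + 1)) x
  have hsq : (2 * (f x - cexp (pre σ (j + 1)) f x)) ^ 2 ≤ 4 := by nlinarith
  nlinarith [sq_nonneg (d σ f j x)]

/-- `E ∑ d_k² ∑_{j<k} d_j² ≤ 4 E ∑ d_k²` -/
lemma T_bound {f : (E → Bool) → ℝ} (h0 : ∀ x, 0 ≤ f x) (h1 : ∀ x, f x ≤ 1) :
    EX (fun x => ∑ k, d σ f k x ^ 2 * ∑ j ∈ univ.filter (fun j => j < k), d σ f j x ^ 2)
      ≤ 4 * EX (fun x => ∑ k, d σ f k x ^ 2) := by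
  have e1 : EX (fun x => ∑ k, d σ f k x ^ 2 * ∑ j ∈ univ.filter (fun j => j < k), d σ f j x ^ 2)
      = EX (fun x => ∑ j, d σ f j x ^ 2 * ∑ k ∈ univ.filter (fun k => j < k), d σ f k x ^ 2) := by
    apply EX_congr
    intro x
    simp only [mul_sum, sum_filter]
    rw [sum_comm]
    apply sum_congr rfl
    intro j _
    apply sum_congr rfl
    intro k _
    split_ifs <;> ring
  rw [e1, EX_sum, EX_sum, mul_sum]
  exact sum_le_sum fun j _ => tail_bound h0 h1 j

lemma sq_sum_le (N : ℕ) (a : Fin N → ℝ) :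
    (∑ k, a k) ^ 2 = 2 * (∑ k, a k * ∑ j ∈ univ.filter (fun j => j < k), a j) + ∑ k, a k ^ 2 := by
  have key : ∀ S : Finset (Fin N), (∑ k ∈ S, a k) ^ 2
      = 2 * (∑ k ∈ S, a k * ∑ j ∈ S.filter (fun j => j < k), a j) + ∑ k ∈ S, a k ^ 2 := by
    intro S
    induction S using Finset.induction_on_max with
    | empty => simp
    | insert k S hk ih =>
      have hkS : k ∉ S := fun h => lt_irrefl _ (hk k h)
      rw [sum_insert hkS, sum_insert hkS, sum_insert hkS, add_sq, ih]
      have e1 : (insert k S).filter (fun j => j < k) = S := by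
        ext j
        simp only [mem_filter, mem_insert]
        constructor
        · rintro ⟨h | h, h'⟩
          · exact absurd h' (by rw [h]; exact lt_irrefl _)
          · exact h
        · intro h
          exact ⟨Or.inr h, hk j h⟩
      have e2 : ∑ i ∈ S, a i * ∑ j ∈ (insert k S).filter (fun j => j < i), a j
          = ∑ i ∈ S, a i * ∑ j ∈ S.filter (fun j => j < i), a j := by
        apply sum_congr rfl
        intro i hi
        congr 1
        apply sum_congr _ (fun _ _ => rfl)
        ext j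
        simp only [mem_filter, mem_insert]
        constructor
        · rintro ⟨h | h, h'⟩
          · exact absurd (hk i hi) (by rw [← h]; exact h'.asymm)
          · exact ⟨h, h'⟩
        · rintro ⟨h, h'⟩
          exact ⟨Or.inr h, h'⟩
      rw [e1, e2]
      ring
  exact key univ

/-- second moment of the quadratic variation -/
lemma V_sq_bound {f : (E → Bool) → ℝ} (h0 : ∀ x, 0 ≤ f x) (h1 : ∀ x, f x ≤ 1)
    (hmono : Monotone f) :
    EX (fun x => (∑ k, d σ f k x ^ 2) ^ 2) ≤ 9 * EX (fun x => ∑ k, d σ f k x ^ 2) := by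
  have e1 : EX (fun x => (∑ k, d σ f k x ^ 2) ^ 2) =
      EX (fun x => 2 * (∑ k, d σ f k x ^ 2 * ∑ j ∈ univ.filter (fun j => j < k), d σ f j x ^ 2)
        + ∑ k, (d σ f k x ^ 2) ^ 2) := by
    apply EX_congr
    intro x
    exact sq_sum_le _ _
  rw [e1, EX_add, EX_mul_left]
  have h2 := T_bound (σ := σ) h0 h1
  have h3 : EX (fun x => ∑ k, (d σ f k x ^ 2) ^ 2) ≤ EX (fun x => ∑ k, d σ f k x ^ 2) := by
    apply EX_mono
    intro x
    apply sum_le_sum
    intro k _
    have a := D_nonneg hmono (pre σ k) (σ k) x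
    have b := D_le_one h0 h1 (pre σ k) (σ k) x
    have : d σ f k x = D f (pre σ k) (σ k) x := rfl
    rw [this]
    have hle : (D f (pre σ k) (σ k) x) ^ 2 ≤ 1 := by nlinarith
    nlinarith [sq_nonneg (D f (pre σ k) (σ k) x)]
  linarith

/-- integrating out later multiplicative factors -/
lemma Z_drop {β : Fin (Fintype.card E) → (E → Bool) → ℝ} (hβ : ∀ k, DepOn (β k) (pre σ k))
    (S : Finset (Fin (Fintype.card E))) : ∀ (φ : (E → Bool) → ℝ),
    (∀ k ∈ S, DepOn φ (pre σ k)) →
    EX (fun x => φ x * ∏ k ∈ S, (1 + β k x * eps x (σ k))) = EX φ := by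
  induction S using Finset.induction_on_max with
  | empty => intro φ _; simp
  | insert k S hk ih =>
    intro φ hφ
    have hkS : k ∉ S := fun h => lt_irrefl _ (hk k h)
    have ih' := ih φ (fun j hj => hφ j (mem_insert_of_mem hj))
    have hφk := hφ k (mem_insert_self _ _)
    have hA : DepOn (fun x => ∏ j ∈ S, (1 + β j x * eps x (σ j))) (pre σ k) := by
      apply DepOn.prod
      intro j hj
      have hjk : (j : ℕ) < k := hk j hj
      exact (DepOn.const 1 _).add
        (((hβ j).mono (pre_mono σ hjk.le)).mul (DepOn.eps ((mem_pre' σ).2 hjk)))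
    have h0 := EX_mul_eps (((hφk.mul hA).mul (hβ k))) (notMem_pre_self σ k)
    have e1 : EX (fun x => φ x * ∏ j ∈ insert k S, (1 + β j x * eps x (σ j)))
        = EX (fun x => φ x * (∏ j ∈ S, (1 + β j x * eps x (σ j))) +
          φ x * (∏ j ∈ S, (1 + β j x * eps x (σ j))) * β k x * eps x (σ k)) := by
      apply EX_congr
      intro x
      rw [prod_insert hkS]
      ring
    rw [e1, EX_add, h0, add_zero, ih']

/-- the tilted density -/
noncomputable def Z (σ : Fin (Fintype.card E) ≃ E) (β : Fin (Fintype.card E) → (E → Bool) → ℝ)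
    (x : E → Bool) : ℝ := ∏ k, (1 + β k x * eps x (σ k))

lemma EX_Z {β : Fin (Fintype.card E) → (E → Bool) → ℝ} (hβ : ∀ k, DepOn (β k) (pre σ k)) :
    EX (Z σ β) = 1 := by
  have := Z_drop hβ univ (fun _ => 1) (fun k _ => DepOn.const 1 _)
  simp only [one_mul] at this
  rw [EX_const] at this
  exact this

lemma prod_split (k : Fin (Fintype.card E)) (g : Fin (Fintype.card E) → ℝ) :
    ∏ j, g j = (∏ j ∈ univ.filter (fun j => j < k), g j) * g k *
      ∏ j ∈ univ.filter (fun j => k < j), g j := by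
  have h1 : (univ : Finset (Fin (Fintype.card E))) = (univ.filter (fun j => j < k)) ∪
      ({k} ∪ univ.filter (fun j => k < j)) := by
    ext j
    simp only [mem_univ, mem_union, mem_filter, mem_singleton, true_and, true_iff]
    rcases lt_trichotomy j k with h | h | h <;> tauto
  conv_lhs => rw [h1]
  rw [prod_union, prod_union, prod_singleton, mul_assoc]
  · rw [disjoint_singleton_left]; simp
  · rw [disjoint_left]
    intro j hj hj'
    simp only [mem_union, mem_filter, mem_singleton, mem_univ, true_and] at hj hj'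
    rcases hj' with h | h
    · rw [h] at hj; exact lt_irrefl _ hj
    · exact lt_asymm hj h

lemma Z_gain {β : Fin (Fintype.card E) → (E → Bool) → ℝ} (hβ : ∀ k, DepOn (β k) (pre σ k))
    (k : Fin (Fintype.card E)) {c : (E → Bool) → ℝ} (hc : DepOn c (pre σ k)) :
    EX (fun x => Z σ β x * (eps x (σ k) * c x)) = EX (fun x => Z σ β x * (β k x * c x)) := by
  set P : (E → Bool) → ℝ := fun x => ∏ j ∈ univ.filter (fun j => j < k),
    (1 + β j x * eps x (σ j)) with hP
  have hPdep : DepOn P (pre σ k) := by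
    apply DepOn.prod
    intro j hj
    rw [mem_filter] at hj
    have hjk : (j : ℕ) < k := hj.2
    exact (DepOn.const 1 _).add
      (((hβ j).mono (pre_mono σ hjk.le)).mul (DepOn.eps ((mem_pre' σ).2 hjk)))
  have hk1 : ∀ j ∈ univ.filter (fun j => k < j), pre σ ((k : ℕ) + 1) ⊆ pre σ j := by
    intro j hj
    rw [mem_filter] at hj
    apply pre_mono
    have : (k : ℕ) < j := hj.2
    omega
  have hsub : pre σ k ⊆ pre σ ((k : ℕ) + 1) := pre_mono σ (by omega)
  have heps : DepOn (fun x => eps x (σ k)) (pre σ ((k : ℕ) + 1)) :=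
    DepOn.eps ((mem_pre' σ).2 (by omega))
  -- left side
  have hL := Z_drop hβ (univ.filter (fun j => k < j))
    (fun x => P x * (1 + β k x * eps x (σ k)) * (eps x (σ k) * c x)) (by
      intro j hj
      apply DepOn.mono _ (hk1 j hj)
      exact ((hPdep.mono hsub).mul ((DepOn.const 1 _).add (((hβ k).mono hsub).mul heps))).mul
        (heps.mul (hc.mono hsub)))
  have hR := Z_drop hβ (univ.filter (fun j => k < j))
    (fun x => P x * (1 + β k x * eps x (σ k)) * (β k x * c x)) (by
      intro j hj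
      apply DepOn.mono _ (hk1 j hj)
      exact ((hPdep.mono hsub).mul ((DepOn.const 1 _).add (((hβ k).mono hsub).mul heps))).mul
        (((hβ k).mono hsub).mul (hc.mono hsub)))
  have eL : EX (fun x => Z σ β x * (eps x (σ k) * c x)) =
      EX (fun x => P x * (1 + β k x * eps x (σ k)) * (eps x (σ k) * c x)) := by
    rw [← hL]
    apply EX_congr
    intro x
    unfold Z
    rw [prod_split k]
    ring
  have eR : EX (fun x => Z σ β x * (β k x * c x)) =
      EX (fun x => P x * (1 + β k x * eps x (σ k)) * (β k x * c x)) := by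
    rw [← hR]
    apply EX_congr
    intro x
    unfold Z
    rw [prod_split k]
    ring
  rw [eL, eR]
  have z1 := EX_mul_eps (hPdep.mul hc) (notMem_pre_self σ k)
  have z2 := EX_mul_eps (((hPdep.mul hc).mul (hβ k)).mul (hβ k)) (notMem_pre_self σ k)
  have f1 : EX (fun x => P x * (1 + β k x * eps x (σ k)) * (eps x (σ k) * c x))
      = EX (fun x => P x * c x * eps x (σ k) + P x * β k x * c x) := by
    apply EX_congr
    intro x
    have := eps_sq x (σ k)
    linear_combination (P x * β k x * c x) * this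
  have f2 : EX (fun x => P x * (1 + β k x * eps x (σ k)) * (β k x * c x))
      = EX (fun x => P x * c x * β k x * β k x * eps x (σ k) + P x * β k x * c x) := by
    apply EX_congr
    intro x
    ring
  rw [f1, f2, EX_add, EX_add, z1, z2]

lemma Z_sq {β : Fin (Fintype.card E) → (E → Bool) → ℝ} (hβ : ∀ k, DepOn (β k) (pre σ k))
    {δ : ℝ} (hδ : ∀ x, ∑ k, β k x ^ 2 ≤ δ) :
    EX (fun x => Z σ β x ^ 2) ≤ Real.exp δ := by
  set β' : Fin (Fintype.card E) → (E → Bool) → ℝ := fun k x => 2 * β k x / (1 + β k x ^ 2)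
    with hβ'
  have hβ'd : ∀ k, DepOn (β' k) (pre σ k) := fun k =>
    ((DepOn.const 2 _).mul (hβ k)).div ((DepOn.const 1 _).add ((hβ k).pow 2))
  have h1 := EX_Z hβ'd
  have hpt : ∀ x, Z σ β x ^ 2 ≤ Real.exp δ * Z σ β' x := by
    intro x
    have hfac : ∀ k, (1 + β k x * eps x (σ k)) ^ 2
        = (1 + β' k x * eps x (σ k)) * (1 + β k x ^ 2) := by
      intro k
      have hpos : (1 + β k x ^ 2) ≠ 0 := by positivity
      have h2 : (1 + β' k x * eps x (σ k)) * (1 + β k x ^ 2)
          = 1 + β k x ^ 2 + 2 * β k x * eps x (σ k) := by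
        simp only [hβ']
        field_simp
      rw [h2]
      have := eps_sq x (σ k)
      linear_combination (β k x ^ 2) * this
    have h2 : Z σ β x ^ 2 = Z σ β' x * ∏ k, (1 + β k x ^ 2) := by
      unfold Z
      rw [← prod_pow, ← prod_mul_distrib]
      exact prod_congr rfl fun k _ => hfac k
    have h3 : ∏ k, (1 + β k x ^ 2) ≤ Real.exp δ := by
      calc ∏ k, (1 + β k x ^ 2) ≤ ∏ k, Real.exp (β k x ^ 2) := by
            apply prod_le_prod
            · intro k _; positivity
            · intro k _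
              have := Real.add_one_le_exp (β k x ^ 2)
              linarith
        _ = Real.exp (∑ k, β k x ^ 2) := (Real.exp_sum _ _).symm
        _ ≤ Real.exp δ := Real.exp_le_exp.2 (hδ x)
    have h4 : 0 < ∏ k, (1 + β k x ^ 2) := prod_pos fun k _ => by positivity
    have h5 : 0 ≤ Z σ β' x := by
      have : 0 ≤ Z σ β' x * ∏ k, (1 + β k x ^ 2) := by rw [← h2]; positivity
      exact nonneg_of_mul_nonneg_left this h4
    rw [h2, mul_comm]
    exact mul_le_mul_of_nonneg_right h3 h5
  calc EX (fun x => Z σ β x ^ 2) ≤ EX (fun x => Real.exp δ * Z σ β' x) := EX_mono hpt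
    _ = Real.exp δ := by rw [EX_mul_left, h1, mul_one]

/-- gain formula -/
lemma gain_eq (f : (E → Bool) → ℝ) {β : Fin (Fintype.card E) → (E → Bool) → ℝ}
    (hβ : ∀ k, DepOn (β k) (pre σ k)) :
    EX (fun x => Z σ β x * f x) - EX f
      = EX (fun x => Z σ β x * ∑ k, β k x * d σ f k x) / 2 := by
  have h1 : EX (fun x => Z σ β x * f x) - EX f
      = EX (fun x => Z σ β x * (f x - EX f)) := by
    have : EX (fun x => Z σ β x * (f x - EX f))
        = EX (fun x => Z σ β x * f x - EX f * Z σ β x) := EX_congr fun x => by ring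
    rw [this, EX_sub, EX_mul_left, EX_Z hβ, mul_one]
  rw [h1]
  have h2 : EX (fun x => Z σ β x * (f x - EX f))
      = EX (fun x => (1 / 2 : ℝ) * ∑ k, Z σ β x * (eps x (σ k) * d σ f k x)) := by
    apply EX_congr
    intro x
    rw [tele_zero σ f x, ← mul_sum]
    ring
  rw [h2, EX_mul_left, EX_sum]
  have h3 : EX (fun x => Z σ β x * ∑ k, β k x * d σ f k x)
      = ∑ k, EX (fun x => Z σ β x * (β k x * d σ f k x)) := by
    rw [← EX_sum]
    apply EX_congr
    intro x
    rw [mul_sum]
  rw [h3]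
  rw [sum_congr rfl fun k _ => Z_gain hβ k (d_depOn σ f k)]
  ring

end order

end Pool.Agent.Helper47.HInt
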