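import Pool.Agent.Helper47.HInt2

open Finset Function

set_option linter.unusedSectionVars false

namespace Pool.Agent.Helper47.HInt

variable {E : Type*} [Fintype E] [DecidableEq E]

lemma EX_one_add_eps {ψ φ : (E → Bool) → ℝ} {X : Finset E} (h : DepOn ψ X) {e : E} (he : e ∉ X) :
    EX (fun x => ψ x * (1 + eps x e) * φ x) = EX (fun x => ψ x * φ (update x e true)) := by
  rw [EX_update e]
  have e1 : EX (fun x => ψ (update x e true) * (1 + eps (update x e true) e) * φ (update x e true))
      = 2 * EX (fun x => ψ x * φ (update x e true)) := by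
    rw [← EX_mul_left]
    apply EX_congr
    intro x
    rw [h.update he]
    simp only [eps, update_self, if_true]
    ring
  have e2 : EX (fun x => ψ (update x e false) * (1 + eps (update x e false) e) *
      φ (update x e false)) = 0 := by
    rw [← EX_const (E := E) 0]
    apply EX_congr
    intro x
    simp [eps]
  rw [e1, e2]
  ring

lemma split_powerset {V : Type*} [Fintype V] [DecidableEq V] (y : V) (p q : V → ℝ)
    (G : Finset V → ℝ) :
    ∑ U ∈ (univ : Finset V).powerset, ((∏ v ∈ U, q v) * ∏ v ∈ univ \ U, p v) * G U
      = ∑ U ∈ ((univ : Finset V).erase y).powerset,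
        ((∏ v ∈ U, q v) * ∏ v ∈ (univ.erase y) \ U, p v) * (p y * G U + q y * G (insert y U)) := by
  have h1 : (univ : Finset V) = insert y (univ.erase y) := (insert_erase (mem_univ y)).symm
  conv_lhs => rw [h1]
  rw [sum_powerset_insert (notMem_erase y univ), ← sum_add_distrib]
  apply sum_congr rfl
  intro U hU
  rw [mem_powerset] at hU
  have hyU : y ∉ U := fun h => notMem_erase y univ (hU h)
  have e1 : insert y (univ.erase y) \ U = insert y ((univ.erase y) \ U) := by
    ext v
    simp only [Finset.mem_sdiff, mem_insert, mem_erase, mem_univ, and_true]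
    constructor
    · rintro ⟨h, h'⟩
      rcases h with h | h
      · exact Or.inl h
      · exact Or.inr ⟨h, h'⟩
    · rintro (h | ⟨h, h'⟩)
      · exact ⟨Or.inl h, by rw [h]; exact hyU⟩
      · exact ⟨Or.inr h, h'⟩
  have e2 : insert y (univ.erase y) \ insert y U = (univ.erase y) \ U := by
    ext v
    simp only [Finset.mem_sdiff, mem_insert, mem_erase, mem_univ, and_true, not_or]
    constructor
    · rintro ⟨h, h', h''⟩
      exact ⟨h', h''⟩
    · rintro ⟨h, h'⟩
      exact ⟨Or.inr h, h, h'⟩
  rw [e1, e2, prod_insert (by simp), prod_insert hyU]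
  ring

lemma coupling_inv {V : Type*} [Fintype V] [DecidableEq V] (σ : Fin (Fintype.card E) ≃ E)
    (leaf : E → Option V)
    (β : Fin (Fintype.card E) → (E → Bool) → ℝ) (hβ : ∀ k, DepOn (β k) (pre σ k))
    (hβ0 : ∀ k x, 0 ≤ β k x) (hnone : ∀ k x, leaf (σ k) = none → β k x = 0)
    (hsum : ∀ x y, ∑ k ∈ univ.filter (fun k => leaf (σ k) = some y), β k x ≤ 1 / 4)
    (ω : ℕ → Finset V → (E → Bool) → ℝ) (h0 : ∀ m U x, 0 ≤ ω m U x)
    (ha : ∀ m U x, ω (m + 1) U x ≤ ω m U x)
    (hb : ∀ (k : Fin (Fintype.card E)) y U x, leaf (σ k) = some y → y ∉ U →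
      ω (k + 1) (insert y U) (update x (σ k) true) ≤ ω k U x) :
    ∀ m : ℕ, m ≤ Fintype.card E → ∃ p q : V → (E → Bool) → ℝ,
      (∀ y, DepOn (p y) (pre σ m)) ∧ (∀ y, DepOn (q y) (pre σ m)) ∧
      (∀ y x, 1 - 2 * ∑ k ∈ univ.filter (fun k : Fin (Fintype.card E) =>
        (k : ℕ) < m ∧ leaf (σ k) = some y), β k x ≤ p y x) ∧
      (∀ y x, p y x ≤ 1) ∧ (∀ y x, 0 ≤ q y x) ∧
      (∀ y x, q y x ≤ 4 * ∑ k ∈ univ.filter (fun k : Fin (Fintype.card E) =>
        (k : ℕ) < m ∧ leaf (σ k) = some y), β k x) ∧
      (∀ x, ∏ y, (q y x + p y x) = ∏ k ∈ univ.filter (fun k : Fin (Fintype.card E) => (k : ℕ) < m),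
        (1 + β k x * eps x (σ k))) ∧
      EX (fun x => ∑ U ∈ (univ : Finset V).powerset,
        ((∏ v ∈ U, q v x) * ∏ v ∈ univ \ U, p v x) * ω m U x) ≤ EX (ω 0 ∅) := by
  intro m
  induction m with
  | zero =>
    intro _
    refine ⟨fun _ _ => 1, fun _ _ => 0, fun _ => DepOn.const 1 _, fun _ => DepOn.const 0 _,
      by simp, by simp, by simp, by simp, by simp, ?_⟩
    apply le_of_eq
    apply EX_congr
    intro x
    rw [sum_eq_single ∅]
    · simp
    · intro U _ hU
      obtain ⟨y, hy⟩ := nonempty_iff_ne_empty.2 hU
      rw [prod_eq_zero hy rfl]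
      simp
    · intro h; exact absurd (by simp) h
  | succ m ih =>
    intro hm
    obtain ⟨p, q, hpd, hqd, hp1, hp2, hq1, hq2, hprod, hEX⟩ := ih (by omega)
    have hlt : m < Fintype.card E := by omega
    set k : Fin (Fintype.card E) := ⟨m, hlt⟩ with hk
    have hpre : pre σ m ⊆ pre σ (m + 1) := pre_mono σ (by omega)
    have hfilt : univ.filter (fun j : Fin (Fintype.card E) => (j : ℕ) < m + 1)
        = insert k (univ.filter (fun j : Fin (Fintype.card E) => (j : ℕ) < m)) := by
      ext j
      simp only [mem_filter, mem_univ, true_and, mem_insert, hk, Fin.ext_iff]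
      omega
    have hknot : k ∉ univ.filter (fun j : Fin (Fintype.card E) => (j : ℕ) < m) := by
      simp [hk]
    -- monotonicity of partial sums
    have hmonosum : ∀ y x, ∑ j ∈ univ.filter (fun j : Fin (Fintype.card E) =>
        (j : ℕ) < m ∧ leaf (σ j) = some y), β j x ≤
        ∑ j ∈ univ.filter (fun j : Fin (Fintype.card E) =>
        (j : ℕ) < m + 1 ∧ leaf (σ j) = some y), β j x := by
      intro y x
      apply sum_le_sum_of_subset_of_nonneg
      · intro j hj
        simp only [mem_filter, mem_univ, true_and] at hj ⊢
        exact ⟨by omega, hj.2⟩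
      · intro j _ _; exact hβ0 j x
    have hw0 : ∀ U x, 0 ≤ (∏ v ∈ U, q v x) * ∏ v ∈ univ \ U, p v x := by
      intro U x
      apply mul_nonneg
      · exact prod_nonneg fun v _ => hq1 v x
      · apply prod_nonneg
        intro v _
        have h1 := hp1 v x
        have h2 : ∑ j ∈ univ.filter (fun j : Fin (Fintype.card E) =>
          (j : ℕ) < m ∧ leaf (σ j) = some v), β j x ≤ 1 / 4 := by
          refine le_trans ?_ (hsum x v)
          apply sum_le_sum_of_subset_of_nonneg
          · intro j hj
            simp only [mem_filter, mem_univ, true_and] at hj ⊢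
            exact hj.2
          · intro j _ _; exact hβ0 j x
        linarith
    cases hleaf : leaf (σ k) with
    | none =>
      refine ⟨p, q, fun y => (hpd y).mono hpre, fun y => (hqd y).mono hpre, ?_, hp2, hq1, ?_,
        ?_, ?_⟩
      · intro y x
        have := hp1 y x
        have := hmonosum y x
        linarith
      · intro y x
        have := hq2 y x
        have := hmonosum y x
        linarith
      · intro x
        rw [hprod x, hfilt, prod_insert hknot, hnone k x hleaf]
        ring
      · refine le_trans (EX_mono fun x => ?_) hEX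
        apply sum_le_sum
        intro U _
        exact mul_le_mul_of_nonneg_left (ha m U x) (hw0 U x)
    | some y₀ =>
      set b : (E → Bool) → ℝ := fun x => β k x * (p y₀ x + q y₀ x) with hb'
      have hbd : DepOn b (pre σ m) := (hβ k).mul ((hpd y₀).add (hqd y₀))
      -- the sum at `y₀` gains `β k`
      have hs : ∀ x, ∑ j ∈ univ.filter (fun j : Fin (Fintype.card E) =>
        (j : ℕ) < m + 1 ∧ leaf (σ j) = some y₀), β j x = β k x +
        ∑ j ∈ univ.filter (fun j : Fin (Fintype.card E) =>
        (j : ℕ) < m ∧ leaf (σ j) = some y₀), β j x := by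
        intro x
        have : univ.filter (fun j : Fin (Fintype.card E) =>
          (j : ℕ) < m + 1 ∧ leaf (σ j) = some y₀) = insert k (univ.filter
          (fun j : Fin (Fintype.card E) => (j : ℕ) < m ∧ leaf (σ j) = some y₀)) := by
          ext j
          simp only [mem_filter, mem_univ, true_and, mem_insert]
          constructor
          · rintro ⟨h, h'⟩
            by_cases hjk : j = k
            · exact Or.inl hjk
            · right
              refine ⟨?_, h'⟩
              have : (j : ℕ) ≠ m := fun hh => hjk (Fin.ext hh)
              omega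
          · rintro (h | h)
            · subst h; exact ⟨by simp [hk], hleaf⟩
            · exact ⟨by omega, h.2⟩
        rw [this, sum_insert]
        simp [hk]
      have hs1 : ∀ x, ∑ j ∈ univ.filter (fun j : Fin (Fintype.card E) =>
        (j : ℕ) < m + 1 ∧ leaf (σ j) = some y₀), β j x ≤ 1 / 4 := by
        intro x
        refine le_trans ?_ (hsum x y₀)
        apply sum_le_sum_of_subset_of_nonneg
        · intro j hj
          simp only [mem_filter, mem_univ, true_and] at hj ⊢
          exact hj.2
        · intro j _ _; exact hβ0 j x
      have hb2 : ∀ x, b x ≤ 2 * β k x := by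
        intro x
        have h1 := hp2 y₀ x
        have h2 := hq2 y₀ x
        have h3 := hs1 x
        rw [hs x] at h3
        have h4 := hβ0 k x
        simp only [hb']
        nlinarith
      have hb0 : ∀ x, 0 ≤ b x := by
        intro x
        have h1 := hp1 y₀ x
        have h2 := hq1 y₀ x
        have h3 := hs1 x
        rw [hs x] at h3
        have h4 := hβ0 k x
        simp only [hb']
        apply mul_nonneg h4
        linarith
      have hbp : ∀ x, b x ≤ p y₀ x := by
        intro x
        have h1 := hp1 y₀ x
        have h3 := hs1 x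
        rw [hs x] at h3
        have h4 := hβ0 k x
        have := hb2 x
        linarith
      refine ⟨fun y x => if y = y₀ then p y₀ x - b x else p y x,
        fun y x => if y = y₀ then q y₀ x + b x * (1 + eps x (σ k)) else q y x,
        ?_, ?_, ?_, ?_, ?_, ?_, ?_, ?_⟩
      · intro y
        by_cases h : y = y₀
        · simp only [h, if_true]
          exact (((hpd y₀).sub hbd).mono hpre)
        · simp only [h, if_false]
          exact (hpd y).mono hpre
      · intro y
        by_cases h : y = y₀
        · simp only [h, if_true]
          exact ((hqd y₀).mono hpre).add ((hbd.mono hpre).mul ((DepOn.const 1 _).add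
            (DepOn.eps ((mem_pre' σ).2 (by simp [hk])))))
        · simp only [h, if_false]
          exact (hqd y).mono hpre
      · intro y x
        by_cases h : y = y₀
        · subst h
          simp only [if_true]
          rw [hs x]
          have := hp1 y x
          have := hb2 x
          linarith
        · simp only [h, if_false]
          have := hp1 y x
          have := hmonosum y x
          linarith
      · intro y x
        by_cases h : y = y₀
        · subst h
          simp only [if_true]
          have := hp2 y x
          have := hb0 x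
          linarith
        · simp only [h, if_false]
          exact hp2 y x
      · intro y x
        by_cases h : y = y₀
        · subst h
          simp only [if_true]
          have h1 := hq1 y x
          have h2 := hb0 x
          have h3 : 0 ≤ 1 + eps x (σ k) := by unfold eps; split_ifs <;> norm_num
          have := mul_nonneg h2 h3
          linarith
        · simp only [h, if_false]
          exact hq1 y x
      · intro y x
        by_cases h : y = y₀
        · subst h
          simp only [if_true]
          rw [hs x]
          have h1 := hq2 y x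
          have h2 := hb0 x
          have h3 : 1 + eps x (σ k) ≤ 2 := by unfold eps; split_ifs <;> norm_num
          have h4 := hb2 x
          nlinarith
        · simp only [h, if_false]
          have := hq2 y x
          have := hmonosum y x
          linarith
      · intro x
        rw [hfilt, prod_insert hknot, ← hprod x]
        rw [← mul_prod_erase univ (fun y => q y x + p y x) (mem_univ y₀)]
        rw [← mul_prod_erase univ (fun y => (if y = y₀ then q y₀ x + b x * (1 + eps x (σ k))
          else q y x) + (if y = y₀ then p y₀ x - b x else p y x)) (mem_univ y₀)]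
        simp only [if_true]
        have : ∏ y ∈ univ.erase y₀, ((if y = y₀ then q y₀ x + b x * (1 + eps x (σ k))
          else q y x) + (if y = y₀ then p y₀ x - b x else p y x))
          = ∏ y ∈ univ.erase y₀, (q y x + p y x) := by
          apply prod_congr rfl
          intro y hy
          rw [mem_erase] at hy
          simp [hy.1]
        rw [this]
        simp only [hb']
        ring
      · refine le_trans ?_ hEX
        -- rewrite both sides by splitting on `y₀`
        have eL : ∀ x, ∑ U ∈ (univ : Finset V).powerset,
          ((∏ v ∈ U, (if v = y₀ then q y₀ x + b x * (1 + eps x (σ k)) else q v x)) *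
            ∏ v ∈ univ \ U, (if v = y₀ then p y₀ x - b x else p v x)) * ω (m + 1) U x
          = ∑ U ∈ ((univ : Finset V).erase y₀).powerset,
            ((∏ v ∈ U, q v x) * ∏ v ∈ (univ.erase y₀) \ U, p v x) *
              ((p y₀ x - b x) * ω (m + 1) U x +
                (q y₀ x + b x * (1 + eps x (σ k))) * ω (m + 1) (insert y₀ U) x) := by
          intro x
          rw [split_powerset y₀ (fun v => if v = y₀ then p y₀ x - b x else p v x)
            (fun v => if v = y₀ then q y₀ x + b x * (1 + eps x (σ k)) else q v x)
            (fun U => ω (m + 1) U x)]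
          apply sum_congr rfl
          intro U hU
          rw [mem_powerset] at hU
          simp only [if_true]
          congr 2
          · apply prod_congr rfl
            intro v hv
            have : v ≠ y₀ := fun h => notMem_erase y₀ univ (by have h2 := hU hv; rwa [h] at h2)
            simp [this]
          · apply prod_congr rfl
            intro v hv
            rw [Finset.mem_sdiff, mem_erase] at hv
            simp [hv.1.1]
        have eR : ∀ x, ∑ U ∈ (univ : Finset V).powerset,
          ((∏ v ∈ U, q v x) * ∏ v ∈ univ \ U, p v x) * ω m U x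
          = ∑ U ∈ ((univ : Finset V).erase y₀).powerset,
            ((∏ v ∈ U, q v x) * ∏ v ∈ (univ.erase y₀) \ U, p v x) *
              (p y₀ x * ω m U x + q y₀ x * ω m (insert y₀ U) x) := by
          intro x
          exact split_powerset y₀ (fun v => p v x) (fun v => q v x) (fun U => ω m U x)
        rw [EX_congr eL, EX_congr eR, EX_sum, EX_sum]
        apply sum_le_sum
        intro U hU
        rw [mem_powerset] at hU
        have hyU : y₀ ∉ U := fun h => notMem_erase y₀ univ (hU h)
        set r : (E → Bool) → ℝ := fun x =>
          (∏ v ∈ U, q v x) * ∏ v ∈ (univ.erase y₀) \ U, p v x with hr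
        have hrd : DepOn r (pre σ m) := (DepOn.prod fun v _ => hqd v).mul
          (DepOn.prod fun v _ => hpd v)
        have hr0 : ∀ x, 0 ≤ r x := by
          intro x
          apply mul_nonneg
          · exact prod_nonneg fun v _ => hq1 v x
          · apply prod_nonneg
            intro v _
            have h1 := hp1 v x
            have h2 : ∑ j ∈ univ.filter (fun j : Fin (Fintype.card E) =>
              (j : ℕ) < m ∧ leaf (σ j) = some v), β j x ≤ 1 / 4 := by
              refine le_trans ?_ (hsum x v)
              apply sum_le_sum_of_subset_of_nonneg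
              · intro j hj
                simp only [mem_filter, mem_univ, true_and] at hj ⊢
                exact hj.2
              · intro j _ _; exact hβ0 j x
            linarith
        have hkm : (k : ℕ) = m := rfl
        have key := EX_one_add_eps (ψ := fun x => r x * b x) (φ := ω (m + 1) (insert y₀ U))
          (hrd.mul hbd) (notMem_pre_self σ k)
        have f1 : EX (fun x => r x * ((p y₀ x - b x) * ω (m + 1) U x +
                (q y₀ x + b x * (1 + eps x (σ k))) * ω (m + 1) (insert y₀ U) x))
            = EX (fun x => r x * ((p y₀ x - b x) * ω (m + 1) U x +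
                q y₀ x * ω (m + 1) (insert y₀ U) x)) +
              EX (fun x => r x * b x * ω (m + 1) (insert y₀ U) (update x (σ k) true)) := by
          rw [← key, ← EX_add]
          apply EX_congr
          intro x
          ring
        rw [f1, ← EX_add]
        apply EX_mono
        intro x
        have g1 := ha m U x
        have g2 := ha m (insert y₀ U) x
        have g3 := hb k y₀ U x hleaf hyU
        rw [hkm] at g3
        have g4 := hbp x
        have g5 := hq1 y₀ x
        have g6 := hb0 x
        have g7 := hr0 x
        have t1 : (p y₀ x - b x) * ω (m + 1) U x ≤ (p y₀ x - b x) * ω m U x :=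
          mul_le_mul_of_nonneg_left g1 (by linarith)
        have t2 : q y₀ x * ω (m + 1) (insert y₀ U) x ≤ q y₀ x * ω m (insert y₀ U) x :=
          mul_le_mul_of_nonneg_left g2 g5
        have t3 : b x * ω (m + 1) (insert y₀ U) (update x (σ k) true) ≤ b x * ω m U x :=
          mul_le_mul_of_nonneg_left g3 g6
        have t4 : (p y₀ x - b x) * ω (m + 1) U x + q y₀ x * ω (m + 1) (insert y₀ U) x +
            b x * ω (m + 1) (insert y₀ U) (update x (σ k) true) ≤
            p y₀ x * ω m U x + q y₀ x * ω m (insert y₀ U) x := by linarith
        have t5 := mul_le_mul_of_nonneg_left t4 g7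
        calc r x * ((p y₀ x - b x) * ω (m + 1) U x + q y₀ x * ω (m + 1) (insert y₀ U) x) +
              r x * b x * ω (m + 1) (insert y₀ U) (update x (σ k) true)
            = r x * ((p y₀ x - b x) * ω (m + 1) U x + q y₀ x * ω (m + 1) (insert y₀ U) x +
              b x * ω (m + 1) (insert y₀ U) (update x (σ k) true)) := by ring
          _ ≤ _ := t5

lemma coupling {V : Type*} [Fintype V] [DecidableEq V] (σ : Fin (Fintype.card E) ≃ E)
    (leaf : E → Option V)
    (β : Fin (Fintype.card E) → (E → Bool) → ℝ) (hβ : ∀ k, DepOn (β k) (pre σ k))
    (hβ0 : ∀ k x, 0 ≤ β k x) (hnone : ∀ k x, leaf (σ k) = none → β k x = 0)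
    (hsum : ∀ x y, ∑ k ∈ univ.filter (fun k => leaf (σ k) = some y), β k x ≤ 1 / 4)
    (f : (E → Bool) → ℝ)
    (ω : ℕ → Finset V → (E → Bool) → ℝ) (h0 : ∀ m U x, 0 ≤ ω m U x)
    (ha : ∀ m U x, ω (m + 1) U x ≤ ω m U x)
    (hb : ∀ (k : Fin (Fintype.card E)) y U x, leaf (σ k) = some y → y ∉ U →
      ω (k + 1) (insert y U) (update x (σ k) true) ≤ ω k U x)
    (hc : ∀ m U x, f x ≤ ω m U x) :
    EX (fun x => Z σ β x * f x) ≤ EX (ω 0 ∅) := by
  obtain ⟨p, q, hpd, hqd, hp1, hp2, hq1, hq2, hprod, hEX⟩ :=
    coupling_inv σ leaf β hβ hβ0 hnone hsum ω h0 ha hb (Fintype.card E) le_rfl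
  refine le_trans (EX_mono fun x => ?_) hEX
  have hZ : Z σ β x = ∑ U ∈ (univ : Finset V).powerset,
      ((∏ v ∈ U, q v x) * ∏ v ∈ univ \ U, p v x) := by
    rw [← prod_add, hprod x]
    unfold Z
    apply prod_congr _ (fun _ _ => rfl)
    ext k
    simp
  rw [hZ, sum_mul]
  apply sum_le_sum
  intro U _
  apply mul_le_mul_of_nonneg_left (hc _ U x)
  apply mul_nonneg
  · exact prod_nonneg fun v _ => hq1 v x
  · apply prod_nonneg
    intro v _
    have h1 := hp1 v x
    have h2 : ∑ j ∈ univ.filter (fun j : Fin (Fintype.card E) =>
      (j : ℕ) < Fintype.card E ∧ leaf (σ j) = some v), β j x ≤ 1 / 4 := by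
      refine le_trans ?_ (hsum x v)
      apply sum_le_sum_of_subset_of_nonneg
      · intro j hj
        simp only [mem_filter, mem_univ, true_and] at hj ⊢
        exact hj.2
      · intro j _ _; exact hβ0 j x
    linarith

end Pool.Agent.Helper47.HInt
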