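import Pool.Agent.Helper47.HInt3

open Finset Function

set_option linter.unusedSectionVars false

namespace Pool.Agent.Helper47.HInt

variable {E : Type*} [Fintype E] [DecidableEq E]
variable {V : Type*} [Fintype V] [DecidableEq V]

/-- `y` is an endpoint of `e` -/
def inc (s t : E → V) (y : V) (e : E) : Prop := s e = y ∨ t e = y

/-- energy of a state -/
noncomputable def Q (f : (E → Bool) → ℝ) (X : Finset E) (x : E → Bool) : ℝ :=
  ∑ e ∈ X, D f X e x ^ 2

/-- capacity -/
noncomputable def Kb (f : (E → Bool) → ℝ) (X : Finset E) (x : E → Bool) : ℝ :=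
  8 * Real.sqrt (Q f X x)

open Classical in
/-- the edge `e` is in the light list of its endpoint `y` -/
def Light (s t : E → V) (f : (E → Bool) → ℝ) (X : Finset E) (x : E → Bool) (y : V) (e : E) :
    Prop :=
  ∑ e' ∈ X.filter (fun e' => inc s t y e' ∧ D f X e x ≤ D f X e' x), D f X e' x ≤ Kb f X x

lemma Q_nonneg (f : (E → Bool) → ℝ) (X : Finset E) (x : E → Bool) : 0 ≤ Q f X x :=
  sum_nonneg fun _ _ => sq_nonneg _

lemma Kb_nonneg (f : (E → Bool) → ℝ) (X : Finset E) (x : E → Bool) : 0 ≤ Kb f X x := by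
  unfold Kb; positivity

lemma Kb_sq (f : (E → Bool) → ℝ) (X : Finset E) (x : E → Bool) :
    Kb f X x ^ 2 = 64 * Q f X x := by
  unfold Kb
  rw [mul_pow, Real.sq_sqrt (Q_nonneg f X x)]
  norm_num

lemma Q_depOn (f : (E → Bool) → ℝ) (X : Finset E) : DepOn (Q f X) X :=
  DepOn.sum fun e _ => ((D_depOn f X e).mono (erase_subset _ _)).pow 2

lemma Kb_depOn (f : (E → Bool) → ℝ) (X : Finset E) : DepOn (Kb f X) X := by
  intro x y hxy
  unfold Kb
  rw [Q_depOn f X x y hxy]

open Classical in
lemma Light_depOn (s t : E → V) (f : (E → Bool) → ℝ) (X : Finset E) (y : V) (e : E)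
    (x x' : E → Bool) (h : ∀ e ∈ X, x e = x' e) :
    Light s t f X x y e ↔ Light s t f X x' y e := by
  unfold Light
  have hD : ∀ e', D f X e' x = D f X e' x' := fun e' =>
    ((D_depOn f X e').mono (erase_subset _ _)) x x' h
  rw [Kb_depOn f X x x' h]
  have : ∑ e' ∈ X.filter (fun e' => inc s t y e' ∧ D f X e x ≤ D f X e' x), D f X e' x
      = ∑ e' ∈ X.filter (fun e' => inc s t y e' ∧ D f X e x' ≤ D f X e' x'), D f X e' x' := by
    apply sum_congr
    · apply filter_congr
      intro e' _
      rw [hD, hD]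
    · intro e' _
      exact hD e'
  rw [this]

open Classical in
lemma usage_state {s t : E → V} {f : (E → Bool) → ℝ} (hmono : Monotone f) (X : Finset E)
    (x : E → Bool) (y : V) :
    ∑ e ∈ X.filter (fun e => inc s t y e ∧ Light s t f X x y e), D f X e x ≤ Kb f X x := by
  set F := X.filter (fun e => inc s t y e ∧ Light s t f X x y e) with hF
  rcases F.eq_empty_or_nonempty with h | h
  · rw [h, sum_empty]; exact Kb_nonneg f X x
  · obtain ⟨e₀, he₀, hmin⟩ := exists_min_image F (fun e => D f X e x) h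
    have hL : Light s t f X x y e₀ := by
      rw [hF, mem_filter] at he₀
      exact he₀.2.2
    refine le_trans ?_ hL
    apply sum_le_sum_of_subset_of_nonneg
    · intro e he
      have h1 := hmin e he
      rw [hF, mem_filter] at he
      rw [mem_filter]
      exact ⟨he.1, he.2.1, h1⟩
    · intro e _ _
      exact D_nonneg hmono X e x

open Classical in
lemma capture_state {s t : E → V} (hst : Injective (fun e => (s e, t e)))
    {f : (E → Bool) → ℝ} (hmono : Monotone f) (X : Finset E) (x : E → Bool) :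
    ∑ e ∈ X.filter (fun e => ¬ Light s t f X x (s e) e ∧ ¬ Light s t f X x (t e) e),
      D f X e x ^ 2 ≤ Q f X x / 16 := by
  set q : V → ℝ := fun y => ∑ e ∈ X.filter (fun e => inc s t y e), D f X e x ^ 2 with hq
  have hq0 : ∀ y, 0 ≤ q y := fun y => sum_nonneg fun _ _ => sq_nonneg _
  have hqsum : ∑ y, q y ≤ 2 * Q f X x := by
    simp only [hq, sum_filter]
    rw [sum_comm]
    unfold Q
    rw [mul_sum]
    apply sum_le_sum
    intro e _
    rw [← sum_filter, sum_const, nsmul_eq_mul]
    have hcard : (univ.filter (fun y => inc s t y e)).card ≤ 2 := by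
      refine (card_le_card (t := {s e, t e}) ?_).trans card_le_two
      intro y hy
      rw [mem_filter] at hy
      rw [mem_insert, mem_singleton]
      rcases hy.2 with h | h
      · exact Or.inl h.symm
      · exact Or.inr h.symm
    have : ((univ.filter (fun y => inc s t y e)).card : ℝ) ≤ 2 := by exact_mod_cast hcard
    exact mul_le_mul_of_nonneg_right this (sq_nonneg _)
  have hlost : ∀ e ∈ X, ∀ y, ¬ Light s t f X x y e → Kb f X x * D f X e x ≤ q y := by
    intro e _ y hL
    unfold Light at hL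
    push Not at hL
    have hD := D_nonneg hmono X e x
    calc Kb f X x * D f X e x
        ≤ (∑ e' ∈ X.filter (fun e' => inc s t y e' ∧ D f X e x ≤ D f X e' x), D f X e' x) *
            D f X e x := mul_le_mul_of_nonneg_right hL.le hD
      _ = ∑ e' ∈ X.filter (fun e' => inc s t y e' ∧ D f X e x ≤ D f X e' x),
            D f X e' x * D f X e x := by rw [sum_mul]
      _ ≤ ∑ e' ∈ X.filter (fun e' => inc s t y e' ∧ D f X e x ≤ D f X e' x),
            D f X e' x ^ 2 := by
          apply sum_le_sum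
          intro e' he'
          rw [mem_filter] at he'
          rw [pow_two]
          exact mul_le_mul_of_nonneg_left he'.2.2 (D_nonneg hmono X e' x)
      _ ≤ q y := by
          apply sum_le_sum_of_subset_of_nonneg
          · intro e' he'
            rw [mem_filter] at he' ⊢
            exact ⟨he'.1, he'.2.1⟩
          · intro _ _ _; exact sq_nonneg _
  set F := X.filter (fun e => ¬ Light s t f X x (s e) e ∧ ¬ Light s t f X x (t e) e) with hF
  have h1 : (64 * Q f X x) * ∑ e ∈ F, D f X e x ^ 2 ≤ 4 * Q f X x ^ 2 := by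
    rw [← Kb_sq, mul_sum]
    calc ∑ e ∈ F, Kb f X x ^ 2 * D f X e x ^ 2
        ≤ ∑ e ∈ F, q (s e) * q (t e) := by
          apply sum_le_sum
          intro e he
          rw [hF, mem_filter] at he
          have a1 := hlost e he.1 (s e) he.2.1
          have a2 := hlost e he.1 (t e) he.2.2
          have a3 : 0 ≤ Kb f X x * D f X e x :=
            mul_nonneg (Kb_nonneg f X x) (D_nonneg hmono X e x)
          calc Kb f X x ^ 2 * D f X e x ^ 2 = (Kb f X x * D f X e x) * (Kb f X x * D f X e x) := by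
                ring
            _ ≤ q (s e) * q (t e) := mul_le_mul a1 a2 a3 (hq0 _)
      _ = ∑ p ∈ F.image (fun e => (s e, t e)), q p.1 * q p.2 := by
          rw [sum_image (fun e _ e' _ h => hst h)]
      _ ≤ ∑ p : V × V, q p.1 * q p.2 := by
          apply sum_le_sum_of_subset_of_nonneg (subset_univ _)
          intro p _ _
          exact mul_nonneg (hq0 _) (hq0 _)
      _ = (∑ y, q y) ^ 2 := by
          rw [pow_two, sum_mul_sum, ← univ_product_univ, sum_product]
      _ ≤ (2 * Q f X x) ^ 2 := by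
          apply pow_le_pow_left₀ (sum_nonneg fun y _ => hq0 y) hqsum
      _ = 4 * Q f X x ^ 2 := by ring
  rcases (Q_nonneg f X x).eq_or_lt with h | h
  · -- Q = 0
    have hz : ∀ e ∈ X, D f X e x ^ 2 = 0 := by
      intro e he
      have h2 := h.symm
      unfold Q at h2
      exact (sum_eq_zero_iff_of_nonneg (fun _ _ => sq_nonneg _)).1 h2 e he
    rw [← h]
    rw [sum_eq_zero fun e he => hz e (mem_filter.1 he).1]
    simp
  · have h2 : 64 * (∑ e ∈ F, D f X e x ^ 2) ≤ 4 * Q f X x := by
      have : (64 * ∑ e ∈ F, D f X e x ^ 2) * Q f X x ≤ (4 * Q f X x) * Q f X x := by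
        nlinarith
      exact le_of_mul_le_mul_right this h
    linarith

section order

/-- swapping two positions -/
def sw (i j : Fin (Fintype.card E)) (σ : Fin (Fintype.card E) ≃ E) :
    Fin (Fintype.card E) ≃ E := (Equiv.swap i j).trans σ

lemma sw_apply (i j k : Fin (Fintype.card E)) (σ : Fin (Fintype.card E) ≃ E) :
    sw i j σ k = σ (Equiv.swap i j k) := rfl

lemma sw_of_ne {i j k : Fin (Fintype.card E)} (σ : Fin (Fintype.card E) ≃ E) (h : k ≠ i)
    (h' : k ≠ j) : sw i j σ k = σ k := by
  rw [sw_apply, Equiv.swap_apply_of_ne_of_ne h h']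

lemma pre_sw {m : ℕ} {i j : Fin (Fintype.card E)} (σ : Fin (Fintype.card E) ≃ E)
    (h : (i : ℕ) < m ↔ (j : ℕ) < m) : pre (sw i j σ) m = pre σ m := by
  ext e
  rw [mem_pre, mem_pre]
  have : (sw i j σ).symm e = Equiv.swap i j (σ.symm e) := by
    unfold sw
    simp
  rw [this]
  by_cases h1 : σ.symm e = i
  · rw [h1, Equiv.swap_apply_left]; exact h.symm
  · by_cases h2 : σ.symm e = j
    · rw [h2, Equiv.swap_apply_right]; exact h
    · rw [Equiv.swap_apply_of_ne_of_ne h1 h2]

/-- the equivalence on orders induced by swapping -/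
def swE (i j : Fin (Fintype.card E)) :
    (Fin (Fintype.card E) ≃ E) ≃ (Fin (Fintype.card E) ≃ E) where
  toFun := sw i j
  invFun := sw i j
  left_inv := by
    intro σ
    ext k
    simp [sw_apply]
  right_inv := by
    intro σ
    ext k
    simp [sw_apply]

lemma sum_pre (σ : Fin (Fintype.card E) ≃ E) (m : ℕ) (F : E → ℝ) :
    ∑ e ∈ pre σ m, F e = ∑ i ∈ univ.filter (fun i : Fin (Fintype.card E) => (i : ℕ) < m),
      F (σ i) := by
  have : pre σ m = (univ.filter (fun i : Fin (Fintype.card E) => (i : ℕ) < m)).map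
      σ.toEmbedding := by
    ext e
    rw [mem_pre, mem_map]
    constructor
    · intro h
      exact ⟨σ.symm e, by simpa using h, by simp⟩
    · rintro ⟨k, hk, rfl⟩
      simpa using hk
  rw [this, sum_map]
  rfl

lemma exch (j : Fin (Fintype.card E)) (Θ : (Fin (Fintype.card E) ≃ E) → E → ℝ)
    (hΘ : ∀ σ i, i ≤ j → Θ (sw i j σ) = Θ σ) :
    ((j : ℕ) + 1 : ℝ) * ∑ σ, Θ σ (σ j) = ∑ σ, ∑ e ∈ pre σ ((j : ℕ) + 1), Θ σ e := by
  have h1 : ∀ i ≤ j, ∑ σ, Θ σ (σ i) = ∑ σ, Θ σ (σ j) := by
    intro i hi
    rw [← Equiv.sum_comp (swE i j) (fun σ => Θ σ (σ j))]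
    apply sum_congr rfl
    intro σ _
    have h2 : swE i j σ = sw i j σ := rfl
    simp only [h2, hΘ σ i hi, sw_apply, Equiv.swap_apply_right]
  have h2 : ∑ σ, ∑ e ∈ pre σ ((j : ℕ) + 1), Θ σ e
      = ∑ i ∈ univ.filter (fun i : Fin (Fintype.card E) => (i : ℕ) < (j : ℕ) + 1),
        ∑ σ, Θ σ (σ i) := by
    rw [sum_comm]
    apply sum_congr rfl
    intro σ _
    exact sum_pre σ _ _
  rw [h2]
  have h3 : ∑ i ∈ univ.filter (fun i : Fin (Fintype.card E) => (i : ℕ) < (j : ℕ) + 1),
        ∑ σ, Θ σ (σ i) = ∑ i ∈ univ.filter (fun i : Fin (Fintype.card E) => (i : ℕ) < (j : ℕ) + 1),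
        ∑ σ, Θ σ (σ j) := by
    apply sum_congr rfl
    intro i hi
    rw [mem_filter] at hi
    exact h1 i (Fin.le_def.2 (by omega))
  rw [h3, sum_const, nsmul_eq_mul]
  congr 1
  have : (univ.filter (fun i : Fin (Fintype.card E) => (i : ℕ) < (j : ℕ) + 1)).card
      = (j : ℕ) + 1 := by
    have h3 := card_pre (Fintype.equivFin E).symm (m := (j : ℕ) + 1) (by have := j.2; omega)
    have h4 : (pre (Fintype.equivFin E).symm ((j : ℕ) + 1)).card
      = (univ.filter (fun i : Fin (Fintype.card E) => (i : ℕ) < (j : ℕ) + 1)).card := by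
      have := sum_pre (Fintype.equivFin E).symm ((j : ℕ) + 1) (fun _ => (1 : ℝ))
      simp only [sum_const, nsmul_eq_mul, mul_one] at this
      exact_mod_cast this
    rw [← h4, h3]
  rw [this]
  push_cast
  ring

end order

end Pool.Agent.Helper47.HInt
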