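import Pool.Agent.Helper47.HInt4

open Finset Function

set_option linter.unusedSectionVars false

namespace Pool.Agent.Helper47.HInt

variable {E : Type*} [Fintype E] [DecidableEq E]
variable {V : Type*} [Fintype V] [DecidableEq V]

/-- the leaf endpoint of `e` for the leaf set `L` -/
def leafL (s t : E → V) (L : V → Bool) (e : E) : Option V :=
  if L (s e) = true ∧ L (t e) = false then some (s e)
  else if L (t e) = true ∧ L (s e) = false then some (t e) else none

lemma leafL_inc {s t : E → V} {L : V → Bool} {e : E} {y : V} (h : leafL s t L e = some y) :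
    inc s t y e := by
  unfold leafL at h
  split_ifs at h with h1 h2
  · left; simpa using h
  · right; simpa using h

open Classical in
/-- indicator that `e` may be used -/
noncomputable def AA (s t : E → V) (f : (E → Bool) → ℝ) (L : V → Bool) (X : Finset E) (e : E)
    (x : E → Bool) : ℝ :=
  if ∃ y, leafL s t L e = some y ∧ Light s t f X x y e then 1 else 0

open Classical in
/-- indicator that neither endpoint is light -/
noncomputable def lost (s t : E → V) (f : (E → Bool) → ℝ) (X : Finset E) (e : E)
    (x : E → Bool) : ℝ :=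
  if ¬ Light s t f X x (s e) e ∧ ¬ Light s t f X x (t e) e then 1 else 0

lemma AA_nonneg (s t : E → V) (f : (E → Bool) → ℝ) (L : V → Bool) (X : Finset E) (e : E)
    (x : E → Bool) : 0 ≤ AA s t f L X e x := by
  unfold AA; split_ifs <;> norm_num

lemma AA_le_one (s t : E → V) (f : (E → Bool) → ℝ) (L : V → Bool) (X : Finset E) (e : E)
    (x : E → Bool) : AA s t f L X e x ≤ 1 := by
  unfold AA; split_ifs <;> norm_num

lemma lost_nonneg (s t : E → V) (f : (E → Bool) → ℝ) (X : Finset E) (e : E)
    (x : E → Bool) : 0 ≤ lost s t f X e x := by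
  unfold lost; split_ifs <;> norm_num

lemma AA_depOn (s t : E → V) (f : (E → Bool) → ℝ) (L : V → Bool) (X : Finset E) (e : E) :
    DepOn (AA s t f L X e) X := by
  intro x x' h
  unfold AA
  have : (∃ y, leafL s t L e = some y ∧ Light s t f X x y e) ↔
      (∃ y, leafL s t L e = some y ∧ Light s t f X x' y e) := by
    constructor
    · rintro ⟨y, h1, h2⟩
      exact ⟨y, h1, (Light_depOn s t f X y e x x' h).1 h2⟩
    · rintro ⟨y, h1, h2⟩
      exact ⟨y, h1, (Light_depOn s t f X y e x x' h).2 h2⟩
  by_cases h1 : ∃ y, leafL s t L e = some y ∧ Light s t f X x y e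
  · rw [if_pos h1, if_pos (this.1 h1)]
  · rw [if_neg h1, if_neg (fun h2 => h1 (this.2 h2))]

lemma DepOn.update_true {φ : (E → Bool) → ℝ} {X : Finset E} {e : E}
    (h : DepOn φ (insert e X)) : DepOn (fun x => φ (Function.update x e true)) X := by
  intro x y hxy
  apply h
  intro e' he'
  by_cases h' : e' = e
  · subst h'; simp
  · rw [update_of_ne h', update_of_ne h']
    exact hxy e' ((mem_insert.1 he').resolve_left h')

lemma EX_comm (F : (V → Bool) → (E → Bool) → ℝ) :
    EX (fun L => EX (fun x => F L x)) = EX (fun x => EX (fun L => F L x)) := by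
  unfold EX
  rw [← sum_div, ← sum_div, div_div, div_div, sum_comm, mul_comm]

lemma avg_AA {s t : E → V} (hne : ∀ e, s e ≠ t e) (f : (E → Bool) → ℝ) (X : Finset E) (e : E)
    (x : E → Bool) :
    (1 - lost s t f X e x) / 4 ≤ EX (fun L : V → Bool => AA s t f L X e x) := by
  classical
  set cs : ℝ := if Light s t f X x (s e) e then 1 else 0 with hcs
  set ct : ℝ := if Light s t f X x (t e) e then 1 else 0 with hct
  have hpt : ∀ L : V → Bool, AA s t f L X e x =
      cs / 4 * (1 + eps L (s e) - eps L (t e) - eps L (s e) * eps L (t e)) +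
      ct / 4 * (1 + eps L (t e) - eps L (s e) - eps L (s e) * eps L (t e)) := by
    intro L
    unfold AA
    rcases h1 : L (s e) with _ | _ <;> rcases h2 : L (t e) with _ | _
    · have : leafL s t L e = none := by unfold leafL; simp [h1, h2]
      rw [this]
      simp [eps, h1, h2]
    · have : leafL s t L e = some (t e) := by unfold leafL; simp [h1, h2]
      rw [this]
      have hex : (∃ y, some (t e) = some y ∧ Light s t f X x y e) ↔ Light s t f X x (t e) e := by
        constructor
        · rintro ⟨y, hy, h⟩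
          rw [Option.some.injEq] at hy
          rw [hy]; exact h
        · intro h; exact ⟨_, rfl, h⟩
      simp only [hex, eps, h1, h2, hct]
      split_ifs <;> norm_num at *
    · have : leafL s t L e = some (s e) := by unfold leafL; simp [h1, h2]
      rw [this]
      have hex : (∃ y, some (s e) = some y ∧ Light s t f X x y e) ↔ Light s t f X x (s e) e := by
        constructor
        · rintro ⟨y, hy, h⟩
          rw [Option.some.injEq] at hy
          rw [hy]; exact h
        · intro h; exact ⟨_, rfl, h⟩
      simp only [hex, eps, h1, h2, hcs]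
      split_ifs <;> norm_num at *
    · have : leafL s t L e = none := by unfold leafL; simp [h1, h2]
      rw [this]
      simp [eps, h1, h2]
  have z1 : ∀ v : V, EX (fun L : V → Bool => eps L v) = 0 := by
    intro v
    have := EX_mul_eps (E := V) (φ := fun _ => 1) (X := ∅) (DepOn.const 1 _) (e := v) (by simp)
    simpa using this
  have z2 : EX (fun L : V → Bool => eps L (s e) * eps L (t e)) = 0 := by
    apply EX_mul_eps (X := {s e}) (DepOn.eps (by simp))
    simpa using (hne e).symm
  have hval : EX (fun L : V → Bool => AA s t f L X e x) = cs / 4 + ct / 4 := by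
    rw [EX_congr hpt, EX_add, EX_mul_left, EX_mul_left, EX_sub, EX_sub, EX_add, EX_sub, EX_sub,
      EX_add, EX_const, z1, z1, z2]
    ring
  rw [hval]
  unfold lost
  rw [hcs, hct]
  split_ifs <;> norm_num
  all_goals tauto

section order

variable (s t : E → V) (f : (E → Bool) → ℝ) (L : V → Bool) (σ : Fin (Fintype.card E) ≃ E)

open Classical in
/-- the late indicator -/
noncomputable def late (E : Type*) [Fintype E] (k : Fin (Fintype.card E)) : ℝ :=
  if Fintype.card E ≤ 2 * ((k : ℕ) + 1) then 1 else 0

lemma late_nonneg (k : Fin (Fintype.card E)) : 0 ≤ late E k := by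
  unfold late; split_ifs <;> norm_num

lemma late_le_one (k : Fin (Fintype.card E)) : late E k ≤ 1 := by
  unfold late; split_ifs <;> norm_num

/-- allowed indicator at step `k` -/
noncomputable def A (k : Fin (Fintype.card E)) (x : E → Bool) : ℝ :=
  late E k * AA s t f L (pre σ ((k : ℕ) + 1)) (σ k) (update x (σ k) true)

lemma A_nonneg (k : Fin (Fintype.card E)) (x : E → Bool) : 0 ≤ A s t f L σ k x :=
  mul_nonneg (late_nonneg k) (AA_nonneg _ _ _ _ _ _ _)

lemma A_le_one (k : Fin (Fintype.card E)) (x : E → Bool) : A s t f L σ k x ≤ 1 := by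
  unfold A
  calc late E k * AA s t f L (pre σ ((k : ℕ) + 1)) (σ k) (update x (σ k) true) ≤ 1 * 1 :=
        mul_le_mul (late_le_one k) (AA_le_one _ _ _ _ _ _ _) (AA_nonneg _ _ _ _ _ _ _) zero_le_one
    _ = 1 := one_mul 1

lemma A_depOn (k : Fin (Fintype.card E)) : DepOn (A s t f L σ k) (pre σ k) := by
  apply (DepOn.const _ _).mul
  apply DepOn.update_true
  rw [← pre_succ]
  exact AA_depOn s t f L _ _

lemma A_leaf {k : Fin (Fintype.card E)} {x : E → Bool} (h : A s t f L σ k x ≠ 0) :
    leafL s t L (σ k) ≠ none := by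
  intro h0
  apply h
  unfold A AA
  rw [h0]
  simp

/-- squared influence times allowed -/
noncomputable def g (k : Fin (Fintype.card E)) (x : E → Bool) : ℝ :=
  d σ f k x ^ 2 * A s t f L σ k x

/-- influence times allowed -/
noncomputable def a (k : Fin (Fintype.card E)) (x : E → Bool) : ℝ :=
  d σ f k x * A s t f L σ k x

lemma g_depOn (k : Fin (Fintype.card E)) : DepOn (g s t f L σ k) (pre σ k) :=
  ((d_depOn σ f k).pow 2).mul (A_depOn s t f L σ k)

lemma a_depOn (k : Fin (Fintype.card E)) : DepOn (a s t f L σ k) (pre σ k) :=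
  (d_depOn σ f k).mul (A_depOn s t f L σ k)

lemma g_nonneg (k : Fin (Fintype.card E)) (x : E → Bool) : 0 ≤ g s t f L σ k x :=
  mul_nonneg (sq_nonneg _) (A_nonneg _ _ _ _ _ _ _)

lemma g_le (k : Fin (Fintype.card E)) (x : E → Bool) : g s t f L σ k x ≤ d σ f k x ^ 2 := by
  unfold g
  have := A_le_one s t f L σ k x
  nlinarith [sq_nonneg (d σ f k x)]

lemma d_nonneg {f : (E → Bool) → ℝ} (hmono : Monotone f) (k : Fin (Fintype.card E))
    (x : E → Bool) : 0 ≤ d σ f k x := D_nonneg hmono _ _ _

lemma a_nonneg {f : (E → Bool) → ℝ} (hmono : Monotone f) (k : Fin (Fintype.card E))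
    (x : E → Bool) : 0 ≤ a s t f L σ k x :=
  mul_nonneg (d_nonneg σ hmono k x) (A_nonneg _ _ _ _ _ _ _)

lemma a_sq_le (k : Fin (Fintype.card E)) (x : E → Bool) :
    a s t f L σ k x ^ 2 ≤ d σ f k x ^ 2 := by
  unfold a
  rw [mul_pow]
  have h1 := A_le_one s t f L σ k x
  have h0 := A_nonneg s t f L σ k x
  have h2 : A s t f L σ k x ^ 2 ≤ 1 := by nlinarith
  nlinarith [sq_nonneg (d σ f k x)]

variable {f}

/-- Part 2 of the usage estimate: the signed part. -/
lemma usage_signed (h0 : ∀ x, 0 ≤ f x) (h1 : ∀ x, f x ≤ 1) (hmono : Monotone f) :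
    - EX (fun x => ∑ k, g s t f L σ k x * ∑ j ∈ univ.filter (fun j => j < k ∧
        leafL s t L (σ j) = leafL s t L (σ k)), a s t f L σ j x * eps x (σ j))
      ≤ 5 * EX (fun x => ∑ k, d σ f k x ^ 2) := by
  classical
  -- extend the sum over all `j`
  have e1 : EX (fun x => ∑ k, g s t f L σ k x * ∑ j ∈ univ.filter (fun j => j < k ∧
        leafL s t L (σ j) = leafL s t L (σ k)), a s t f L σ j x * eps x (σ j))
      = EX (fun x => ∑ k, g s t f L σ k x * ∑ j ∈ univ.filter (fun j =>
        leafL s t L (σ j) = leafL s t L (σ k)), a s t f L σ j x * eps x (σ j)) := by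
    rw [EX_sum, EX_sum]
    apply sum_congr rfl
    intro k _
    simp only [mul_sum]
    rw [EX_sum, EX_sum]
    have hsplit : univ.filter (fun j => leafL s t L (σ j) = leafL s t L (σ k))
        = univ.filter (fun j => j < k ∧ leafL s t L (σ j) = leafL s t L (σ k)) ∪
          univ.filter (fun j => k ≤ j ∧ leafL s t L (σ j) = leafL s t L (σ k)) := by
      ext j
      simp only [mem_filter, mem_univ, true_and, mem_union]
      constructor
      · intro h
        rcases lt_or_ge j k with h' | h'
        · exact Or.inl ⟨h', h⟩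
        · exact Or.inr ⟨h', h⟩
      · rintro (h | h) <;> exact h.2
    rw [hsplit, sum_union]
    · symm
      rw [add_eq_left]
      apply sum_eq_zero
      intro j hj
      rw [mem_filter] at hj
      have hkj : pre σ k ⊆ pre σ j := pre_mono σ (by exact_mod_cast hj.2.1)
      have := EX_mul_eps (((g_depOn s t f L σ k).mono hkj).mul (a_depOn s t f L σ j))
        (notMem_pre_self σ j)
      rw [← this]
      apply EX_congr
      intro x
      ring
    · rw [disjoint_left]
      intro j hj hj'
      rw [mem_filter] at hj hj'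
      exact absurd hj.2.1 (not_lt.2 hj'.2.1)
  rw [e1]
  -- group by the leaf
  have e2 : ∀ x, ∑ k, g s t f L σ k x * ∑ j ∈ univ.filter (fun j =>
        leafL s t L (σ j) = leafL s t L (σ k)), a s t f L σ j x * eps x (σ j)
      = ∑ o : Option V, (∑ k ∈ univ.filter (fun k => leafL s t L (σ k) = o), g s t f L σ k x) *
        (∑ j ∈ univ.filter (fun j => leafL s t L (σ j) = o), eps x (σ j) * a s t f L σ j x) := by
    intro x
    have : ∀ o : Option V, (∑ k ∈ univ.filter (fun k => leafL s t L (σ k) = o),
        g s t f L σ k x) * (∑ j ∈ univ.filter (fun j => leafL s t L (σ j) = o),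
          eps x (σ j) * a s t f L σ j x)
        = ∑ k, if leafL s t L (σ k) = o then g s t f L σ k x *
          (∑ j ∈ univ.filter (fun j => leafL s t L (σ j) = leafL s t L (σ k)),
            a s t f L σ j x * eps x (σ j)) else 0 := by
      intro o
      rw [sum_mul, sum_filter]
      apply sum_congr rfl
      intro k _
      split_ifs with h
      · rw [h]
        congr 1
        apply sum_congr rfl
        intro j _
        ring
      · rfl
    rw [sum_congr rfl fun o _ => this o, sum_comm]
    apply sum_congr rfl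
    intro k _
    rw [sum_ite_eq]
    simp
  rw [EX_congr e2, EX_sum, ← sum_neg_distrib]
  set G : Option V → (E → Bool) → ℝ := fun o x =>
    ∑ k ∈ univ.filter (fun k => leafL s t L (σ k) = o), g s t f L σ k x with hG
  set M : Option V → (E → Bool) → ℝ := fun o x =>
    ∑ j ∈ univ.filter (fun j => leafL s t L (σ j) = o), eps x (σ j) * a s t f L σ j x with hM
  have hstep : ∀ o, - EX (fun x => G o x * M o x) ≤
      (1 / 2 : ℝ) * EX (fun x => G o x ^ 2) + (1 / 2 : ℝ) * EX (fun x => M o x ^ 2) := by
    intro o
    rw [← EX_mul_left, ← EX_mul_left, ← EX_add, ← EX_neg]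
    apply EX_mono
    intro x
    nlinarith [sq_nonneg (G o x + M o x)]
  have hV := V_sq_bound (σ := σ) h0 h1 hmono
  have hGsum : ∑ o, EX (fun x => G o x ^ 2) ≤ EX (fun x => (∑ k, d σ f k x ^ 2) ^ 2) := by
    rw [← EX_sum]
    apply EX_mono
    intro x
    have hGn : ∀ o, 0 ≤ G o x := fun o => sum_nonneg fun k _ => g_nonneg _ _ _ _ _ _ _
    calc ∑ o, G o x ^ 2 ≤ (∑ o, G o x) ^ 2 := by
          exact sum_sq_le_sq_sum_of_nonneg (fun o _ => hGn o)
      _ ≤ (∑ k, d σ f k x ^ 2) ^ 2 := by
          apply pow_le_pow_left₀ (sum_nonneg fun o _ => hGn o)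
          have : ∑ o, G o x = ∑ k, g s t f L σ k x := by
            simp only [hG]
            exact sum_fiberwise (univ : Finset (Fin (Fintype.card E)))
              (fun k => leafL s t L (σ k)) (fun k => g s t f L σ k x)
          rw [this]
          exact sum_le_sum fun k _ => g_le _ _ _ _ _ _ _
  have hMsum : ∑ o, EX (fun x => M o x ^ 2) ≤ EX (fun x => ∑ k, d σ f k x ^ 2) := by
    have : ∀ o, EX (fun x => M o x ^ 2) = EX (fun x =>
        ∑ j ∈ univ.filter (fun j => leafL s t L (σ j) = o), a s t f L σ j x ^ 2) := fun o =>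
      orth' (fun k => a_depOn s t f L σ k) _
    rw [sum_congr rfl fun o _ => this o, ← EX_sum]
    apply EX_mono
    intro x
    have h2 : ∑ o, ∑ j ∈ univ.filter (fun j => leafL s t L (σ j) = o), a s t f L σ j x ^ 2
        = ∑ j, a s t f L σ j x ^ 2 :=
      sum_fiberwise (univ : Finset (Fin (Fintype.card E)))
              (fun k => leafL s t L (σ k)) (fun k => a s t f L σ k x ^ 2)
    rw [h2]
    exact sum_le_sum fun k _ => a_sq_le _ _ _ _ _ _ _
  calc ∑ o, - EX (fun x => G o x * M o x)
      ≤ ∑ o, ((1 / 2 : ℝ) * EX (fun x => G o x ^ 2) + (1 / 2 : ℝ) * EX (fun x => M o x ^ 2)) :=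
        sum_le_sum fun o _ => hstep o
    _ = (1 / 2 : ℝ) * ∑ o, EX (fun x => G o x ^ 2) + (1 / 2 : ℝ) * ∑ o, EX (fun x => M o x ^ 2) := by
        rw [sum_add_distrib, mul_sum, mul_sum]
    _ ≤ 5 * EX (fun x => ∑ k, d σ f k x ^ 2) := by
        linarith

end order

end Pool.Agent.Helper47.HInt
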