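import Pool.Agent.Helper47.HInt5

open Finset Function

set_option linter.unusedSectionVars false

namespace Pool.Agent.Helper47.HInt

variable {E : Type*} [Fintype E] [DecidableEq E]
variable {V : Type*} [Fintype V] [DecidableEq V]

open Classical in
/-- light influence towards the leaf `o` -/
noncomputable def Phi (s t : E → V) (f : (E → Bool) → ℝ) (X : Finset E) (e : E) (o : Option V)
    (x : E → Bool) : ℝ :=
  if ∃ y, o = some y ∧ inc s t y e ∧ Light s t f X x y e then D f X e x else 0

lemma Phi_nonneg {s t : E → V} {f : (E → Bool) → ℝ} (hmono : Monotone f) (X : Finset E) (e : E)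
    (o : Option V) (x : E → Bool) : 0 ≤ Phi s t f X e o x := by
  unfold Phi
  split_ifs
  · exact D_nonneg hmono _ _ _
  · exact le_rfl

lemma sum_Phi_le {s t : E → V} {f : (E → Bool) → ℝ} (hmono : Monotone f) (X : Finset E)
    (o : Option V) (x : E → Bool) : ∑ e ∈ X, Phi s t f X e o x ≤ Kb f X x := by
  classical
  cases o with
  | none =>
    rw [sum_eq_zero]
    · exact Kb_nonneg f X x
    · intro e _
      unfold Phi
      simp
  | some y =>
    refine le_trans (le_of_eq ?_) (usage_state (s := s) (t := t) hmono X x y)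
    rw [sum_filter]
    apply sum_congr rfl
    intro e _
    unfold Phi
    have : (∃ y', some y = some y' ∧ inc s t y' e ∧ Light s t f X x y' e) ↔
        (inc s t y e ∧ Light s t f X x y e) := by
      constructor
      · rintro ⟨y', h, h'⟩
        rw [Option.some.injEq] at h
        rw [h]; exact h'
      · intro h; exact ⟨y, rfl, h⟩
    by_cases h : inc s t y e ∧ Light s t f X x y e
    · rw [if_pos h, if_pos (this.2 h)]
    · rw [if_neg h, if_neg (fun h' => h (this.1 h'))]

section order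

variable {s t : E → V} {f : (E → Bool) → ℝ} (L : V → Bool)

/-- summed second moment of the `k`-th influence -/
noncomputable def S (f : (E → Bool) → ℝ) (k : Fin (Fintype.card E)) : ℝ :=
  ∑ σ : Fin (Fintype.card E) ≃ E, EX (fun x => d σ f k x ^ 2)

lemma S_nonneg (k : Fin (Fintype.card E)) : 0 ≤ S f k :=
  sum_nonneg fun _ _ => EX_nonneg fun _ => sq_nonneg _

lemma d_eq (σ : Fin (Fintype.card E) ≃ E) (k : Fin (Fintype.card E)) (x : E → Bool) :
    D f (pre σ ((k : ℕ) + 1)) (σ k) x = d σ f k x := by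
  rw [pre_succ, D_insert_self]
  rfl

/-- total energy -/
lemma sum_Q (k : Fin (Fintype.card E)) :
    ∑ σ : Fin (Fintype.card E) ≃ E, EX (Q f (pre σ ((k : ℕ) + 1))) = ((k : ℕ) + 1 : ℝ) * S f k := by
  have h := exch (E := E) k (fun σ e => EX (fun x => D f (pre σ ((k : ℕ) + 1)) e x ^ 2)) (by
    intro σ i hi
    have hik : (i : ℕ) ≤ k := hi
    rw [pre_sw σ (by omega : (i : ℕ) < (k : ℕ) + 1 ↔ (k : ℕ) < (k : ℕ) + 1)])
  unfold S
  have e1 : ∑ σ : Fin (Fintype.card E) ≃ E, EX (fun x => d σ f k x ^ 2) =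
      ∑ σ : Fin (Fintype.card E) ≃ E, EX (fun x => D f (pre σ ((k : ℕ) + 1)) (σ k) x ^ 2) := by
    apply sum_congr rfl
    intro σ _
    apply EX_congr
    intro x
    rw [d_eq]
  rw [e1, h]
  apply sum_congr rfl
  intro σ _
  rw [← EX_sum]
  rfl

lemma A_sw (σ : Fin (Fintype.card E) ≃ E) {i j k : Fin (Fintype.card E)} (hi : i < k)
    (hj : j < k) (x : E → Bool) : g s t f L (sw i j σ) k x = g s t f L σ k x := by
  have hi' : (i : ℕ) < k := hi
  have hj' : (j : ℕ) < k := hj
  have h1 : sw i j σ k = σ k := sw_of_ne σ hi.ne' hj.ne'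
  have h2 : pre (sw i j σ) k = pre σ k :=
    pre_sw σ (by omega)
  have h3 : pre (sw i j σ) ((k : ℕ) + 1) = pre σ ((k : ℕ) + 1) :=
    pre_sw σ (by omega)
  unfold g A d
  rw [h1, h2, h3]

/-- one term of the positive part -/
lemma usage_term (hmono : Monotone f) {j k : Fin (Fintype.card E)} (hjk : j < k) :
    ∑ σ : Fin (Fintype.card E) ≃ E, EX (fun x => g s t f L σ k x *
      (if leafL s t L (σ j) = leafL s t L (σ k) then a s t f L σ j x * (1 + eps x (σ j)) else 0))
      ≤ 4 / Fintype.card E * ∑ σ : Fin (Fintype.card E) ≃ E,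
        EX (fun x => g s t f L σ k x * Kb f (pre σ ((j : ℕ) + 1)) x) := by
  classical
  have hNpos : (0 : ℝ) < Fintype.card E := by
    have := k.2
    exact_mod_cast (by omega : 0 < Fintype.card E)
  -- pointwise bound
  have hpt : ∀ (σ : Fin (Fintype.card E) ≃ E) x,
      (if leafL s t L (σ j) = leafL s t L (σ k) then a s t f L σ j x * (1 + eps x (σ j)) else 0)
      ≤ 2 * (late E j * Phi s t f (pre σ ((j : ℕ) + 1)) (σ j) (leafL s t L (σ k)) x) := by
    intro σ x
    have hPhi := Phi_nonneg (s := s) (t := t) hmono (pre σ ((j : ℕ) + 1)) (σ j)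
      (leafL s t L (σ k)) x
    have hlate := late_nonneg j
    split_ifs with h
    · by_cases hx : x (σ j) = true
      · have hup : update x (σ j) true = x := by
          rw [← hx]; exact update_eq_self _ _
        have he : eps x (σ j) = 1 := by unfold eps; rw [if_pos hx]
        unfold a A
        rw [he, hup]
        have hle : d σ f j x * AA s t f L (pre σ ((j : ℕ) + 1)) (σ j) x ≤
            Phi s t f (pre σ ((j : ℕ) + 1)) (σ j) (leafL s t L (σ k)) x := by
          unfold AA
          split_ifs with hA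
          · obtain ⟨y, hy, hL⟩ := hA
            unfold Phi
            rw [if_pos ⟨y, by rw [← h, hy], leafL_inc hy, hL⟩, d_eq, mul_one]
          · rw [mul_zero]; exact hPhi
        nlinarith
      · have he : eps x (σ j) = -1 := by unfold eps; rw [if_neg hx]
        rw [he]
        have : 0 ≤ 2 * (late E j * Phi s t f (pre σ ((j : ℕ) + 1)) (σ j)
          (leafL s t L (σ k)) x) := by positivity
        linarith
    · positivity
  have h1 : ∑ σ : Fin (Fintype.card E) ≃ E, EX (fun x => g s t f L σ k x *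
      (if leafL s t L (σ j) = leafL s t L (σ k) then a s t f L σ j x * (1 + eps x (σ j)) else 0))
      ≤ (2 * late E j) * ∑ σ : Fin (Fintype.card E) ≃ E, EX (fun x => g s t f L σ k x *
        Phi s t f (pre σ ((j : ℕ) + 1)) (σ j) (leafL s t L (σ k)) x) := by
    rw [mul_sum]
    apply sum_le_sum
    intro σ _
    rw [← EX_mul_left]
    apply EX_mono
    intro x
    calc g s t f L σ k x * _ ≤ g s t f L σ k x *
          (2 * (late E j * Phi s t f (pre σ ((j : ℕ) + 1)) (σ j) (leafL s t L (σ k)) x)) :=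
          mul_le_mul_of_nonneg_left (hpt σ x) (g_nonneg _ _ _ _ _ _ _)
      _ = _ := by ring
  have h2 := exch (E := E) j (fun σ e => EX (fun x => g s t f L σ k x *
        Phi s t f (pre σ ((j : ℕ) + 1)) e (leafL s t L (σ k)) x)) (by
    intro σ i hi
    ext e
    have hik : i < k := lt_of_le_of_lt hi hjk
    have hij : (i : ℕ) ≤ j := hi
    have e1 : sw i j σ k = σ k := sw_of_ne σ hik.ne' hjk.ne'
    have e2 : pre (sw i j σ) ((j : ℕ) + 1) = pre σ ((j : ℕ) + 1) := pre_sw σ (by omega)
    apply EX_congr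
    intro x
    rw [A_sw L σ hik hjk x, e1, e2])
  have h3 : ∑ σ : Fin (Fintype.card E) ≃ E, ∑ e ∈ pre σ ((j : ℕ) + 1),
      EX (fun x => g s t f L σ k x * Phi s t f (pre σ ((j : ℕ) + 1)) e (leafL s t L (σ k)) x)
      ≤ ∑ σ : Fin (Fintype.card E) ≃ E,
        EX (fun x => g s t f L σ k x * Kb f (pre σ ((j : ℕ) + 1)) x) := by
    apply sum_le_sum
    intro σ _
    rw [← EX_sum]
    apply EX_mono
    intro x
    rw [← mul_sum]
    exact mul_le_mul_of_nonneg_left (sum_Phi_le hmono _ _ _) (g_nonneg _ _ _ _ _ _ _)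
  rw [← h2] at h3
  set P := ∑ σ : Fin (Fintype.card E) ≃ E, EX (fun x => g s t f L σ k x *
        Phi s t f (pre σ ((j : ℕ) + 1)) (σ j) (leafL s t L (σ k)) x) with hP
  set R := ∑ σ : Fin (Fintype.card E) ≃ E,
        EX (fun x => g s t f L σ k x * Kb f (pre σ ((j : ℕ) + 1)) x) with hR
  have hP0 : 0 ≤ P := sum_nonneg fun σ _ => EX_nonneg fun x =>
    mul_nonneg (g_nonneg _ _ _ _ _ _ _) (Phi_nonneg hmono _ _ _ _)
  have hR0 : 0 ≤ R := sum_nonneg fun σ _ => EX_nonneg fun x =>
    mul_nonneg (g_nonneg _ _ _ _ _ _ _) (Kb_nonneg _ _ _)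
  refine h1.trans ?_
  unfold late
  split_ifs with hl
  · have hl' : (Fintype.card E : ℝ) ≤ 2 * ((j : ℕ) + 1) := by exact_mod_cast hl
    rw [div_mul_eq_mul_div, le_div_iff₀ hNpos]
    calc 2 * 1 * P * (Fintype.card E : ℝ) ≤ 2 * 1 * P * (2 * ((j : ℕ) + 1)) := by gcongr
      _ = 4 * ((((j : ℕ) : ℝ) + 1) * P) := by ring
      _ ≤ 4 * R := by linarith
  · simp only [mul_zero, zero_mul]
    positivity

/-- positive part of the usage estimate -/
lemma usage_pos (h0 : ∀ x, 0 ≤ f x) (h1 : ∀ x, f x ≤ 1) (hmono : Monotone f) :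
    ∑ σ : Fin (Fintype.card E) ≃ E, EX (fun x => ∑ k, g s t f L σ k x *
      ∑ j ∈ univ.filter (fun j => j < k ∧ leafL s t L (σ j) = leafL s t L (σ k)),
        a s t f L σ j x * (1 + eps x (σ j))) ≤ 160 * ∑ k, S f k := by
  classical
  rcases Nat.eq_zero_or_pos (Fintype.card E) with hN | hN
  · have hempty : IsEmpty (Fin (Fintype.card E)) := by rw [hN]; infer_instance
    simp only [univ_eq_empty, sum_empty]
    rw [sum_congr rfl fun σ _ => EX_const (E := E) 0]
    simp
  have hNpos : (0 : ℝ) < Fintype.card E := by exact_mod_cast hN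
  have e1 : ∑ σ : Fin (Fintype.card E) ≃ E, EX (fun x => ∑ k, g s t f L σ k x *
      ∑ j ∈ univ.filter (fun j => j < k ∧ leafL s t L (σ j) = leafL s t L (σ k)),
        a s t f L σ j x * (1 + eps x (σ j)))
      = ∑ k, ∑ j ∈ univ.filter (fun j => j < k), ∑ σ : Fin (Fintype.card E) ≃ E,
        EX (fun x => g s t f L σ k x *
      (if leafL s t L (σ j) = leafL s t L (σ k) then
        a s t f L σ j x * (1 + eps x (σ j)) else 0)) := by
    rw [sum_congr rfl fun σ _ => EX_sum _ _]
    rw [sum_comm]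
    apply sum_congr rfl
    intro k _
    rw [sum_comm]
    apply sum_congr rfl
    intro σ _
    rw [← EX_sum]
    apply EX_congr
    intro x
    rw [mul_sum, ← filter_filter, sum_filter (fun j => leafL s t L (σ j) = leafL s t L (σ k))]
    apply sum_congr rfl
    intro j _
    split_ifs <;> simp
  rw [e1]
  have e2 : ∑ k, ∑ j ∈ univ.filter (fun j => j < k), ∑ σ : Fin (Fintype.card E) ≃ E,
        EX (fun x => g s t f L σ k x *
      (if leafL s t L (σ j) = leafL s t L (σ k) then
        a s t f L σ j x * (1 + eps x (σ j)) else 0))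
      ≤ ∑ k : Fin (Fintype.card E), ∑ j : Fin (Fintype.card E), 4 / (Fintype.card E : ℝ) * ∑ σ : Fin (Fintype.card E) ≃ E,
        EX (fun x => g s t f L σ k x * Kb f (pre σ ((j : ℕ) + 1)) x) := by
    apply sum_le_sum
    intro k _
    calc _ ≤ ∑ j ∈ univ.filter (fun j => j < k),
          4 / Fintype.card E * ∑ σ : Fin (Fintype.card E) ≃ E,
            EX (fun x => g s t f L σ k x * Kb f (pre σ ((j : ℕ) + 1)) x) := by
          apply sum_le_sum
          intro j hj
          rw [mem_filter] at hj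
          exact usage_term L hmono hj.2
      _ ≤ _ := by
          apply sum_le_sum_of_subset_of_nonneg (subset_univ _)
          intro j _ _
          apply mul_nonneg (by positivity)
          exact sum_nonneg fun σ _ => EX_nonneg fun x =>
            mul_nonneg (g_nonneg _ _ _ _ _ _ _) (Kb_nonneg _ _ _)
  refine e2.trans ?_
  -- reorganise
  have e3 : ∑ k : Fin (Fintype.card E), ∑ j : Fin (Fintype.card E), 4 / (Fintype.card E : ℝ) * ∑ σ : Fin (Fintype.card E) ≃ E,
        EX (fun x => g s t f L σ k x * Kb f (pre σ ((j : ℕ) + 1)) x)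
      = ∑ j : Fin (Fintype.card E), 4 / (Fintype.card E : ℝ) * ∑ σ : Fin (Fintype.card E) ≃ E,
        EX (fun x => (∑ k, g s t f L σ k x) * Kb f (pre σ ((j : ℕ) + 1)) x) := by
    rw [sum_comm]
    apply sum_congr rfl
    intro j _
    rw [← mul_sum, sum_comm]
    congr 1
    apply sum_congr rfl
    intro σ _
    rw [← EX_sum]
    apply EX_congr
    intro x
    rw [sum_mul]
  rw [e3]
  have e4 : ∀ j : Fin (Fintype.card E), ∀ σ : Fin (Fintype.card E) ≃ E,
      EX (fun x => (∑ k, g s t f L σ k x) * Kb f (pre σ ((j : ℕ) + 1)) x)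
      ≤ 4 * EX (fun x => (∑ k, d σ f k x ^ 2) ^ 2) + 4 * EX (Q f (pre σ ((j : ℕ) + 1))) := by
    intro j σ
    rw [← EX_mul_left, ← EX_mul_left, ← EX_add]
    apply EX_mono
    intro x
    have hQ := Q_nonneg f (pre σ ((j : ℕ) + 1)) x
    have hg : ∑ k, g s t f L σ k x ≤ ∑ k, d σ f k x ^ 2 :=
      sum_le_sum fun k _ => g_le _ _ _ _ _ _ _
    have hK := Kb_nonneg f (pre σ ((j : ℕ) + 1)) x
    have hKs := Kb_sq f (pre σ ((j : ℕ) + 1)) x
    calc (∑ k, g s t f L σ k x) * Kb f (pre σ ((j : ℕ) + 1)) x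
        ≤ (∑ k, d σ f k x ^ 2) * Kb f (pre σ ((j : ℕ) + 1)) x :=
          mul_le_mul_of_nonneg_right hg hK
      _ ≤ 4 * (∑ k, d σ f k x ^ 2) ^ 2 + 4 * Q f (pre σ ((j : ℕ) + 1)) x := by
          nlinarith [sq_nonneg (8 * (∑ k, d σ f k x ^ 2) - Kb f (pre σ ((j : ℕ) + 1)) x)]
  have e5 : ∀ j : Fin (Fintype.card E), ∑ σ : Fin (Fintype.card E) ≃ E,
      EX (fun x => (∑ k, g s t f L σ k x) * Kb f (pre σ ((j : ℕ) + 1)) x)
      ≤ 36 * ∑ k, S f k + 4 * (((j : ℕ) + 1 : ℝ) * S f j) := by
    intro j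
    calc _ ≤ ∑ σ : Fin (Fintype.card E) ≃ E, (4 * EX (fun x => (∑ k, d σ f k x ^ 2) ^ 2) +
          4 * EX (Q f (pre σ ((j : ℕ) + 1)))) := sum_le_sum fun σ _ => e4 j σ
      _ ≤ ∑ σ : Fin (Fintype.card E) ≃ E, (36 * EX (fun x => ∑ k, d σ f k x ^ 2) +
          4 * EX (Q f (pre σ ((j : ℕ) + 1)))) := by
          apply sum_le_sum
          intro σ _
          have := V_sq_bound (σ := σ) h0 h1 hmono
          linarith
      _ = 36 * ∑ k, S f k + 4 * (((j : ℕ) + 1 : ℝ) * S f j) := by
          rw [sum_add_distrib, ← mul_sum, ← mul_sum, sum_Q]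
          congr 2
          unfold S
          rw [sum_comm]
          exact sum_congr rfl fun σ _ => EX_sum _ _
  have e6 : ∀ j : Fin (Fintype.card E), 36 * ∑ k, S f k + 4 * (((j : ℕ) + 1 : ℝ) * S f j)
      ≤ 36 * ∑ k, S f k + 4 * ((Fintype.card E : ℝ) * S f j) := by
    intro j
    have : ((j : ℕ) + 1 : ℝ) ≤ Fintype.card E := by
      have := j.2
      exact_mod_cast (by omega : (j : ℕ) + 1 ≤ Fintype.card E)
    have := mul_le_mul_of_nonneg_right this (S_nonneg (f := f) j)
    linarith
  calc ∑ j : Fin (Fintype.card E), 4 / (Fintype.card E : ℝ) * ∑ σ : Fin (Fintype.card E) ≃ E,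
        EX (fun x => (∑ k, g s t f L σ k x) * Kb f (pre σ ((j : ℕ) + 1)) x)
      ≤ ∑ j : Fin (Fintype.card E), 4 / (Fintype.card E : ℝ) *
        (36 * ∑ k, S f k + 4 * ((Fintype.card E : ℝ) * S f j)) := by
        apply sum_le_sum
        intro j _
        apply mul_le_mul_of_nonneg_left _ (by positivity)
        exact (e5 j).trans (e6 j)
    _ = 160 * ∑ k, S f k := by
        rw [← mul_sum, sum_add_distrib, sum_const, card_univ, Fintype.card_fin, nsmul_eq_mul,
          ← mul_sum, ← mul_sum]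
        field_simp
        ring

/-- usage estimate -/
lemma usage (h0 : ∀ x, 0 ≤ f x) (h1 : ∀ x, f x ≤ 1) (hmono : Monotone f) :
    ∑ σ : Fin (Fintype.card E) ≃ E, EX (fun x => ∑ k, g s t f L σ k x *
      ∑ j ∈ univ.filter (fun j => j < k ∧ leafL s t L (σ j) = leafL s t L (σ k)),
        a s t f L σ j x) ≤ 165 * ∑ k, S f k := by
  have hp := usage_pos (s := s) (t := t) L h0 h1 hmono
  have hs : ∑ σ : Fin (Fintype.card E) ≃ E,
      - EX (fun x => ∑ k, g s t f L σ k x * ∑ j ∈ univ.filter (fun j => j < k ∧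
        leafL s t L (σ j) = leafL s t L (σ k)), a s t f L σ j x * eps x (σ j))
      ≤ 5 * ∑ k, S f k := by
    calc _ ≤ ∑ σ : Fin (Fintype.card E) ≃ E, 5 * EX (fun x => ∑ k, d σ f k x ^ 2) :=
          sum_le_sum fun σ _ => usage_signed s t L σ h0 h1 hmono
      _ = 5 * ∑ k, S f k := by
          rw [← mul_sum]
          congr 1
          unfold S
          rw [sum_comm]
          exact sum_congr rfl fun σ _ => EX_sum _ _
  have e : ∑ σ : Fin (Fintype.card E) ≃ E, EX (fun x => ∑ k, g s t f L σ k x *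
      ∑ j ∈ univ.filter (fun j => j < k ∧ leafL s t L (σ j) = leafL s t L (σ k)),
        a s t f L σ j x)
      = ∑ σ : Fin (Fintype.card E) ≃ E, EX (fun x => ∑ k, g s t f L σ k x *
      ∑ j ∈ univ.filter (fun j => j < k ∧ leafL s t L (σ j) = leafL s t L (σ k)),
        a s t f L σ j x * (1 + eps x (σ j))) + ∑ σ : Fin (Fintype.card E) ≃ E,
      - EX (fun x => ∑ k, g s t f L σ k x * ∑ j ∈ univ.filter (fun j => j < k ∧
        leafL s t L (σ j) = leafL s t L (σ k)), a s t f L σ j x * eps x (σ j)) := by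
    rw [← sum_add_distrib]
    apply sum_congr rfl
    intro σ _
    rw [← sub_eq_add_neg, ← EX_sub]
    apply EX_congr
    intro x
    rw [← sum_sub_distrib]
    apply sum_congr rfl
    intro k _
    rw [← mul_sub, ← sum_sub_distrib]
    congr 1
    apply sum_congr rfl
    intro j _
    ring
  rw [e]
  linarith

/-- lost energy at step `k` -/
lemma lost_bound (hst : Injective (fun e => (s e, t e))) (hmono : Monotone f)
    (k : Fin (Fintype.card E)) :
    ∑ σ : Fin (Fintype.card E) ≃ E, EX (fun x => d σ f k x ^ 2 *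
      lost s t f (pre σ ((k : ℕ) + 1)) (σ k) (update x (σ k) true)) ≤ S f k / 8 := by
  classical
  have h1 : ∀ σ : Fin (Fintype.card E) ≃ E, EX (fun x => d σ f k x ^ 2 *
      lost s t f (pre σ ((k : ℕ) + 1)) (σ k) (update x (σ k) true))
      ≤ 2 * EX (fun x => D f (pre σ ((k : ℕ) + 1)) (σ k) x ^ 2 *
        lost s t f (pre σ ((k : ℕ) + 1)) (σ k) x) := by
    intro σ
    rw [← EX_one_add_eps ((d_depOn σ f k).pow 2) (notMem_pre_self σ k), ← EX_mul_left]
    apply EX_mono
    intro x
    rw [d_eq]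
    have h2 := lost_nonneg s t f (pre σ ((k : ℕ) + 1)) (σ k) x
    have h3 : 1 + eps x (σ k) ≤ 2 := by unfold eps; split_ifs <;> norm_num
    have h4 : 0 ≤ d σ f k x ^ 2 * lost s t f (pre σ ((k : ℕ) + 1)) (σ k) x :=
      mul_nonneg (sq_nonneg _) h2
    nlinarith
  have h2 := exch (E := E) k (fun σ e => EX (fun x => D f (pre σ ((k : ℕ) + 1)) e x ^ 2 *
        lost s t f (pre σ ((k : ℕ) + 1)) e x)) (by
    intro σ i hi
    have hik : (i : ℕ) ≤ k := hi
    rw [pre_sw σ (by omega : (i : ℕ) < (k : ℕ) + 1 ↔ (k : ℕ) < (k : ℕ) + 1)])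
  have h3 : ∑ σ : Fin (Fintype.card E) ≃ E, ∑ e ∈ pre σ ((k : ℕ) + 1),
      EX (fun x => D f (pre σ ((k : ℕ) + 1)) e x ^ 2 * lost s t f (pre σ ((k : ℕ) + 1)) e x)
      ≤ ((k : ℕ) + 1 : ℝ) * S f k / 16 := by
    rw [← sum_Q, sum_div]
    apply sum_le_sum
    intro σ _
    rw [← EX_sum, div_eq_inv_mul, ← EX_mul_left]
    apply EX_mono
    intro x
    have h4 := capture_state hst hmono (pre σ ((k : ℕ) + 1)) x
    rw [sum_filter] at h4
    have h5 : ∑ e ∈ pre σ ((k : ℕ) + 1), D f (pre σ ((k : ℕ) + 1)) e x ^ 2 *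
        lost s t f (pre σ ((k : ℕ) + 1)) e x
        = ∑ e ∈ pre σ ((k : ℕ) + 1), if ¬ Light s t f (pre σ ((k : ℕ) + 1)) x (s e) e ∧
          ¬ Light s t f (pre σ ((k : ℕ) + 1)) x (t e) e then
            D f (pre σ ((k : ℕ) + 1)) e x ^ 2 else 0 := by
      apply sum_congr rfl
      intro e _
      unfold lost
      split_ifs <;> simp
    rw [h5]
    linarith
  rw [← h2] at h3
  have hk : (0 : ℝ) < ((k : ℕ) : ℝ) + 1 := by positivity
  have h6 : ∑ σ : Fin (Fintype.card E) ≃ E, EX (fun x => D f (pre σ ((k : ℕ) + 1)) (σ k) x ^ 2 *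
        lost s t f (pre σ ((k : ℕ) + 1)) (σ k) x) ≤ S f k / 16 := by
    have h7 : (((k : ℕ) : ℝ) + 1) * ∑ σ : Fin (Fintype.card E) ≃ E,
      EX (fun x => D f (pre σ ((k : ℕ) + 1)) (σ k) x ^ 2 *
        lost s t f (pre σ ((k : ℕ) + 1)) (σ k) x) ≤ (((k : ℕ) : ℝ) + 1) * (S f k / 16) := by
      calc _ ≤ ((k : ℕ) + 1 : ℝ) * S f k / 16 := h3
        _ = _ := by ring
    exact le_of_mul_le_mul_left h7 hk
  calc _ ≤ ∑ σ : Fin (Fintype.card E) ≃ E,
        2 * EX (fun x => D f (pre σ ((k : ℕ) + 1)) (σ k) x ^ 2 *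
        lost s t f (pre σ ((k : ℕ) + 1)) (σ k) x) := sum_le_sum fun σ _ => h1 σ
    _ ≤ S f k / 8 := by
        rw [← mul_sum]
        linarith

/-- the second moments increase with time -/
lemma S_mono (k : ℕ) (hk : k + 1 < Fintype.card E) :
    S f ⟨k, by omega⟩ ≤ S f ⟨k + 1, hk⟩ := by
  unfold S
  set i : Fin (Fintype.card E) := ⟨k, by omega⟩ with hi
  set j : Fin (Fintype.card E) := ⟨k + 1, hk⟩ with hj
  rw [← Equiv.sum_comp (swE i j) (fun σ => EX (fun x => d σ f i x ^ 2))]
  apply sum_le_sum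
  intro σ _
  have h1 : swE i j σ = sw i j σ := rfl
  rw [h1]
  have h2 : (fun x => d (sw i j σ) f i x ^ 2) = fun x => D f (pre σ k) (σ j) x ^ 2 := by
    ext x
    unfold d
    have h3 : pre (sw i j σ) (i : ℕ) = pre σ k := by
      rw [pre_sw σ]
      simp [hi, hj]
    rw [h3, sw_apply, Equiv.swap_apply_left]
  rw [h2]
  have h4 := D_sq_mono f (pre σ k) (e := σ i) (notMem_pre_self σ i) (σ j)
  have h5 : pre σ (k + 1) = insert (σ i) (pre σ k) := pre_succ σ i
  rw [← h5] at h4
  exact h4

lemma S_monotone : ∀ i j : Fin (Fintype.card E), i ≤ j → S f i ≤ S f j := by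
  intro i j hij
  have key : ∀ m : ℕ, ∀ h : (i : ℕ) + m < Fintype.card E, S f i ≤ S f ⟨(i : ℕ) + m, h⟩ := by
    intro m
    induction m with
    | zero => intro h; exact le_rfl
    | succ m ih =>
      intro h
      exact (ih (by omega)).trans (S_mono ((i : ℕ) + m) h)
  have hij' : (i : ℕ) ≤ j := hij
  have := key ((j : ℕ) - i) (by have := j.2; omega)
  have h2 : (⟨(i : ℕ) + ((j : ℕ) - i), by have := j.2; omega⟩ : Fin (Fintype.card E)) = j := by
    apply Fin.ext
    simp only
    omega
  rw [h2] at this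
  exact this

/-- late steps carry at least half of the total -/
lemma late_sum : ∑ k, S f k ≤ 2 * ∑ k, late E k * S f k := by
  have h1 : ∑ k : Fin (Fintype.card E), (1 - late E k) * S f k ≤
      ∑ k : Fin (Fintype.card E), late E k * S f k := by
    rw [← Equiv.sum_comp Fin.revPerm (fun k => late E k * S f k)]
    apply sum_le_sum
    intro k _
    have hrev : ((Fin.revPerm k : Fin (Fintype.card E)) : ℕ) = Fintype.card E - (k + 1) := by
      simp [Fin.revPerm, Fin.val_rev]
    have hk := k.2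
    unfold late
    split_ifs with h2 h3 h3
    · have := S_nonneg (f := f) (Fin.revPerm k)
      linarith
    · simp
    · rw [sub_zero, one_mul, one_mul]
      apply S_monotone
      rw [Fin.le_def, hrev]
      omega
    · exfalso
      rw [hrev] at h3
      omega
  have h2 : ∑ k : Fin (Fintype.card E), S f k = ∑ k : Fin (Fintype.card E), (1 - late E k) * S f k
      + ∑ k : Fin (Fintype.card E), late E k * S f k := by
    rw [← sum_add_distrib]
    apply sum_congr rfl
    intro k _
    ring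
  linarith

/-- capture estimate -/
lemma capture (hst : Injective (fun e => (s e, t e))) (hne : ∀ e, s e ≠ t e)
    (hmono : Monotone f) :
    7 / 64 * ∑ k, S f k ≤ EX (fun L : V → Bool => ∑ σ : Fin (Fintype.card E) ≃ E,
      EX (fun x => ∑ k, g s t f L σ k x)) := by
  have e1 : EX (fun L : V → Bool => ∑ σ : Fin (Fintype.card E) ≃ E,
      EX (fun x => ∑ k, g s t f L σ k x))
      = ∑ k, ∑ σ : Fin (Fintype.card E) ≃ E, EX (fun x => EX (fun L : V → Bool =>
        g s t f L σ k x)) := by
    rw [EX_sum, sum_comm]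
    apply sum_congr rfl
    intro σ _
    rw [EX_comm, ← EX_sum]
    apply EX_congr
    intro x
    rw [EX_sum]
  rw [e1]
  have e2 : ∀ k, late E k / 4 * (S f k - S f k / 8) ≤ ∑ σ : Fin (Fintype.card E) ≃ E,
      EX (fun x => EX (fun L : V → Bool => g s t f L σ k x)) := by
    intro k
    have hl := lost_bound hst hmono k
    calc late E k / 4 * (S f k - S f k / 8)
        ≤ late E k / 4 * (S f k - ∑ σ : Fin (Fintype.card E) ≃ E, EX (fun x => d σ f k x ^ 2 *
          lost s t f (pre σ ((k : ℕ) + 1)) (σ k) (update x (σ k) true))) := by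
          apply mul_le_mul_of_nonneg_left _ (by have := late_nonneg k; positivity)
          linarith
      _ = ∑ σ : Fin (Fintype.card E) ≃ E, EX (fun x => late E k / 4 * (d σ f k x ^ 2 *
          (1 - lost s t f (pre σ ((k : ℕ) + 1)) (σ k) (update x (σ k) true)))) := by
          unfold S
          rw [← sum_sub_distrib, mul_sum]
          apply sum_congr rfl
          intro σ _
          rw [← EX_sub, ← EX_mul_left]
          apply EX_congr
          intro x
          ring
      _ ≤ _ := by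
          apply sum_le_sum
          intro σ _
          apply EX_mono
          intro x
          have h1 := avg_AA hne f (pre σ ((k : ℕ) + 1)) (σ k) (update x (σ k) true)
          have h2 : EX (fun L : V → Bool => g s t f L σ k x)
              = d σ f k x ^ 2 * late E k * EX (fun L : V → Bool =>
                AA s t f L (pre σ ((k : ℕ) + 1)) (σ k) (update x (σ k) true)) := by
            rw [← EX_mul_left]
            apply EX_congr
            intro L
            unfold g A
            ring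
          rw [h2]
          have h3 : 0 ≤ d σ f k x ^ 2 * late E k := mul_nonneg (sq_nonneg _) (late_nonneg k)
          calc _ = d σ f k x ^ 2 * late E k *
                ((1 - lost s t f (pre σ ((k : ℕ) + 1)) (σ k) (update x (σ k) true)) / 4) := by ring
            _ ≤ _ := mul_le_mul_of_nonneg_left h1 h3
  calc 7 / 64 * ∑ k, S f k ≤ 7 / 64 * (2 * ∑ k, late E k * S f k) := by
        have := late_sum (E := E) (f := f)
        linarith
    _ = ∑ k, late E k / 4 * (S f k - S f k / 8) := by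
        rw [mul_sum, mul_sum]
        apply sum_congr rfl
        intro k _
        ring
    _ ≤ _ := sum_le_sum fun k _ => e2 k

end order

end Pool.Agent.Helper47.HInt
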