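import Pool.Agent.Helper47.HInt6

open Finset Function

set_option linter.unusedSectionVars false

namespace Pool.Agent.Helper47.HInt

variable {E : Type*} [Fintype E] [DecidableEq E]
variable {V : Type*} [Fintype V] [DecidableEq V]

open Classical in
/-- truncated sums are bounded -/
lemma trunc_sum {N : ℕ} (c : Fin N → ℝ) (τ M : ℝ) (hτ : 0 ≤ τ) (hM : 0 ≤ M) (h0 : ∀ k, 0 ≤ c k)
    (h1 : ∀ k, c k ≤ M) : ∀ S : Finset (Fin N),
    ∑ k ∈ S, (if ∑ j ∈ S.filter (fun j => j < k), c j ≤ τ then c k else 0) ≤ τ + M := by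
  intro S
  induction S using Finset.induction_on_max with
  | empty => simp; linarith
  | insert k S hk ih =>
    have hkS : k ∉ S := fun h => lt_irrefl _ (hk k h)
    have e1 : (insert k S).filter (fun j => j < k) = S := by
      ext j
      simp only [mem_filter, mem_insert]
      constructor
      · rintro ⟨h | h, h'⟩
        · exact absurd h' (by rw [h]; exact lt_irrefl _)
        · exact h
      · intro h
        exact ⟨Or.inr h, hk j h⟩
    have e2 : ∀ i ∈ S, (insert k S).filter (fun j => j < i) = S.filter (fun j => j < i) := by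
      intro i hi
      ext j
      simp only [mem_filter, mem_insert]
      constructor
      · rintro ⟨h | h, h'⟩
        · exact absurd (hk i hi) (by rw [← h]; exact h'.asymm)
        · exact ⟨h, h'⟩
      · rintro ⟨h, h'⟩
        exact ⟨Or.inr h, h'⟩
    rw [sum_insert hkS, e1]
    have e3 : ∑ i ∈ S, (if ∑ j ∈ (insert k S).filter (fun j => j < i), c j ≤ τ then c i else 0)
        = ∑ i ∈ S, (if ∑ j ∈ S.filter (fun j => j < i), c j ≤ τ then c i else 0) := by
      apply sum_congr rfl
      intro i hi
      rw [e2 i hi]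
    rw [e3]
    split_ifs with h
    · have h2 : ∑ i ∈ S, (if ∑ j ∈ S.filter (fun j => j < i), c j ≤ τ then c i else 0)
          ≤ ∑ i ∈ S, c i := by
        apply sum_le_sum
        intro i _
        split_ifs
        · exact le_rfl
        · exact h0 i
      have := h1 k
      linarith
    · linarith

section order

variable (s t : E → V) (f : (E → Bool) → ℝ) (L : V → Bool) (σ : Fin (Fintype.card E) ≃ E)

/-- the tilt parameter -/
noncomputable def kap : ℝ := 1 / 100000

/-- the truncation parameter -/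
noncomputable def Lam : ℝ := 128

/-- previous usage of the same leaf -/
noncomputable def us (k : Fin (Fintype.card E)) (x : E → Bool) : ℝ :=
  ∑ j ∈ univ.filter (fun j => j < k ∧ leafL s t L (σ j) = leafL s t L (σ k)), a s t f L σ j x

/-- previous quadratic variation -/
noncomputable def vs (k : Fin (Fintype.card E)) (x : E → Bool) : ℝ :=
  ∑ j ∈ univ.filter (fun j => j < k), d σ f j x ^ 2

open Classical in
/-- activity indicator -/
noncomputable def act (k : Fin (Fintype.card E)) (x : E → Bool) : ℝ :=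
  if kap * us s t f L σ k x ≤ 1 / 8 ∧ vs f σ k x ≤ Lam then 1 else 0

/-- tilts -/
noncomputable def bet (k : Fin (Fintype.card E)) (x : E → Bool) : ℝ :=
  kap * (a s t f L σ k x * act s t f L σ k x)

lemma us_depOn (k : Fin (Fintype.card E)) : DepOn (us s t f L σ k) (pre σ k) := by
  apply DepOn.sum
  intro j hj
  rw [mem_filter] at hj
  exact (a_depOn s t f L σ j).mono (pre_mono σ (by exact_mod_cast hj.2.1.le))

lemma vs_depOn (k : Fin (Fintype.card E)) : DepOn (vs f σ k) (pre σ k) := by
  apply DepOn.sum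
  intro j hj
  rw [mem_filter] at hj
  exact ((d_depOn σ f j).mono (pre_mono σ (by exact_mod_cast hj.2.le))).pow 2

lemma act_depOn (k : Fin (Fintype.card E)) : DepOn (act s t f L σ k) (pre σ k) := by
  intro x y hxy
  unfold act
  rw [us_depOn s t f L σ k x y hxy, vs_depOn f σ k x y hxy]

lemma act_nonneg (k : Fin (Fintype.card E)) (x : E → Bool) : 0 ≤ act s t f L σ k x := by
  unfold act; split_ifs <;> norm_num

lemma act_le_one (k : Fin (Fintype.card E)) (x : E → Bool) : act s t f L σ k x ≤ 1 := by
  unfold act; split_ifs <;> norm_num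

lemma bet_depOn (k : Fin (Fintype.card E)) : DepOn (bet s t f L σ k) (pre σ k) :=
  (DepOn.const _ _).mul ((a_depOn s t f L σ k).mul (act_depOn s t f L σ k))

variable {f}

lemma us_nonneg (hmono : Monotone f) (k : Fin (Fintype.card E)) (x : E → Bool) :
    0 ≤ us s t f L σ k x := sum_nonneg fun j _ => a_nonneg _ _ _ _ hmono _ _

lemma vs_nonneg (k : Fin (Fintype.card E)) (x : E → Bool) :
    0 ≤ vs f σ k x := sum_nonneg fun j _ => sq_nonneg _

lemma bet_nonneg (hmono : Monotone f) (k : Fin (Fintype.card E)) (x : E → Bool) :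
    0 ≤ bet s t f L σ k x := by
  unfold bet
  exact mul_nonneg (by unfold kap; norm_num)
    (mul_nonneg (a_nonneg _ _ _ _ hmono _ _) (act_nonneg _ _ _ _ _ _ _))

lemma a_le_one (h0 : ∀ x, 0 ≤ f x) (h1 : ∀ x, f x ≤ 1) (hmono : Monotone f)
    (k : Fin (Fintype.card E)) (x : E → Bool) : a s t f L σ k x ≤ 1 := by
  unfold a
  have h2 : d σ f k x ≤ 1 := D_le_one h0 h1 _ _ _
  calc d σ f k x * A s t f L σ k x ≤ 1 * 1 :=
        mul_le_mul h2 (A_le_one _ _ _ _ _ _ _) (A_nonneg _ _ _ _ _ _ _) zero_le_one
    _ = 1 := one_mul 1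

lemma bet_sum (h0 : ∀ x, 0 ≤ f x) (h1 : ∀ x, f x ≤ 1) (hmono : Monotone f) (x : E → Bool)
    (y : V) :
    ∑ k ∈ univ.filter (fun k => leafL s t L (σ k) = some y), bet s t f L σ k x ≤ 1 / 4 := by
  classical
  have h := trunc_sum (fun k => kap * a s t f L σ k x) (1 / 8) kap (by norm_num)
    (by unfold kap; norm_num)
    (fun k => mul_nonneg (by unfold kap; norm_num) (a_nonneg _ _ _ _ hmono _ _))
    (fun k => by
      have := a_le_one s t L σ h0 h1 hmono k x
      have h2 : (0 : ℝ) ≤ kap := by unfold kap; norm_num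
      nlinarith)
    (univ.filter (fun k => leafL s t L (σ k) = some y))
  have hle : ∑ k ∈ univ.filter (fun k => leafL s t L (σ k) = some y), bet s t f L σ k x
      ≤ ∑ k ∈ univ.filter (fun k => leafL s t L (σ k) = some y),
      (if ∑ j ∈ (univ.filter (fun k => leafL s t L (σ k) = some y)).filter (fun j => j < k),
        kap * a s t f L σ j x ≤ 1 / 8 then kap * a s t f L σ k x else 0) := by
    apply sum_le_sum
    intro k hk
    rw [mem_filter] at hk
    have hset : (univ.filter (fun k => leafL s t L (σ k) = some y)).filter (fun j => j < k)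
        = univ.filter (fun j => j < k ∧ leafL s t L (σ j) = leafL s t L (σ k)) := by
      ext j
      simp only [mem_filter, mem_univ, true_and, hk.2]
      tauto
    rw [hset, ← mul_sum]
    unfold bet act us
    by_cases hc : kap * ∑ j ∈ univ.filter (fun j => j < k ∧ leafL s t L (σ j) = leafL s t L (σ k)),
        a s t f L σ j x ≤ 1 / 8
    · rw [if_pos hc]
      split_ifs
      · rw [mul_one]
      · rw [mul_zero, mul_zero]
        exact mul_nonneg (by unfold kap; norm_num) (a_nonneg _ _ _ _ hmono _ _)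
    · rw [if_neg hc, if_neg (fun h => hc h.1)]
      simp
  refine (hle.trans h).trans ?_
  unfold kap
  norm_num

lemma bet_sq (h0 : ∀ x, 0 ≤ f x) (h1 : ∀ x, f x ≤ 1) (hmono : Monotone f) (x : E → Bool) :
    ∑ k, bet s t f L σ k x ^ 2 ≤ kap ^ 2 * (Lam + 1) := by
  classical
  have h := trunc_sum (fun k => d σ f k x ^ 2) Lam 1 (by unfold Lam; norm_num) zero_le_one
    (fun k => sq_nonneg _) (fun k => by
      have a0 : 0 ≤ d σ f k x := d_nonneg σ hmono k x
      have a1 : d σ f k x ≤ 1 := D_le_one h0 h1 _ _ _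
      nlinarith) univ
  refine le_trans ?_ (mul_le_mul_of_nonneg_left h (sq_nonneg kap))
  rw [mul_sum]
  apply sum_le_sum
  intro k _
  unfold bet
  rw [mul_pow]
  apply mul_le_mul_of_nonneg_left _ (sq_nonneg _)
  rw [mul_pow]
  have h2 := a_sq_le s t f L σ k x
  unfold act vs
  by_cases hc : ∑ j ∈ univ.filter (fun j => j < k), d σ f j x ^ 2 ≤ Lam
  · rw [if_pos hc]
    split_ifs
    · simpa using h2
    · simp only [ne_eq, OfNat.ofNat_ne_zero, not_false_eq_true, zero_pow, mul_zero]
      exact sq_nonneg _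
  · rw [if_neg hc, if_neg (fun h => hc h.2)]
    simp

/-- the truncated captured energy -/
noncomputable def Gt (x : E → Bool) : ℝ := ∑ k, g s t f L σ k x * act s t f L σ k x

lemma sum_bet_d (x : E → Bool) :
    ∑ k, bet s t f L σ k x * d σ f k x = kap * Gt (f := f) s t L σ x := by
  unfold Gt bet g a
  rw [mul_sum]
  apply sum_congr rfl
  intro k _
  ring

/-- lower bound for the captured energy -/
lemma Gt_lower (h0 : ∀ x, 0 ≤ f x) (h1 : ∀ x, f x ≤ 1) (hmono : Monotone f) :
    EX (fun x => ∑ k, g s t f L σ k x) - 8 * kap * EX (fun x => ∑ k, g s t f L σ k x *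
      ∑ j ∈ univ.filter (fun j => j < k ∧ leafL s t L (σ j) = leafL s t L (σ k)),
        a s t f L σ j x) - 4 / Lam * EX (fun x => ∑ k, d σ f k x ^ 2)
      ≤ EX (Gt (f := f) s t L σ) := by
  have hT := T_bound (σ := σ) h0 h1
  have hpt : ∀ x, ∑ k, g s t f L σ k x - 8 * kap * (∑ k, g s t f L σ k x *
      ∑ j ∈ univ.filter (fun j => j < k ∧ leafL s t L (σ j) = leafL s t L (σ k)),
        a s t f L σ j x) - 1 / Lam * (∑ k, d σ f k x ^ 2 *
          ∑ j ∈ univ.filter (fun j => j < k), d σ f j x ^ 2) ≤ Gt (f := f) s t L σ x := by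
    intro x
    unfold Gt
    rw [mul_sum, mul_sum, ← sum_sub_distrib, ← sum_sub_distrib]
    apply sum_le_sum
    intro k _
    have hg := g_nonneg s t f L σ k x
    have hgd := g_le s t f L σ k x
    have hu : 0 ≤ us s t f L σ k x := us_nonneg s t L σ hmono k x
    have hv : 0 ≤ vs f σ k x := vs_nonneg σ k x
    have hk : (0 : ℝ) < kap := by unfold kap; norm_num
    have hL : (0 : ℝ) < Lam := by unfold Lam; norm_num
    have e1 : ∑ j ∈ univ.filter (fun j => j < k ∧ leafL s t L (σ j) = leafL s t L (σ k)),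
        a s t f L σ j x = us s t f L σ k x := rfl
    have e2 : ∑ j ∈ univ.filter (fun j => j < k), d σ f j x ^ 2 = vs f σ k x := rfl
    rw [e1, e2]
    have hact : 1 - 8 * kap * us s t f L σ k x - 1 / Lam * vs f σ k x ≤ act s t f L σ k x := by
      unfold act
      split_ifs with h
      · have : 0 ≤ 8 * kap * us s t f L σ k x := by positivity
        have : 0 ≤ 1 / Lam * vs f σ k x := by positivity
        linarith
      · rw [not_and_or] at h
        rcases h with h | h
        · push Not at h
          have : 0 ≤ 1 / Lam * vs f σ k x := by positivity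
          linarith
        · push Not at h
          have h3 : 1 ≤ 1 / Lam * vs f σ k x := by
            rw [one_div, ← div_eq_inv_mul, le_div_iff₀ hL]
            linarith
          have : 0 ≤ 8 * kap * us s t f L σ k x := by positivity
          linarith
    have h4 := mul_le_mul_of_nonneg_left hact hg
    have h5 : g s t f L σ k x * (1 / Lam * vs f σ k x) ≤ 1 / Lam * (d σ f k x ^ 2 * vs f σ k x) := by
      have : 0 ≤ 1 / Lam * vs f σ k x := by positivity
      calc g s t f L σ k x * (1 / Lam * vs f σ k x) ≤ d σ f k x ^ 2 * (1 / Lam * vs f σ k x) :=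
            mul_le_mul_of_nonneg_right hgd this
        _ = _ := by ring
    nlinarith
  have h2 := EX_mono hpt
  rw [EX_sub, EX_sub, EX_mul_left, EX_mul_left] at h2
  have hL : (0 : ℝ) < Lam := by unfold Lam; norm_num
  have h3 : 1 / Lam * EX (fun x => ∑ k, d σ f k x ^ 2 *
          ∑ j ∈ univ.filter (fun j => j < k), d σ f j x ^ 2) ≤
      4 / Lam * EX (fun x => ∑ k, d σ f k x ^ 2) := by
    calc _ ≤ 1 / Lam * (4 * EX (fun x => ∑ k, d σ f k x ^ 2)) :=
          mul_le_mul_of_nonneg_left hT (by positivity)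
      _ = _ := by ring
  linarith

/-- the captured energy under the tilted measure -/
lemma Z_Gt (h0 : ∀ x, 0 ≤ f x) (h1 : ∀ x, f x ≤ 1) (hmono : Monotone f) :
    EX (Gt (f := f) s t L σ) - kap * (9 / 2 * EX (fun x => ∑ k, d σ f k x ^ 2) + (Lam + 1))
      ≤ EX (fun x => Z σ (bet s t f L σ) x * Gt (f := f) s t L σ x) := by
  have hbd := bet_depOn s t f L σ
  have hk : (0 : ℝ) < kap := by unfold kap; norm_num
  have hZ1 := EX_Z hbd
  have hZ2 := Z_sq hbd (δ := kap ^ 2 * (Lam + 1)) (bet_sq s t L σ h0 h1 hmono)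
  have hexp : Real.exp (kap ^ 2 * (Lam + 1)) ≤ 1 + 2 * (kap ^ 2 * (Lam + 1)) := by
    set δ := kap ^ 2 * (Lam + 1) with hδ
    have hδ0 : 0 ≤ δ := by rw [hδ]; unfold Lam; positivity
    have hδ1 : δ ≤ 1 / 2 := by rw [hδ]; unfold kap Lam; norm_num
    have h2 := Real.add_one_le_exp (-δ)
    have h3 : Real.exp δ * Real.exp (-δ) = 1 := by rw [← Real.exp_add]; simp
    have h4 := Real.exp_pos δ
    have h5 : Real.exp δ * (1 - δ) ≤ 1 := by
      rw [← h3]
      apply mul_le_mul_of_nonneg_left _ h4.le
      linarith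
    nlinarith
  have hV := V_sq_bound (σ := σ) h0 h1 hmono
  have hGV : ∀ x, Gt (f := f) s t L σ x ^ 2 ≤ (∑ k, d σ f k x ^ 2) ^ 2 := by
    intro x
    have hG0 : 0 ≤ Gt (f := f) s t L σ x := sum_nonneg fun k _ =>
      mul_nonneg (g_nonneg _ _ _ _ _ _ _) (act_nonneg _ _ _ _ _ _ _)
    apply pow_le_pow_left₀ hG0
    unfold Gt
    apply sum_le_sum
    intro k _
    have a1 := g_nonneg s t f L σ k x
    have a2 := g_le s t f L σ k x
    have a3 := act_le_one s t f L σ k x
    have a4 := act_nonneg s t f L σ k x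
    nlinarith
  have hpt : ∀ x, Gt (f := f) s t L σ x - (kap / 2 * (∑ k, d σ f k x ^ 2) ^ 2 +
      1 / (2 * kap) * (Z σ (bet s t f L σ) x ^ 2 - 2 * Z σ (bet s t f L σ) x + 1))
      ≤ Z σ (bet s t f L σ) x * Gt (f := f) s t L σ x := by
    intro x
    set z := Z σ (bet s t f L σ) x
    set G := Gt (f := f) s t L σ x with hGdef
    have h2 := hGV x
    have h3 : 0 ≤ kap / 2 * (G + (z - 1) / kap) ^ 2 := by positivity
    have h4 : kap / 2 * (G + (z - 1) / kap) ^ 2 = kap / 2 * G ^ 2 + (z - 1) * G +
        1 / (2 * kap) * (z ^ 2 - 2 * z + 1) := by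
      field_simp
      ring
    rw [h4] at h3
    have h5 : kap / 2 * G ^ 2 ≤ kap / 2 * (∑ k, d σ f k x ^ 2) ^ 2 :=
      mul_le_mul_of_nonneg_left h2 (by positivity)
    linarith
  have h6 := EX_mono hpt
  rw [EX_sub, EX_add, EX_mul_left, EX_mul_left, EX_add, EX_sub, EX_mul_left, EX_const] at h6
  have hZ1' : EX (fun x => Z σ (bet s t f L σ) x) = 1 := hZ1
  rw [hZ1'] at h6
  have h7 : kap / 2 * EX (fun x => (∑ k, d σ f k x ^ 2) ^ 2) ≤
      kap / 2 * (9 * EX (fun x => ∑ k, d σ f k x ^ 2)) :=
    mul_le_mul_of_nonneg_left hV (by positivity)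
  have h8 : 1 / (2 * kap) * (EX (fun x => Z σ (bet s t f L σ) x ^ 2) - 2 * 1 + 1)
      ≤ kap * (Lam + 1) := by
    have h9 : EX (fun x => Z σ (bet s t f L σ) x ^ 2) - 2 * 1 + 1 ≤
        2 * (kap ^ 2 * (Lam + 1)) := by linarith
    calc _ ≤ 1 / (2 * kap) * (2 * (kap ^ 2 * (Lam + 1))) :=
          mul_le_mul_of_nonneg_left h9 (by positivity)
      _ = kap * (Lam + 1) := by field_simp
  have h10 : EX (fun x => Gt (f := f) s t L σ x) = EX (Gt (f := f) s t L σ) := rfl
  rw [h10] at h6
  linarith

end order

/-- `S` is a star forest with leaf set contained in `{L = true}` -/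
def StarLike (s t : E → V) (S : Finset E) : Prop :=
  ∃ L : V → Bool, (∀ e ∈ S, L (s e) ≠ L (t e)) ∧
    ∀ e ∈ S, ∀ e' ∈ S, ∀ y, L y = true → inc s t y e → inc s t y e' → e = e'

/-- adding the coordinates of `S` -/
def join (x : E → Bool) (S : Finset E) : E → Bool := fun e => x e || decide (e ∈ S)

open Classical in
/-- indicator of being boostable -/
noncomputable def boosted (s t : E → V) (f : (E → Bool) → ℝ) (x : E → Bool) : ℝ :=
  if ∃ S : Finset E, StarLike s t S ∧ f (join x S) = 1 then 1 else 0

lemma one_order (s t : E → V) {f : (E → Bool) → ℝ} (hf : ∀ x, f x = 0 ∨ f x = 1)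
    (hmono : Monotone f) (L : V → Bool) (σ : Fin (Fintype.card E) ≃ E) :
    EX (fun x => Z σ (bet s t f L σ) x * f x) ≤ EX (boosted s t f) := by
  classical
  have h0 : ∀ x, 0 ≤ f x := fun x => by rcases hf x with h | h <;> rw [h] <;> norm_num
  have h1 : ∀ x, f x ≤ 1 := fun x => by rcases hf x with h | h <;> rw [h] <;> norm_num
  set ω : ℕ → Finset V → (E → Bool) → ℝ := fun m U x =>
    if ∃ S : Finset E, (∀ e ∈ S, m ≤ ((σ.symm e : Fin _) : ℕ)) ∧
      (∀ e ∈ S, ∃ y, leafL s t L e = some y ∧ y ∉ U) ∧ Set.InjOn (leafL s t L) S ∧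
      f (join x S) = 1 then 1 else 0 with hω
  have key := coupling σ (leafL s t L) (bet s t f L σ) (bet_depOn s t f L σ)
    (bet_nonneg s t L σ hmono)
    (by
      intro k x hk
      unfold bet a
      by_contra h
      have hA : A s t f L σ k x ≠ 0 := by
        intro h'
        apply h
        rw [h']; ring
      exact A_leaf s t f L σ hA hk)
    (bet_sum s t L σ h0 h1 hmono) f ω
    (by intro m U x; simp only [hω]; split_ifs <;> norm_num)
    (by
      intro m U x
      simp only [hω]
      split_ifs with h2 h3 h3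
      · exact le_rfl
      · exfalso
        apply h3
        obtain ⟨S, a1, a2, a3, a4⟩ := h2
        exact ⟨S, fun e he => by have := a1 e he; omega, a2, a3, a4⟩
      · norm_num
      · exact le_rfl)
    (by
      intro k y U x hk hy
      simp only [hω]
      split_ifs with h2 h3 h3
      · exact le_rfl
      · exfalso
        apply h3
        obtain ⟨S, a1, a2, a3, a4⟩ := h2
        have hkS : σ k ∉ S := by
          intro h
          have := a1 _ h
          simp at this
        refine ⟨insert (σ k) S, ?_, ?_, ?_, ?_⟩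
        · intro e he
          rw [mem_insert] at he
          rcases he with rfl | he
          · simp
          · have := a1 e he; omega
        · intro e he
          rw [mem_insert] at he
          rcases he with rfl | he
          · exact ⟨y, hk, hy⟩
          · obtain ⟨y', b1, b2⟩ := a2 e he
            exact ⟨y', b1, fun h => b2 (mem_insert_of_mem h)⟩
        · intro e he e' he' hee
          rw [mem_coe, mem_insert] at he he'
          rcases he with rfl | he <;> rcases he' with rfl | he'
          · rfl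
          · exfalso
            obtain ⟨y', b1, b2⟩ := a2 e' he'
            rw [hk, b1, Option.some.injEq] at hee
            exact b2 (by rw [← hee]; exact mem_insert_self _ _)
          · exfalso
            obtain ⟨y', b1, b2⟩ := a2 e he
            rw [hk, b1, Option.some.injEq] at hee
            exact b2 (by rw [hee]; exact mem_insert_self _ _)
          · exact a3 he he' hee
        · rw [← a4]
          congr 1
          ext e
          unfold join
          by_cases he : e = σ k
          · subst he; simp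
          · simp [he]
      · norm_num
      · exact le_rfl)
    (by
      intro m U x
      simp only [hω]
      split_ifs with h2
      · exact h1 x
      · rcases hf x with h | h
        · exact h.le
        · exfalso
          apply h2
          refine ⟨∅, by simp, by simp, by simp, ?_⟩
          rw [← h]
          congr 1
          ext e
          simp [join])
  refine key.trans (EX_mono fun x => ?_)
  simp only [hω]
  unfold boosted
  split_ifs with h2 h3 h3
  · exact le_rfl
  · exfalso
    apply h3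
    obtain ⟨S, a1, a2, a3, a4⟩ := h2
    refine ⟨S, ⟨L, ?_, ?_⟩, a4⟩
    · intro e he
      obtain ⟨y, b1, -⟩ := a2 e he
      unfold leafL at b1
      split_ifs at b1 with c1 c2
      · rw [c1.1, c1.2]; simp
      · rw [c2.1, c2.2]; simp
    · intro e he e' he' y hy hye hye'
      apply a3 he he'
      have leaf_of : ∀ e ∈ S, inc s t y e → leafL s t L e = some y := by
        intro e he hinc
        obtain ⟨y', b1, -⟩ := a2 e he
        unfold leafL at b1 ⊢
        split_ifs at b1 ⊢ with c1 c2
        · rcases hinc with h | h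
          · rw [h]
          · rw [h] at c1; rw [hy] at c1; simp at c1
        · rcases hinc with h | h
          · rw [h] at c2; rw [hy] at c2; simp at c2
          · rw [h]
      rw [leaf_of e he hye, leaf_of e' he' hye']
  · norm_num
  · exact le_rfl

/-- **Boosting theorem.** -/
theorem boost (s t : E → V) (hst : Injective (fun e => (s e, t e))) (hne : ∀ e, s e ≠ t e)
    (f : (E → Bool) → ℝ) (hf : ∀ x, f x = 0 ∨ f x = 1) (hmono : Monotone f)
    (hlo : 1 / 4 ≤ EX f) (hhi : EX f ≤ 3 / 4) :
    EX f + 1 / 10 ^ 7 ≤ EX (boosted s t f) := by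
  have h0 : ∀ x, 0 ≤ f x := fun x => by rcases hf x with h | h <;> rw [h] <;> norm_num
  have h1 : ∀ x, f x ≤ 1 := fun x => by rcases hf x with h | h <;> rw [h] <;> norm_num
  set M : ℝ := ((Fintype.card (Fin (Fintype.card E) ≃ E) : ℕ) : ℝ) with hM
  have hMpos : 0 < M := by
    rw [hM]
    have : 0 < Fintype.card (Fin (Fintype.card E) ≃ E) :=
      Fintype.card_pos_iff.2 ⟨(Fintype.equivFin E).symm⟩
    exact_mod_cast this
  set v : ℝ := 4 * (EX f - EX f ^ 2) with hv
  have hvlo : 3 / 4 ≤ v := by rw [hv]; nlinarith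
  have hvhi : v ≤ 1 := by rw [hv]; nlinarith [sq_nonneg (EX f - 1 / 2)]
  have hVσ : ∀ σ : Fin (Fintype.card E) ≃ E, EX (fun x => ∑ k, d σ f k x ^ 2) = v := by
    intro σ
    have h := var_eq (σ := σ) f
    have h2 : EX (fun x => (f x - EX f) ^ 2) = EX f - EX f ^ 2 := by
      have : EX (fun x => (f x - EX f) ^ 2) = EX (fun x => (f x - 2 * EX f * f x) + EX f ^ 2) := by
        apply EX_congr
        intro x
        rcases hf x with h | h <;> rw [h] <;> ring
      rw [this, EX_add, EX_sub, EX_mul_left, EX_const]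
      have h3 : EX (fun x => f x) = EX f := rfl
      rw [h3]
      ring
    rw [h2] at h
    rw [hv]
    linarith
  have hS : ∑ k, S f k = M * v := by
    unfold S
    rw [sum_comm]
    have : ∀ σ : Fin (Fintype.card E) ≃ E, ∑ k, EX (fun x => d σ f k x ^ 2) = v := by
      intro σ
      rw [← EX_sum, hVσ]
    rw [sum_congr rfl fun σ _ => this σ, sum_const, nsmul_eq_mul, card_univ]
  -- lower bound for every order and leaf set
  have hall : ∀ (L : V → Bool) (σ : Fin (Fintype.card E) ≃ E),
      kap / 2 * (EX (fun x => ∑ k, g s t f L σ k x) - 8 * kap * EX (fun x => ∑ k,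
      g s t f L σ k x * ∑ j ∈ univ.filter (fun j => j < k ∧ leafL s t L (σ j) =
        leafL s t L (σ k)), a s t f L σ j x) - 4 / Lam * v - kap * (9 / 2 * v + (Lam + 1)))
      ≤ EX (boosted s t f) - EX f := by
    intro L σ
    have a1 := one_order s t hf hmono L σ
    have a2 := gain_eq f (bet_depOn s t f L σ)
    have a3 := Gt_lower s t L σ h0 h1 hmono
    have a4 := Z_Gt s t L σ h0 h1 hmono
    rw [hVσ σ] at a3 a4
    have a5 : EX (fun x => Z σ (bet s t f L σ) x * ∑ k, bet s t f L σ k x * d σ f k x)
        = kap * EX (fun x => Z σ (bet s t f L σ) x * Gt (f := f) s t L σ x) := by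
      rw [← EX_mul_left]
      apply EX_congr
      intro x
      rw [sum_bet_d]
      ring
    rw [a5] at a2
    have hk : (0 : ℝ) < kap := by unfold kap; norm_num
    have a6 : EX (fun x => ∑ k, g s t f L σ k x) - 8 * kap * EX (fun x => ∑ k,
      g s t f L σ k x * ∑ j ∈ univ.filter (fun j => j < k ∧ leafL s t L (σ j) =
        leafL s t L (σ k)), a s t f L σ j x) - 4 / Lam * v - kap * (9 / 2 * v + (Lam + 1))
        ≤ EX (fun x => Z σ (bet s t f L σ) x * Gt (f := f) s t L σ x) := by linarith
    have a7 := mul_le_mul_of_nonneg_left a6 (by positivity : (0 : ℝ) ≤ kap / 2)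
    linarith
  -- sum over orders
  set c0 := EX (boosted s t f) - EX f with hc0
  have hsum : ∀ L : V → Bool, kap / 2 * (∑ σ : Fin (Fintype.card E) ≃ E,
      EX (fun x => ∑ k, g s t f L σ k x) - 8 * kap * (165 * (M * v)) - M * (4 / Lam * v) -
        M * (kap * (9 / 2 * v + (Lam + 1)))) ≤ M * c0 := by
    intro L
    have hk : (0 : ℝ) < kap := by unfold kap; norm_num
    have b1 := usage (s := s) (t := t) L h0 h1 hmono
    rw [hS] at b1
    have b2 : ∑ σ : Fin (Fintype.card E) ≃ E, kap / 2 * (EX (fun x => ∑ k, g s t f L σ k x) -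
      8 * kap * EX (fun x => ∑ k,
      g s t f L σ k x * ∑ j ∈ univ.filter (fun j => j < k ∧ leafL s t L (σ j) =
        leafL s t L (σ k)), a s t f L σ j x) - 4 / Lam * v - kap * (9 / 2 * v + (Lam + 1)))
        ≤ ∑ σ : Fin (Fintype.card E) ≃ E, c0 := sum_le_sum fun σ _ => hall L σ
    rw [sum_const, nsmul_eq_mul, card_univ, ← hM, ← mul_sum, sum_sub_distrib, sum_sub_distrib,
      sum_sub_distrib, ← mul_sum, sum_const, sum_const, nsmul_eq_mul, nsmul_eq_mul, card_univ,
      ← hM] at b2
    refine le_trans ?_ b2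
    apply mul_le_mul_of_nonneg_left _ (by positivity)
    have b3 := mul_le_mul_of_nonneg_left b1 (by positivity : (0 : ℝ) ≤ 8 * kap)
    linarith
  have hfin := EX_mono (E := V) hsum
  rw [EX_const, EX_mul_left, EX_sub, EX_sub, EX_sub, EX_const, EX_const, EX_const] at hfin
  have hcap := capture (f := f) hst hne hmono
  rw [hS] at hcap
  have hk : (0 : ℝ) < kap := by unfold kap; norm_num
  have h5 : kap / 2 * (7 / 64 * (M * v) - 8 * kap * (165 * (M * v)) - M * (4 / Lam * v) -
        M * (kap * (9 / 2 * v + (Lam + 1)))) ≤ M * c0 := by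
    refine le_trans ?_ hfin
    apply mul_le_mul_of_nonneg_left _ (by positivity)
    linarith
  have h6 : M * (kap / 2 * (7 / 64 * v - 8 * kap * (165 * v) - 4 / Lam * v -
        kap * (9 / 2 * v + (Lam + 1)))) ≤ M * c0 := by
    calc _ = kap / 2 * (7 / 64 * (M * v) - 8 * kap * (165 * (M * v)) - M * (4 / Lam * v) -
        M * (kap * (9 / 2 * v + (Lam + 1)))) := by ring
      _ ≤ _ := h5
  have h7 := le_of_mul_le_mul_left h6 hMpos
  have h8 : (1 : ℝ) / 10 ^ 7 ≤ kap / 2 * (7 / 64 * v - 8 * kap * (165 * v) - 4 / Lam * v -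
        kap * (9 / 2 * v + (Lam + 1))) := by
    unfold kap Lam
    nlinarith
  linarith

end Pool.Agent.Helper47.HInt
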