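import Pool.Agent.Helper47.HInt7

open Finset Function

set_option linter.unusedSectionVars false

namespace Pool.Agent.Helper47.HInt

section General

variable {E : Type*} [Fintype E] [DecidableEq E]

lemma EX_equiv (e : (E → Bool) ≃ (E → Bool)) (φ : (E → Bool) → ℝ) :
    EX (fun x => φ (e x)) = EX φ := by
  unfold EX
  rw [Equiv.sum_comp e φ]

/-- complementation of bit vectors -/
def compl : (E → Bool) ≃ (E → Bool) :=
  Function.Involutive.toPerm (fun x e => !(x e)) (fun x => by ext e; simp)

@[simp] lemma compl_apply (x : E → Bool) (e : E) : compl x e = !(x e) := rfl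

end General

variable {V : Type*} [Fintype V] [DecidableEq V]

/-- potential edges -/
abbrev Ed (V : Type*) : Type _ := {e : Sym2 V // ¬ e.IsDiag}

/-- one end -/
noncomputable def sE (e : Ed V) : V := (Quot.out e.1).1
/-- the other end -/
noncomputable def tE (e : Ed V) : V := (Quot.out e.1).2

lemma mk_sE_tE (e : Ed V) : s(sE e, tE e) = e.1 := by
  unfold sE tE
  exact Quot.out_eq e.1

lemma st_inj : Injective (fun e : Ed V => (sE e, tE e)) := by
  intro e e' h
  simp only [Prod.mk.injEq] at h
  apply Subtype.ext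
  rw [← mk_sE_tE e, ← mk_sE_tE e', h.1, h.2]

lemma s_ne_t (e : Ed V) : sE e ≠ tE e := by
  intro h
  apply e.2
  rw [← mk_sE_tE e, h]
  simp

lemma inc_iff (y : V) (e : Ed V) : inc sE tE y e ↔ y ∈ e.1 := by
  unfold inc
  rw [← mk_sE_tE e, Sym2.mem_iff]
  constructor
  · rintro (h | h)
    · exact Or.inl h.symm
    · exact Or.inr h.symm
  · rintro (h | h)
    · exact Or.inl h.symm
    · exact Or.inr h.symm

/-- the graph with given edge indicator -/
def gr (x : Ed V → Bool) : SimpleGraph V :=
  SimpleGraph.fromEdgeSet {e | ∃ h : ¬ e.IsDiag, x ⟨e, h⟩ = true}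

lemma gr_adj (x : Ed V → Bool) (a b : V) :
    (gr x).Adj a b ↔ ∃ h : ¬ (s(a, b)).IsDiag, x ⟨s(a, b), h⟩ = true := by
  unfold gr
  rw [SimpleGraph.fromEdgeSet_adj]
  simp only [Set.mem_ofPred_eq]
  constructor
  · rintro ⟨h, -⟩
    exact h
  · rintro ⟨h, h2⟩
    refine ⟨⟨h, h2⟩, ?_⟩
    intro hab
    apply h
    simp [hab]

open Classical in
/-- the edge indicator -/
noncomputable def enc (G : SimpleGraph V) : Ed V → Bool := fun e => decide (e.1 ∈ G.edgeSet)

lemma gr_enc (G : SimpleGraph V) : gr (enc G) = G := by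
  ext a b
  rw [gr_adj]
  constructor
  · rintro ⟨h, h2⟩
    simpa [enc] using h2
  · intro h
    refine ⟨?_, ?_⟩
    · simpa using h.ne
    · simpa [enc] using h

lemma enc_inj : Injective (enc : SimpleGraph V → Ed V → Bool) := by
  intro G G' h
  rw [← gr_enc G, ← gr_enc G', h]

lemma enc_gr (x : Ed V → Bool) : enc (gr x) = x := by
  ext ⟨e, he⟩
  induction e using Sym2.ind with
  | _ a b =>
    unfold enc
    simp only [SimpleGraph.mem_edgeSet, gr_adj]
    cases hx : x ⟨s(a, b), he⟩ with
    | true =>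
      simp only [decide_eq_true_eq]
      exact ⟨he, hx⟩
    | false =>
      simp only [decide_eq_false_iff_not]
      rintro ⟨h, h2⟩
      rw [hx] at h2
      exact absurd h2 (by simp)

lemma gr_mono {x y : Ed V → Bool} (h : x ≤ y) : gr x ≤ gr y := by
  intro a b hab
  rw [gr_adj] at hab ⊢
  obtain ⟨h1, h2⟩ := hab
  refine ⟨h1, ?_⟩
  have h3 := h ⟨s(a, b), h1⟩
  rw [h2] at h3
  cases hy : y ⟨s(a, b), h1⟩ with
  | true => rfl
  | false =>
    rw [hy] at h3
    have h4 : ¬ (true ≤ false) := by decide
    exact absurd h3 h4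

open Classical in
/-- indicator of the up-closure -/
noncomputable def upf (F : Finset (SimpleGraph V)) (x : Ed V → Bool) : ℝ :=
  if ∃ G ∈ F, G ≤ gr x then 1 else 0

lemma upf_zero_one (F : Finset (SimpleGraph V)) (x : Ed V → Bool) : upf F x = 0 ∨ upf F x = 1 := by
  unfold upf
  split_ifs
  · exact Or.inr rfl
  · exact Or.inl rfl

lemma upf_mono (F : Finset (SimpleGraph V)) : Monotone (upf F) := by
  intro x y hxy
  unfold upf
  split_ifs with h1 h2 h2
  · exact le_rfl
  · exfalso
    apply h2
    obtain ⟨G, hG, hG2⟩ := h1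
    exact ⟨G, hG, hG2.trans (gr_mono hxy)⟩
  · norm_num
  · exact le_rfl

lemma upf_eq_one {F : Finset (SimpleGraph V)} {x : Ed V → Bool} (h : upf F x = 1) :
    ∃ G ∈ F, G ≤ gr x := by
  unfold upf at h
  split_ifs at h with h1
  · exact h1
  · norm_num at h

lemma card_Ed : Fintype.card (Ed V) = (Fintype.card V).choose 2 := Sym2.card_subtype_not_diag

lemma card_le_EX (F : Finset (SimpleGraph V)) :
    (F.card : ℝ) ≤ 2 ^ ((Fintype.card V).choose 2) * EX (upf F) := by
  classical
  unfold EX
  rw [← card_Ed (V := V)]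
  rw [mul_div_cancel₀ _ (by positivity)]
  have h1 : (F.card : ℝ) = ∑ x ∈ F.image enc, (1 : ℝ) := by
    rw [sum_const, nsmul_eq_mul, mul_one, card_image_of_injective _ enc_inj]
  rw [h1]
  calc ∑ x ∈ F.image enc, (1 : ℝ) ≤ ∑ x ∈ F.image enc, upf F x := by
        apply sum_le_sum
        intro x hx
        rw [mem_image] at hx
        obtain ⟨G, hG, rfl⟩ := hx
        unfold upf
        rw [if_pos ⟨G, hG, by rw [gr_enc]⟩]
    _ ≤ ∑ x, upf F x := by
        apply sum_le_sum_of_subset_of_nonneg (subset_univ _)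
        intro x _ _
        rcases upf_zero_one F x with h | h <;> rw [h] <;> norm_num

/-- graphs with a leaf labelling: every edge joins a label-true vertex and a label-false vertex, and
label-true vertices have degree at most one -/
def LeafLab {W : Type*} (H : SimpleGraph W) : Prop :=
  ∃ L : W → Bool, (∀ a b, H.Adj a b → L a ≠ L b) ∧
    ∀ y a b, L y = true → H.Adj y a → H.Adj y b → a = b

lemma leafLab_of_starLike {W : Type*} (H : SimpleGraph W) {x : Ed V → Bool} {S : Finset (Ed V)}
    (hS : StarLike sE tE S) (hx : ∀ e, x e = true → e ∈ S) (h : H.IsContained (gr x)) :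
    LeafLab H := by
  obtain ⟨φ⟩ := h
  obtain ⟨L, hL1, hL2⟩ := hS
  have key : ∀ a b, H.Adj a b → ∃ e ∈ S, e.1 = s(φ a, φ b) := by
    intro a b hab
    have h1 := φ.toHom.map_adj hab
    rw [gr_adj] at h1
    obtain ⟨h2, h3⟩ := h1
    exact ⟨_, hx _ h3, rfl⟩
  refine ⟨fun w => L (φ w), ?_, ?_⟩
  · intro a b hab
    obtain ⟨e, he, he2⟩ := key a b hab
    have h1 := hL1 e he
    rw [← mk_sE_tE e, Sym2.eq_iff] at he2
    rcases he2 with ⟨h2, h3⟩ | ⟨h2, h3⟩
    · rw [h2, h3] at h1; exact h1
    · rw [h2, h3] at h1; exact h1.symm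
  · intro y a b hy ha hb
    obtain ⟨e, he, he2⟩ := key y a ha
    obtain ⟨e', he', he2'⟩ := key y b hb
    have h1 := hL2 e he e' he' (φ y) hy (by rw [inc_iff, he2]; simp) (by rw [inc_iff, he2']; simp)
    rw [h1, he2'] at he2
    have h3 : φ b = φ a := by
      rw [Sym2.eq_iff] at he2
      rcases he2 with ⟨-, h3⟩ | ⟨h2, h3⟩
      · exact h3
      · rw [h3, h2]
    exact (φ.injective h3).symm

theorem upper_aux {W : Type*} (H : SimpleGraph W) (hH : ¬ LeafLab H)
    (F : Finset (SimpleGraph V)) (hF : ∀ G₁ ∈ F, ∀ G₂ ∈ F, H.IsContained (G₁ ⊓ G₂)) :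
    EX (upf F) ≤ (1 - 1 / 10 ^ 7) / 2 := by
  classical
  by_cases hlo : EX (upf F) < 1 / 4
  · norm_num at hlo ⊢
    linarith
  push Not at hlo
  set f := upf F with hf
  -- the basic disjointness
  have hdis : ∀ x, boosted sE tE f x + f (compl x) ≤ 1 := by
    intro x
    unfold boosted
    split_ifs with h
    · obtain ⟨S, hS, hS2⟩ := h
      rcases upf_zero_one F (compl x) with h0 | h0
      · rw [hf, h0]; norm_num
      · exfalso
        obtain ⟨G₁, hG₁, hle₁⟩ := upf_eq_one hS2
        obtain ⟨G₂, hG₂, hle₂⟩ := upf_eq_one h0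
        apply hH
        apply leafLab_of_starLike H (x := fun e => join x S e && compl x e) hS
        · intro e he
          simp only [join, compl_apply, Bool.and_eq_true, Bool.or_eq_true, decide_eq_true_eq,
            Bool.not_eq_true'] at he
          rcases he.1 with h1 | h1
          · rw [he.2] at h1; exact absurd h1 (by simp)
          · exact h1
        · obtain ⟨φ⟩ := hF G₁ hG₁ G₂ hG₂
          have hle : G₁ ⊓ G₂ ≤ gr (fun e => join x S e && compl x e) := by
            intro a b hab
            have h1 := hle₁ hab.1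
            have h2 := hle₂ hab.2
            rw [gr_adj] at h1 h2 ⊢
            obtain ⟨h3, h4⟩ := h1
            obtain ⟨h5, h6⟩ := h2
            refine ⟨h3, ?_⟩
            rw [h4, h6]
            rfl
          exact ⟨(SimpleGraph.Copy.ofLE _ _ hle).comp φ⟩
    · rcases upf_zero_one F (compl x) with h0 | h0 <;> rw [hf, h0] <;> norm_num
  have h1 : EX (boosted sE tE f) + EX f ≤ 1 := by
    have h2 := EX_mono hdis
    rw [EX_add, EX_equiv compl f, EX_const] at h2
    exact h2
  have h3 : EX f ≤ EX (boosted sE tE f) := by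
    apply EX_mono
    intro x
    unfold boosted
    split_ifs with h
    · rcases upf_zero_one F x with h0 | h0 <;> rw [hf, h0] <;> norm_num
    · rcases upf_zero_one F x with h0 | h0
      · rw [hf, h0]
      · exfalso
        apply h
        refine ⟨∅, ⟨fun _ => true, by simp, by simp⟩, ?_⟩
        rw [hf, ← h0]
        congr 1
        ext e
        simp [join]
  have h4 := boost sE tE (V := V) st_inj s_ne_t f (upf_zero_one F) (upf_mono F) hlo (by linarith)
  linarith

theorem upper {W : Type*} (H : SimpleGraph W) (hH : ¬ LeafLab H)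
    (F : Finset (SimpleGraph V)) (hF : ∀ G₁ ∈ F, ∀ G₂ ∈ F, H.IsContained (G₁ ⊓ G₂)) :
    (F.card : ℝ) ≤ (1 - 1 / 10 ^ 7) * (2 ^ ((Fintype.card V).choose 2) / 2) := by
  have h1 := card_le_EX F
  have h2 := upper_aux H hH F hF
  have h3 : (0 : ℝ) < 2 ^ ((Fintype.card V).choose 2) := by positivity
  nlinarith

/-- general upper bound for graphs with an edge -/
theorem upper_trivial {W : Type*} (H : SimpleGraph W) (hH : H ≠ ⊥)
    (F : Finset (SimpleGraph V)) (hF : ∀ G₁ ∈ F, ∀ G₂ ∈ F, H.IsContained (G₁ ⊓ G₂)) :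
    (F.card : ℝ) ≤ 2 ^ ((Fintype.card V).choose 2) / 2 := by
  classical
  have hdis : ∀ x, upf F x + upf F (compl x) ≤ 1 := by
    intro x
    rcases upf_zero_one F x with h0 | h0
    · rcases upf_zero_one F (compl x) with h1 | h1 <;> rw [h0, h1] <;> norm_num
    rcases upf_zero_one F (compl x) with h1 | h1
    · rw [h0, h1]; norm_num
    exfalso
    obtain ⟨G₁, hG₁, hle₁⟩ := upf_eq_one h0
    obtain ⟨G₂, hG₂, hle₂⟩ := upf_eq_one h1
    obtain ⟨φ⟩ := hF G₁ hG₁ G₂ hG₂
    rw [SimpleGraph.ne_bot_iff_exists_adj] at hH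
    obtain ⟨a, b, hab⟩ := hH
    have h2 := φ.toHom.map_adj hab
    have h3 := hle₁ h2.1
    have h4 := hle₂ h2.2
    rw [gr_adj] at h3 h4
    obtain ⟨h5, h6⟩ := h3
    obtain ⟨h7, h8⟩ := h4
    rw [compl_apply, h6] at h8
    exact absurd h8 (by simp)
  have h2 := EX_mono hdis
  rw [EX_add, EX_equiv compl (upf F), EX_const] at h2
  have h1 := card_le_EX F
  have h3 : (0 : ℝ) < 2 ^ ((Fintype.card V).choose 2) := by positivity
  nlinarith

/-- a graph with a leaf labelling is a forest of stars -/
lemma star_of_leafLab {W : Type*} (H : SimpleGraph W) (h : LeafLab H) :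
    ∀ C : H.ConnectedComponent, ∃ v ∈ C.supp, ∀ a ∈ C.supp, ∀ b ∈ C.supp,
      (H.Adj a b ↔ a ≠ b ∧ (a = v ∨ b = v)) := by
  classical
  obtain ⟨L, h1, h2⟩ := h
  have main : ∀ v, (L v = false ∨ ∀ b, ¬ H.Adj v b) → ∀ b, H.Reachable v b → b = v ∨ H.Adj v b := by
    intro v hv b hb
    rw [SimpleGraph.reachable_iff_reflTransGen] at hb
    induction hb with
    | refl => exact Or.inl rfl
    | tail hb hbc ih =>
      rename_i b c
      rcases ih with rfl | ih
      · exact Or.inr hbc
      · left
        rcases hv with hv | hv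
        · have h3 := h1 _ _ ih
          have h4 : L b = true := by
            cases hh : L b with
            | true => rfl
            | false => rw [hh, hv] at h3; exact absurd rfl h3
          exact h2 b c v h4 hbc ih.symm
        · exact absurd ih (hv _)
  have main2 : ∀ v, (L v = false ∨ ∀ b, ¬ H.Adj v b) → ∀ a, H.Reachable v a → ∀ b, H.Reachable v b →
      (H.Adj a b ↔ a ≠ b ∧ (a = v ∨ b = v)) := by
    intro v hv a ha b hb
    constructor
    · intro hab
      refine ⟨hab.ne, ?_⟩
      rcases main v hv a ha with rfl | h3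
      · exact Or.inl rfl
      · right
        rcases hv with hv | hv
        · have h3' := h1 _ _ h3
          have h4 : L a = true := by
            cases hh : L a with
            | true => rfl
            | false => rw [hh, hv] at h3'; exact absurd rfl h3'
          exact h2 a b v h4 hab h3.symm
        · exact absurd h3 (hv _)
    · rintro ⟨hne, rfl | rfl⟩
      · rcases main _ hv b hb with rfl | h3
        · exact absurd rfl hne
        · exact h3
      · rcases main _ hv a ha with rfl | h3
        · exact absurd rfl hne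
        · exact h3.symm
  intro C
  induction C using SimpleGraph.ConnectedComponent.ind with
  | _ w =>
    have hex : ∃ v, H.Reachable w v ∧ (L v = false ∨ ∀ b, ¬ H.Adj v b) := by
      by_cases hw : L w = false ∨ ∀ b, ¬ H.Adj w b
      · exact ⟨w, SimpleGraph.Reachable.refl w, hw⟩
      · push Not at hw
        obtain ⟨hw1, u, hu⟩ := hw
        refine ⟨u, hu.reachable, Or.inl ?_⟩
        have h3 := h1 _ _ hu
        cases hh : L u with
        | false => rfl
        | true =>
          exfalso
          apply h3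
          rw [hh]
          simpa using hw1
    obtain ⟨v, hv1, hv2⟩ := hex
    refine ⟨v, ?_, ?_⟩
    · rw [SimpleGraph.ConnectedComponent.mem_supp_iff, SimpleGraph.ConnectedComponent.eq]
      exact hv1.symm
    · intro a ha b hb
      rw [SimpleGraph.ConnectedComponent.mem_supp_iff, SimpleGraph.ConnectedComponent.eq] at ha hb
      exact main2 v hv2 a (hv1.symm.trans ha.symm) b (hv1.symm.trans hb.symm)

end Pool.Agent.Helper47.HInt
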