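import Mathlib

open Finset Function Filter Topology

set_option linter.unusedSectionVars false

namespace Pool.Agent.Helper47.HInt

/-! ### central binomial estimate -/

lemma central_sq (k : ℕ) : (2 * k + 1) * Nat.centralBinom k ^ 2 ≤ 16 ^ k := by
  induction k with
  | zero => simp
  | succ k ih =>
    have h := Nat.succ_mul_centralBinom_succ k
    have h2 : (k + 1) ^ 2 * ((2 * (k + 1) + 1) * Nat.centralBinom (k + 1) ^ 2) ≤
        (k + 1) ^ 2 * 16 ^ (k + 1) := by
      calc (k + 1) ^ 2 * ((2 * (k + 1) + 1) * Nat.centralBinom (k + 1) ^ 2)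
          = (2 * k + 3) * ((k + 1) * Nat.centralBinom (k + 1)) ^ 2 := by ring
        _ = (2 * k + 3) * (2 * (2 * k + 1) * Nat.centralBinom k) ^ 2 := by rw [h]
        _ = 4 * ((2 * k + 3) * (2 * k + 1)) * ((2 * k + 1) * Nat.centralBinom k ^ 2) := by ring
        _ ≤ 4 * (4 * (k + 1) ^ 2) * 16 ^ k := by
            apply Nat.mul_le_mul _ ih
            apply Nat.mul_le_mul_left
            nlinarith
        _ = (k + 1) ^ 2 * 16 ^ (k + 1) := by ring
    exact Nat.le_of_mul_le_mul_left h2 (by positivity)

lemma choose_half_sq (a : ℕ) : (a + 1) * (a.choose (a / 2)) ^ 2 ≤ 4 ^ a := by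
  rcases Nat.even_or_odd' a with ⟨k, rfl | rfl⟩
  · have h := central_sq k
    rw [Nat.centralBinom_eq_two_mul_choose] at h
    have h2 : 2 * k / 2 = k := by omega
    rw [h2, pow_mul]
    exact h
  · have h := central_sq (k + 1)
    rw [Nat.centralBinom_eq_two_mul_choose] at h
    have h2 : (2 * k + 1) / 2 = k := by omega
    rw [h2]
    have h3 : (2 * (k + 1)).choose (k + 1) = 2 * (2 * k + 1).choose k := by
      have h4 : 2 * (k + 1) = (2 * k + 1) + 1 := by ring
      rw [h4, Nat.choose_succ_succ]
      have h5 : (2 * k + 1).choose (k + 1) = (2 * k + 1).choose k := by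
        apply Nat.choose_symm_of_eq_add
        ring
      rw [Nat.succ_eq_add_one, h5]
      ring
    rw [h3] at h
    have h6 : 4 * ((2 * k + 1 + 1) * (2 * k + 1).choose k ^ 2) ≤ 4 * 4 ^ (2 * k + 1) := by
      calc 4 * ((2 * k + 1 + 1) * (2 * k + 1).choose k ^ 2)
          ≤ (2 * (k + 1) + 1) * (2 * (2 * k + 1).choose k) ^ 2 := by nlinarith
        _ ≤ 16 ^ (k + 1) := h
        _ = 4 * 4 ^ (2 * k + 1) := by
            rw [show (16 : ℕ) = 4 ^ 2 by norm_num, ← pow_mul]
            ring
    exact Nat.le_of_mul_le_mul_left h6 (by norm_num)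

lemma choose_half_tendsto :
    Tendsto (fun a : ℕ => ((a.choose (a / 2) : ℕ) : ℝ) / 2 ^ a) atTop (𝓝 0) := by
  have h1 : ∀ a : ℕ, ((a.choose (a / 2) : ℕ) : ℝ) / 2 ^ a ≤ Real.sqrt (1 / ((a : ℝ) + 1)) := by
    intro a
    apply Real.le_sqrt_of_sq_le
    rw [div_pow, div_le_div_iff₀ (by positivity) (by positivity)]
    have h := choose_half_sq a
    have h2 : ((a : ℝ) + 1) * ((a.choose (a / 2) : ℕ) : ℝ) ^ 2 ≤ 4 ^ a := by exact_mod_cast h
    have h3 : ((2 : ℝ) ^ a) ^ 2 = 4 ^ a := by
      rw [← pow_mul, mul_comm, pow_mul]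
      norm_num
    rw [h3]
    linarith
  have h2 : Tendsto (fun a : ℕ => Real.sqrt (1 / ((a : ℝ) + 1))) atTop (𝓝 0) := by
    have h3 := (Real.continuous_sqrt.tendsto 0).comp (tendsto_one_div_add_atTop_nhds_zero_nat (𝕜 := ℝ))
    rw [Real.sqrt_zero] at h3
    exact h3
  exact squeeze_zero (fun a => by positivity) h1 h2

lemma near_half_card {α : Type*} (A : Finset α) (m : ℕ) :
    (A.powerset.filter (fun T => A.card < 2 * T.card + m ∧ 2 * T.card < A.card + m)).card ≤
      (2 * m + 1) * A.card.choose (A.card / 2) := by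
  classical
  have h1 : A.powerset.filter (fun T => A.card < 2 * T.card + m ∧ 2 * T.card < A.card + m) ⊆
      (Finset.Icc (A.card / 2 - m) (A.card / 2 + m)).biUnion (fun j => A.powersetCard j) := by
    intro T hT
    rw [mem_filter, mem_powerset] at hT
    rw [mem_biUnion]
    refine ⟨T.card, ?_, ?_⟩
    · rw [mem_Icc]
      omega
    · rw [mem_powersetCard]
      exact ⟨hT.1, rfl⟩
  calc _ ≤ _ := card_le_card h1
    _ ≤ ∑ j ∈ Finset.Icc (A.card / 2 - m) (A.card / 2 + m), (A.powersetCard j).card :=
        card_biUnion_le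
    _ ≤ ∑ j ∈ Finset.Icc (A.card / 2 - m) (A.card / 2 + m), A.card.choose (A.card / 2) := by
        apply sum_le_sum
        intro j _
        rw [card_powersetCard]
        exact Nat.choose_le_middle j A.card
    _ = (Finset.Icc (A.card / 2 - m) (A.card / 2 + m)).card * A.card.choose (A.card / 2) := by
        rw [sum_const, smul_eq_mul]
    _ ≤ (2 * m + 1) * A.card.choose (A.card / 2) := by
        apply Nat.mul_le_mul_right
        rw [Nat.card_Icc]
        omega

/-- averaging over a group of flips -/
lemma flip_avg {Ω : Type*} [Fintype Ω] {α : Type*} [DecidableEq α] (A : Finset α)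
    (act : Finset α → Ω → Ω) (hact : ∀ T G, act T (act T G) = G) (good : Ω → Prop)
    [DecidablePred good]
    (hgood : ∀ T ⊆ A, ∀ G, good G → good (act T G)) (Φ : Ω → Finset α) (hΦ : ∀ G, Φ G ⊆ A)
    (hΦ2 : ∀ T ⊆ A, ∀ G, good G → Φ (act T G) = symmDiff (Φ G) T) (P : Finset α → Prop)
    [DecidablePred P] :
    2 ^ A.card * (univ.filter (fun G => good G ∧ P (Φ G))).card =
      (univ.filter (fun G => good G)).card * (A.powerset.filter P).card := by
  have h1 : ∀ T ∈ A.powerset, (univ.filter (fun G => good G ∧ P (Φ G))).card =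
      (univ.filter (fun G => good G ∧ P (symmDiff (Φ G) T))).card := by
    intro T hT
    rw [mem_powerset] at hT
    apply card_bij' (fun G _ => act T G) (fun G _ => act T G)
    · intro G hG
      rw [mem_filter] at hG ⊢
      refine ⟨mem_univ _, hgood T hT G hG.2.1, ?_⟩
      rw [hΦ2 T hT G hG.2.1, symmDiff_symmDiff_cancel_right]
      exact hG.2.2
    · intro G hG
      rw [mem_filter] at hG ⊢
      refine ⟨mem_univ _, hgood T hT G hG.2.1, ?_⟩
      rw [hΦ2 T hT G hG.2.1]
      exact hG.2.2
    · intro G _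
      exact hact T G
    · intro G _
      exact hact T G
  have h2 : ∀ G, (A.powerset.filter (fun T => P (symmDiff (Φ G) T))).card =
      (A.powerset.filter P).card := by
    intro G
    apply card_bij' (fun T _ => symmDiff (Φ G) T) (fun T _ => symmDiff (Φ G) T)
    · intro T hT
      rw [mem_filter, mem_powerset] at hT ⊢
      refine ⟨?_, hT.2⟩
      intro a ha
      rw [mem_symmDiff] at ha
      rcases ha with ha | ha
      · exact hΦ G ha.1
      · exact hT.1 ha.1
    · intro T hT
      rw [mem_filter, mem_powerset] at hT ⊢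
      refine ⟨?_, ?_⟩
      · intro a ha
        rw [mem_symmDiff] at ha
        rcases ha with ha | ha
        · exact hΦ G ha.1
        · exact hT.1 ha.1
      · rw [symmDiff_symmDiff_cancel_left]
        exact hT.2
    · intro T _
      exact symmDiff_symmDiff_cancel_left _ _
    · intro T _
      exact symmDiff_symmDiff_cancel_left _ _
  calc 2 ^ A.card * (univ.filter (fun G => good G ∧ P (Φ G))).card
      = ∑ T ∈ A.powerset, (univ.filter (fun G => good G ∧ P (Φ G))).card := by
        rw [sum_const, card_powerset, smul_eq_mul]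
    _ = ∑ T ∈ A.powerset, (univ.filter (fun G => good G ∧ P (symmDiff (Φ G) T))).card :=
        sum_congr rfl h1
    _ = ∑ T ∈ A.powerset, ∑ G ∈ univ.filter (fun G => good G),
          (if P (symmDiff (Φ G) T) then 1 else 0) := by
        apply sum_congr rfl
        intro T _
        rw [card_filter, sum_filter]
        apply sum_congr rfl
        intro G _
        by_cases h : good G <;> simp [h]
    _ = ∑ G ∈ univ.filter (fun G => good G), (A.powerset.filter P).card := by
        rw [sum_comm]
        apply sum_congr rfl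
        intro G _
        rw [← h2 G, card_filter]
    _ = _ := by
        rw [sum_const, smul_eq_mul]

/-! ### the embedding -/

/-- forests of stars -/
def StarF {W : Type*} (H : SimpleGraph W) : Prop :=
  ∀ C : H.ConnectedComponent, ∃ v ∈ C.supp, ∀ a ∈ C.supp, ∀ b ∈ C.supp,
      (H.Adj a b ↔ a ≠ b ∧ (a = v ∨ b = v))

open Classical in
lemma embed {W V : Type*} [Fintype W] [Fintype V] (H : SimpleGraph W) (hH : StarF H)
    (G : SimpleGraph V) (J R : Finset V) (hJR : Disjoint J R) (hJ : Fintype.card W ≤ J.card)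
    (hN : ∀ v ∈ J, Fintype.card W ≤ (R.filter (fun u => G.Adj v u)).card) :
    H.IsContained G := by
  choose c hc1 hc2 using hH
  set ctr : W → W := fun w => c (H.connectedComponentMk w) with hctr
  have hfact : ∀ a b, H.Adj a b → ctr a = ctr b ∧ (a = ctr a ∨ b = ctr b) := by
    intro a b hab
    have h1 : H.connectedComponentMk a = H.connectedComponentMk b :=
      SimpleGraph.ConnectedComponent.sound hab.reachable
    refine ⟨by rw [hctr]; simp only [h1], ?_⟩
    have h2 := (hc2 (H.connectedComponentMk a) a rfl b h1.symm).1 hab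
    rcases h2.2 with h3 | h3
    · exact Or.inl h3
    · right
      rw [hctr]
      simp only
      rw [← h1]
      exact h3
  have hψ : Nonempty (W ↪ J) := by
    apply Function.Embedding.nonempty_of_card_le
    rwa [Fintype.card_coe]
  obtain ⟨ψ⟩ := hψ
  have hHall := (Finset.all_card_le_biUnion_card_iff_exists_injective
    (fun w : W => R.filter (fun u => G.Adj (ψ (ctr w)) u))).1 (by
      intro s
      rcases s.eq_empty_or_nonempty with rfl | ⟨w, hw⟩
      · simp
      · calc s.card ≤ Fintype.card W := card_le_univ s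
          _ ≤ (R.filter (fun u => G.Adj (ψ (ctr w)) u)).card := hN _ (ψ (ctr w)).2
          _ ≤ _ := card_le_card (subset_biUnion_of_mem
            (fun w : W => R.filter (fun u => G.Adj (ψ (ctr w)) u)) hw))
  obtain ⟨ρ, hρ1, hρ2⟩ := hHall
  have hρR : ∀ w, ρ w ∈ R := fun w => (mem_filter.1 (hρ2 w)).1
  have hρA : ∀ w, G.Adj (ψ (ctr w)) (ρ w) := fun w => (mem_filter.1 (hρ2 w)).2
  have hdisj : ∀ w w', ((ψ w : J) : V) ≠ ρ w' := by
    intro w w' h
    exact (disjoint_left.1 hJR) (ψ w).2 (h ▸ hρR w')
  set φ : W → V := fun w => if w = ctr w then (ψ w : V) else ρ w with hφ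
  have hinj : Injective φ := by
    intro a b hab
    rw [hφ] at hab
    simp only at hab
    split_ifs at hab with h1 h2 h2
    · exact ψ.injective (Subtype.ext hab)
    · exact absurd hab (hdisj _ _)
    · exact absurd hab.symm (hdisj _ _)
    · exact hρ1 hab
  have hadj : ∀ {a b}, H.Adj a b → G.Adj (φ a) (φ b) := by
    intro a b hab
    have aux : ∀ a b, H.Adj a b → a = ctr a → G.Adj (φ a) (φ b) := by
      intro a b hab ha
      have h1 := (hfact a b hab).1
      have h2 : b ≠ ctr b := by
        rw [← h1, ← ha]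
        exact hab.ne'
      rw [hφ]
      simp only
      rw [if_pos ha, if_neg h2]
      have h3 := hρA b
      rw [← h1, ← ha] at h3
      exact h3
    rcases (hfact a b hab).2 with h | h
    · exact aux a b hab h
    · exact (aux b a hab.symm h).symm
  exact ⟨⟨⟨φ, hadj⟩, hinj⟩⟩

end Pool.Agent.Helper47.HInt
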