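import Mathlib

open unitInterval

namespace Pool.Agent.Helper47.TD

/-- continuous logarithms on the square -/
lemma exists_log (F : I × I → ℂ) (hF : Continuous F) (h0 : ∀ q, F q ≠ 0) :
    ∃ L : I × I → ℂ, Continuous L ∧ ∀ q, Complex.exp (L q) = F q := by
  have cov := Complex.isCoveringMap_exp
  let H : C(I × I, {z : ℂ // z ≠ 0}) := ⟨fun q => ⟨F q, h0 q⟩, by fun_prop⟩
  let γ : C(I, {z : ℂ // z ≠ 0}) := ⟨fun t => ⟨F (0, t), h0 _⟩, by fun_prop⟩
  have hγ0 : γ 0 = (fun z : ℂ ↦ (⟨_, z.exp_ne_zero⟩ : {z : ℂ // z ≠ 0})) (Complex.log (F (0, 0))) := by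
    apply Subtype.ext
    exact (Complex.exp_log (h0 _)).symm
  have h1 := cov.liftPath_lifts γ _ hγ0
  let f : C(I, ℂ) := cov.liftPath γ _ hγ0
  have H_0 : ∀ a, H (0, a) = (fun z : ℂ ↦ (⟨_, z.exp_ne_zero⟩ : {z : ℂ // z ≠ 0})) (f a) := by
    intro a
    exact (congrFun h1 a).symm
  let L := cov.liftHomotopy H f H_0
  refine ⟨L, L.continuous, fun q => ?_⟩
  have h2 := congrFun (cov.liftHomotopy_lifts H f H_0) q
  exact congrArg Subtype.val h2

lemma change_unique (L L' : I → ℂ) (hL : Continuous L) (hL' : Continuous L')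
    (h : ∀ t, Complex.exp (L t) = Complex.exp (L' t)) : L 1 - L 0 = L' 1 - L' 0 := by
  have cov := Complex.isCoveringMap_exp
  have h1 : L = fun t => L' t + (L 0 - L' 0) := by
    apply cov.eq_of_comp_eq hL (by fun_prop) _ 0 (by simp)
    ext t
    simp only [Function.comp_apply]
    rw [Complex.exp_add, Complex.exp_sub, h 0, div_self (Complex.exp_ne_zero _), mul_one, h t]
  have h2 := congrFun h1 1
  rw [h2]
  ring

open Classical in
/-- total change of the logarithm along a path -/
noncomputable def chg (g : I → ℂ) : ℂ :=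
  if h : ∃ L : I → ℂ, Continuous L ∧ ∀ t, Complex.exp (L t) = g t then h.choose 1 - h.choose 0
  else 0

lemma chg_eq {g L : I → ℂ} (hL : Continuous L) (h : ∀ t, Complex.exp (L t) = g t) :
    chg g = L 1 - L 0 := by
  have hex : ∃ L : I → ℂ, Continuous L ∧ ∀ t, Complex.exp (L t) = g t := ⟨L, hL, h⟩
  unfold chg
  rw [dif_pos hex]
  apply change_unique _ _ hex.choose_spec.1 hL
  intro t
  rw [h t, hex.choose_spec.2 t]

lemma exists_log_path (g : I → ℂ) (hg : Continuous g) (h0 : ∀ t, g t ≠ 0) :
    ∃ L : I → ℂ, Continuous L ∧ ∀ t, Complex.exp (L t) = g t := by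
  obtain ⟨L, hL, hL2⟩ := exists_log (fun q => g q.1) (by fun_prop) (fun q => h0 _)
  exact ⟨fun t => L (t, 0), by fun_prop, fun t => hL2 (t, 0)⟩

lemma chg_neg {g : I → ℂ} (hg : Continuous g) (h0 : ∀ t, g t ≠ 0) :
    chg (fun t => - g t) = chg g := by
  obtain ⟨L, hL, hL2⟩ := exists_log_path g hg h0
  rw [chg_eq hL hL2, chg_eq (L := fun t => L t + Real.pi * Complex.I) (by fun_prop)]
  · ring
  · intro t
    rw [Complex.exp_add, Complex.exp_pi_mul_I, hL2]
    ring

lemma chg_exp {g : I → ℂ} (hg : Continuous g) (h0 : ∀ t, g t ≠ 0) :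
    Complex.exp (chg g) * g 0 = g 1 := by
  obtain ⟨L, hL, hL2⟩ := exists_log_path g hg h0
  rw [chg_eq hL hL2, ← hL2 0, ← hL2 1, ← Complex.exp_add]
  congr 1
  ring

lemma square {F : I × I → ℂ} (hF : Continuous F) (h0 : ∀ q, F q ≠ 0) :
    chg (fun s => F (s, 0)) + chg (fun t => F (1, t)) =
      chg (fun t => F (0, t)) + chg (fun s => F (s, 1)) := by
  obtain ⟨L, hL, hL2⟩ := exists_log F hF h0
  rw [chg_eq (L := fun s => L (s, 0)) (by fun_prop) (fun s => hL2 _),
    chg_eq (L := fun s => L (s, 1)) (by fun_prop) (fun s => hL2 _),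
    chg_eq (L := fun t => L (0, t)) (by fun_prop) (fun s => hL2 _),
    chg_eq (L := fun t => L (1, t)) (by fun_prop) (fun s => hL2 _)]
  ring

/-- square relation for two disjoint paths -/
lemma two_paths {γ δ : I → ℂ} (hγ : Continuous γ) (hδ : Continuous δ) (h : ∀ s t, γ s ≠ δ t) :
    chg (fun s => γ s - δ 0) + chg (fun t => δ t - γ 1) =
      chg (fun t => δ t - γ 0) + chg (fun s => γ s - δ 1) := by
  have h1 := square (F := fun q => γ q.1 - δ q.2) (by fun_prop) (fun q => sub_ne_zero.2 (h _ _))
  simp only at h1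
  have h2 : ∀ a : I, chg (fun t => γ a - δ t) = chg (fun t => δ t - γ a) := by
    intro a
    rw [← chg_neg (by fun_prop) (fun t => sub_ne_zero.2 (h a t).symm)]
    congr 1
    ext t
    ring
  rw [h2, h2] at h1
  exact h1

/-- chosen logarithms of differences -/
noncomputable def lam (p : Fin 5 → ℂ) (x y : Fin 5) : ℂ :=
  if x < y then Complex.log (p y - p x) else Complex.log (p x - p y) + Real.pi * Complex.I

/-- sign -/
def sg (x y : Fin 5) : ℤ := if x < y then 1 else -1

lemma lam_swap (p : Fin 5 → ℂ) {x y : Fin 5} (h : x ≠ y) :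
    lam p y x - lam p x y = (sg x y : ℂ) * (Real.pi * Complex.I) := by
  unfold lam sg
  rcases lt_or_gt_of_ne h with h1 | h1
  · rw [if_neg (not_lt.2 h1.le), if_pos h1, if_pos h1]
    push_cast
    ring
  · rw [if_pos h1, if_neg (not_lt.2 h1.le), if_neg (not_lt.2 h1.le)]
    push_cast
    ring

lemma exp_lam (p : Fin 5 → ℂ) (hp : Function.Injective p) {x y : Fin 5} (h : x ≠ y) :
    Complex.exp (lam p x y) = p y - p x := by
  unfold lam
  split_ifs with h1
  · exact Complex.exp_log (sub_ne_zero.2 (fun h2 => h (hp h2).symm))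
  · rw [Complex.exp_add, Complex.exp_pi_mul_I, Complex.exp_log (sub_ne_zero.2 (fun h2 => h (hp h2)))]
    ring

/-- **No weak drawing of `K₅`.** -/
theorem no_K5 (p : Fin 5 → ℂ) (hp : Function.Injective p) (γ : Fin 5 → Fin 5 → I → ℂ)
    (hc : ∀ a b, a < b → Continuous (γ a b)) (h0 : ∀ a b, a < b → γ a b 0 = p a)
    (h1 : ∀ a b, a < b → γ a b 1 = p b)
    (hd : ∀ a b c d, a < b → c < d → a ≠ c → a ≠ d → b ≠ c → b ≠ d → ∀ s t, γ a b s ≠ γ c d t) :
    False := by
  -- avoiding the other vertices
  have hv : ∀ a b c, a < b → c ≠ a → c ≠ b → ∀ s, γ a b s ≠ p c := by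
    intro a b c hab hca hcb s
    have : ∃ d : Fin 5, d ≠ a ∧ d ≠ b ∧ d ≠ c := by
      revert a b c
      decide
    obtain ⟨d, hda, hdb, hdc⟩ := this
    rcases lt_or_gt_of_ne hdc with h | h
    · rw [← h1 d c h]
      exact hd a b d c hab h hda.symm hca.symm hdb.symm hcb.symm s 1
    · rw [← h0 c d h]
      exact hd a b c d hab h hca.symm hda.symm hcb.symm hdb.symm s 0
  have hn : ∀ a b c : Fin 5, ∃ n : ℤ, (a < b → c ≠ a → c ≠ b →
      chg (fun s => γ a b s - p c) = lam p c b - lam p c a + n * (2 * Real.pi * Complex.I)) := by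
    intro a b c
    by_cases h : a < b ∧ c ≠ a ∧ c ≠ b
    · obtain ⟨hab, hca, hcb⟩ := h
      have hcont : Continuous (fun s => γ a b s - p c) := (hc a b hab).sub continuous_const
      have hne : ∀ s, γ a b s - p c ≠ 0 := fun s => sub_ne_zero.2 (hv a b c hab hca hcb s)
      have h2 := chg_exp hcont hne
      rw [h0 a b hab, h1 a b hab, ← exp_lam p hp hca, ← exp_lam p hp hcb, ← Complex.exp_add,
        Complex.exp_eq_exp_iff_exists_int] at h2
      obtain ⟨n, hn⟩ := h2
      refine ⟨n, fun _ _ _ => ?_⟩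
      linear_combination hn
    · exact ⟨0, fun h2 h3 h4 => absurd ⟨h2, h3, h4⟩ h⟩
  choose n hn using hn
  have key : ∀ a b c d : Fin 5, a < b → c < d → a ≠ c → a ≠ d → b ≠ c → b ≠ d →
      sg b c - sg a c + sg d b - sg d a + 2 * (n a b c + n c d b - n c d a - n a b d) = 0 := by
    intro a b c d hab hcd hac had hbc hbd
    have h2 := two_paths (hc a b hab) (hc c d hcd) (hd a b c d hab hcd hac had hbc hbd)
    rw [h0 a b hab, h0 c d hcd, h1 a b hab, h1 c d hcd] at h2
    rw [hn a b c hab hac.symm hbc.symm, hn c d b hcd hbc hbd, hn c d a hcd hac had,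
      hn a b d hab had.symm hbd.symm] at h2
    have e1 := lam_swap p hbc
    have e2 := lam_swap p hac
    have e3 := lam_swap p hbd.symm
    have e4 := lam_swap p had.symm
    have h3 : (((sg b c - sg a c + sg d b - sg d a + 2 * (n a b c + n c d b - n c d a - n a b d) :
        ℤ)) : ℂ) * (Real.pi * Complex.I) = 0 := by
      push_cast
      linear_combination h2 - e1 + e2 - e3 + e4
    have h4 : (Real.pi * Complex.I : ℂ) ≠ 0 :=
      mul_ne_zero (by exact_mod_cast Real.pi_ne_zero) Complex.I_ne_zero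
    have h5 := (mul_eq_zero.1 h3).resolve_right h4
    exact_mod_cast h5
  have k1 := key 0 1 2 3 (by decide) (by decide) (by decide) (by decide) (by decide) (by decide)
  have k2 := key 0 1 2 4 (by decide) (by decide) (by decide) (by decide) (by decide) (by decide)
  have k3 := key 0 1 3 4 (by decide) (by decide) (by decide) (by decide) (by decide) (by decide)
  have k4 := key 0 2 1 3 (by decide) (by decide) (by decide) (by decide) (by decide) (by decide)
  have k5 := key 0 2 1 4 (by decide) (by decide) (by decide) (by decide) (by decide) (by decide)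
  have k6 := key 0 2 3 4 (by decide) (by decide) (by decide) (by decide) (by decide) (by decide)
  have k7 := key 0 3 1 2 (by decide) (by decide) (by decide) (by decide) (by decide) (by decide)
  have k8 := key 0 3 1 4 (by decide) (by decide) (by decide) (by decide) (by decide) (by decide)
  have k9 := key 0 3 2 4 (by decide) (by decide) (by decide) (by decide) (by decide) (by decide)
  have k10 := key 0 4 1 2 (by decide) (by decide) (by decide) (by decide) (by decide) (by decide)
  have k11 := key 0 4 1 3 (by decide) (by decide) (by decide) (by decide) (by decide) (by decide)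
  have k12 := key 0 4 2 3 (by decide) (by decide) (by decide) (by decide) (by decide) (by decide)
  have k13 := key 1 2 3 4 (by decide) (by decide) (by decide) (by decide) (by decide) (by decide)
  have k14 := key 1 3 2 4 (by decide) (by decide) (by decide) (by decide) (by decide) (by decide)
  have k15 := key 1 4 2 3 (by decide) (by decide) (by decide) (by decide) (by decide) (by decide)
  have lt : ∀ a b : Fin 5, a < b → sg a b = 1 := fun a b h => if_pos h
  have gt : ∀ a b : Fin 5, b < a → sg a b = -1 := fun a b h => if_neg (not_lt.2 h.le)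
  have s01 := lt 0 1 (by decide)
  have s02 := lt 0 2 (by decide)
  have s03 := lt 0 3 (by decide)
  have s04 := lt 0 4 (by decide)
  have s12 := lt 1 2 (by decide)
  have s13 := lt 1 3 (by decide)
  have s14 := lt 1 4 (by decide)
  have s23 := lt 2 3 (by decide)
  have s24 := lt 2 4 (by decide)
  have s34 := lt 3 4 (by decide)
  have s10 := gt 1 0 (by decide)
  have s20 := gt 2 0 (by decide)
  have s30 := gt 3 0 (by decide)
  have s40 := gt 4 0 (by decide)
  have s21 := gt 2 1 (by decide)
  have s31 := gt 3 1 (by decide)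
  have s41 := gt 4 1 (by decide)
  have s32 := gt 3 2 (by decide)
  have s42 := gt 4 2 (by decide)
  have s43 := gt 4 3 (by decide)
  omega

end Pool.Agent.Helper47.TD
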