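import Mathlib

open Finset

set_option linter.unusedSectionVars false

namespace Pool.Agent.Helper47.TD

variable {V : Type*} [Fintype V] [DecidableEq V]

/-- sum of `w` over the sets containing `e` -/
def inci {R : Type*} [AddCommMonoid R] (w : Finset V → R) (e : Finset V) : R :=
  ∑ T ∈ univ.filter (fun T => e ⊆ T), w T

lemma inci_add {R : Type*} [AddCommMonoid R] (w w' : Finset V → R) (e : Finset V) :
    inci (fun T => w T + w' T) e = inci w e + inci w' e := sum_add_distrib

lemma inci_sub {R : Type*} [AddCommGroup R] (w w' : Finset V → R) (e : Finset V) :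
    inci (fun T => w T - w' T) e = inci w e - inci w' e := sum_sub_distrib _ _

lemma inci_mul {R : Type*} [Ring R] (c : R) (w : Finset V → R) (e : Finset V) :
    inci (fun T => c * w T) e = c * inci w e := by
  unfold inci
  rw [mul_sum]

lemma inci_cast (w : Finset V → ℤ) (e : Finset V) :
    inci (fun T => (w T : ℚ)) e = ((inci w e : ℤ) : ℚ) := by
  unfold inci
  push_cast
  rfl

lemma inci_single {R : Type*} [AddCommMonoid R] (D : Finset V) (c : R) (e : Finset V) :
    inci (fun T => if T = D then c else 0) e = if e ⊆ D then c else 0 := by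
  unfold inci
  rw [sum_filter]
  have : ∀ T : Finset V, (if e ⊆ T then (if T = D then c else 0) else 0) =
      if T = D then (if e ⊆ D then c else 0) else 0 := by
    intro T
    by_cases h1 : T = D
    · subst h1; simp
    · simp [h1]
  rw [sum_congr rfl fun T _ => this T]
  simp

lemma inci_zero {R : Type*} [AddCommMonoid R] {w : Finset V → R} {e : Finset V}
    (h : ∀ T, e ⊆ T → w T = 0) : inci w e = 0 := by
  unfold inci
  apply sum_eq_zero
  intro T hT
  exact h T (mem_filter.1 hT).2

/-- supported on `P` -/
lemma inci_supp {R : Type*} [AddCommMonoid R] {w : Finset V → R} {P : Finset (Finset V)}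
    (h : ∀ T, T ∉ P → w T = 0) (e : Finset V) :
    inci w e = ∑ T ∈ P.filter (fun T => e ⊆ T), w T := by
  unfold inci
  symm
  apply sum_subset
  · intro T hT
    rw [mem_filter] at hT ⊢
    exact ⟨mem_univ _, hT.2⟩
  · intro T hT hT2
    rw [mem_filter] at hT hT2
    apply h
    intro h2
    exact hT2 ⟨h2, hT.2⟩

/-- degree identity -/
lemma deg_identity {g : Finset V → ℤ} (hg : ∀ T, g T ≠ 0 → T.card = 3) (d : V) :
    ∑ v ∈ univ.erase d, inci g {d, v} = 2 * ∑ T ∈ univ.filter (fun T => d ∈ T), g T := by
  unfold inci
  have h1 : ∀ v, (∑ T ∈ univ.filter (fun T => ({d, v} : Finset V) ⊆ T), g T) =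
      ∑ T : Finset V, if ({d, v} : Finset V) ⊆ T then g T else 0 := fun v => sum_filter _ _
  rw [sum_congr rfl fun v _ => h1 v, sum_comm, mul_sum, sum_filter]
  apply sum_congr rfl
  intro T _
  by_cases hT : g T = 0
  · simp [hT]
  · have hc := hg T hT
    by_cases hd : d ∈ T
    · rw [if_pos hd]
      have h2 : ∀ v ∈ univ.erase d, (if ({d, v} : Finset V) ⊆ T then g T else 0) =
          if v ∈ T.erase d then g T else 0 := by
        intro v hv
        rw [mem_erase] at hv
        by_cases hvT : v ∈ T
        · rw [if_pos, if_pos]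
          · rw [mem_erase]; exact ⟨hv.1, hvT⟩
          · intro a ha
            rw [mem_insert, mem_singleton] at ha
            rcases ha with rfl | rfl <;> assumption
        · rw [if_neg, if_neg]
          · rw [mem_erase]; exact fun h => hvT h.2
          · intro h
            exact hvT (h (by simp))
      rw [sum_congr rfl h2, ← sum_filter]
      have h3 : (univ.erase d).filter (fun v => v ∈ T.erase d) = T.erase d := by
        ext v
        simp only [mem_filter, mem_erase, mem_univ, and_true]
        tauto
      rw [h3, sum_const, card_erase_of_mem hd, hc]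
      simp
    · rw [if_neg hd]
      apply sum_eq_zero
      intro v _
      rw [if_neg]
      intro h
      exact hd (h (by simp))

/-- total identity -/
lemma total_identity {g : Finset V → ℤ} (hg : ∀ T, g T ≠ 0 → T.card = 3) :
    ∑ e ∈ univ.filter (fun e : Finset V => e.card = 2), inci g e = 3 * ∑ T, g T := by
  unfold inci
  have h1 : ∀ e : Finset V, (∑ T ∈ univ.filter (fun T => e ⊆ T), g T) =
      ∑ T : Finset V, if e ⊆ T then g T else 0 := fun v => sum_filter _ _
  rw [sum_congr rfl fun e _ => h1 e, sum_comm, mul_sum]
  apply sum_congr rfl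
  intro T _
  by_cases hT : g T = 0
  · simp [hT]
  · have hc := hg T hT
    rw [← sum_filter, filter_filter]
    have h3 : univ.filter (fun e : Finset V => e.card = 2 ∧ e ⊆ T) = T.powersetCard 2 := by
      ext e
      simp only [mem_filter, mem_univ, true_and, mem_powersetCard]
      tauto
    rw [h3, sum_const, card_powersetCard, hc]
    simp [Nat.choose]

/-- the part of the data describing one piece -/
structure Piece (C D : Finset V) (P : Finset (Finset V)) : Prop where
  disj : Disjoint C D
  three : ∀ T ∈ P, T.card = 3
  sub : ∀ T ∈ P, T ⊆ C ∪ D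
  meets : ∀ T ∈ P, ¬ Disjoint T C
  two : ∀ e, e.card = 2 → ¬ Disjoint e C → (P.filter (fun T => e ⊆ T)).card ≤ 2
  one : ∀ e, e.card = 2 → e ⊆ D → (P.filter (fun T => e ⊆ T)).card ≤ 1
  hD : D = ∅ ∨ D.card = 3

lemma Piece.edge_sub {C D : Finset V} {P : Finset (Finset V)} (hP : Piece C D P) {e T : Finset V}
    (hT : T ∈ P) (he : e ⊆ T) (hC : Disjoint e C) : e ⊆ D := by
  intro a ha
  have h1 := hP.sub T hT (he ha)
  rw [mem_union] at h1
  rcases h1 with h1 | h1
  · exact absurd h1 (disjoint_left.1 hC ha)
  · exact h1

lemma Piece.zero_other {C D : Finset V} {P : Finset (Finset V)} (hP : Piece C D P)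
    {R : Type*} [AddCommMonoid R] {w : Finset V → R} (hw : ∀ T, T ∉ P → w T = 0) {e : Finset V}
    (hC : Disjoint e C) (hD : ¬ e ⊆ D) : inci w e = 0 := by
  apply inci_zero
  intro T hT
  by_contra h
  have h1 : T ∈ P := by
    by_contra h2
    exact h (hw T h2)
  exact hD (hP.edge_sub h1 hT hC)

/-- parity on the boundary triangle -/
lemma Piece.parity {C D : Finset V} {P : Finset (Finset V)} (hP : Piece C D P)
    {g : Finset V → ℤ} (hg : ∀ T, T ∉ P → g T = 0)
    (hC : ∀ e, e.card = 2 → ¬ Disjoint e C → (2 : ℤ) ∣ inci g e) {d d1 d2 : V}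
    (hD : D = {d, d1, d2}) (h1 : d ≠ d1) (h2 : d ≠ d2) (h3 : d1 ≠ d2) :
    (2 : ℤ) ∣ inci g {d, d1} + inci g {d, d2} := by
  have hid := deg_identity (g := g) (fun T hT => by
    apply hP.three
    by_contra h
    exact hT (hg T h)) d
  have hsplit : ∑ v ∈ univ.erase d, inci g {d, v} =
      inci g {d, d1} + (inci g {d, d2} + ∑ v ∈ ((univ.erase d).erase d1).erase d2, inci g {d, v}) := by
    rw [← add_sum_erase (univ.erase d) _ (show d1 ∈ univ.erase d by simp [h1.symm]),
      ← add_sum_erase ((univ.erase d).erase d1) _
        (show d2 ∈ (univ.erase d).erase d1 by simp [h2.symm, h3.symm])]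
  have hrest : (2 : ℤ) ∣ ∑ v ∈ ((univ.erase d).erase d1).erase d2, inci g {d, v} := by
    apply dvd_sum
    intro v hv
    simp only [mem_erase, mem_univ, and_true] at hv
    have hc2 : ({d, v} : Finset V).card = 2 := card_pair hv.2.2.symm
    by_cases hdis : Disjoint ({d, v} : Finset V) C
    · rw [hP.zero_other hg hdis]
      · exact dvd_zero 2
      · intro hsub
        have := hsub (show v ∈ ({d, v} : Finset V) by simp)
        rw [hD] at this
        simp only [mem_insert, mem_singleton] at this
        rcases this with h | h | h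
        · exact hv.2.2 h
        · exact hv.2.1 h
        · exact hv.1 h
    · exact hC _ hc2 hdis
  rw [hsplit] at hid
  have : (2 : ℤ) ∣ 2 * ∑ T ∈ univ.filter (fun T => d ∈ T), g T := dvd_mul_right _ _
  rw [← hid] at this
  omega

/-- uniform parity on the boundary triangle -/
lemma Piece.parity_all {C D : Finset V} {P : Finset (Finset V)} (hP : Piece C D P)
    {g : Finset V → ℤ} (hg : ∀ T, T ∉ P → g T = 0)
    (hC : ∀ e, e.card = 2 → ¬ Disjoint e C → (2 : ℤ) ∣ inci g e) :
    ∃ η : ℤ, ∀ e, e.card = 2 → e ⊆ D → (2 : ℤ) ∣ inci g e - η := by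
  rcases hP.hD with hD | hD
  · refine ⟨0, fun e he heD => ?_⟩
    rw [hD, subset_empty] at heD
    rw [heD] at he
    simp at he
  · obtain ⟨a, b, c, hab, hac, hbc, rfl⟩ := card_eq_three.1 hD
    have p1 := hP.parity hg hC (d := a) (d1 := b) (d2 := c) rfl hab hac hbc
    have p2 := hP.parity hg hC (d := b) (d1 := a) (d2 := c) (by ext v; simp; tauto) hab.symm hbc hac
    have e1 : ({b, a} : Finset V) = {a, b} := pair_comm _ _
    rw [e1] at p2
    refine ⟨inci g {a, b}, fun e he heD => ?_⟩
    have h3 : e = {a, b} ∨ e = {a, c} ∨ e = {b, c} := by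
      obtain ⟨x, y, hxy, rfl⟩ := card_eq_two.1 he
      have hx := heD (show x ∈ ({x, y} : Finset V) by simp)
      have hy := heD (show y ∈ ({x, y} : Finset V) by simp)
      simp only [mem_insert, mem_singleton] at hx hy
      rcases hx with rfl | rfl | rfl <;> rcases hy with rfl | rfl | rfl
      · exact absurd rfl hxy
      · exact Or.inl rfl
      · exact Or.inr (Or.inl rfl)
      · exact Or.inl (pair_comm _ _)
      · exact absurd rfl hxy
      · exact Or.inr (Or.inr rfl)
      · exact Or.inr (Or.inl (pair_comm _ _))
      · exact Or.inr (Or.inr (pair_comm _ _))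
      · exact absurd rfl hxy
    rcases h3 with rfl | rfl | rfl
    · simp
    · omega
    · omega

/-- signs on the boundary triangle -/
lemma Piece.signs {C D : Finset V} {P : Finset (Finset V)} (hP : Piece C D P)
    {g : Finset V → ℤ} (hg : ∀ T, T ∉ P → g T = 0) (hg1 : ∀ T, g T = -1 ∨ g T = 0 ∨ g T = 1)
    (hC : ∀ e, e.card = 2 → ¬ Disjoint e C → inci g e = 0) :
    ∃ s : ℤ, ∀ e, e.card = 2 → e ⊆ D → inci g e = s := by
  rcases hP.hD with hD | hD
  · refine ⟨0, fun e he heD => ?_⟩
    rw [hD, subset_empty] at heD
    rw [heD] at he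
    simp at he
  · obtain ⟨a, b, c, hab, hac, hbc, rfl⟩ := card_eq_three.1 hD
    have hC2 : ∀ e, e.card = 2 → ¬ Disjoint e C → (2 : ℤ) ∣ inci g e := by
      intro e h1 h2
      rw [hC e h1 h2]
      exact dvd_zero 2
    have p1 := hP.parity hg hC2 (d := a) (d1 := b) (d2 := c) rfl hab hac hbc
    have p2 := hP.parity hg hC2 (d := b) (d1 := a) (d2 := c) (by ext v; simp; tauto) hab.symm hbc hac
    have e1 : ({b, a} : Finset V) = {a, b} := pair_comm _ _
    rw [e1] at p2
    have hval : ∀ e, e.card = 2 → e ⊆ ({a, b, c} : Finset V) →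
        inci g e = -1 ∨ inci g e = 0 ∨ inci g e = 1 := by
      intro e he heD
      have h1 := hP.one e he heD
      rw [inci_supp hg e]
      rcases Nat.le_one_iff_eq_zero_or_eq_one.1 h1 with h2 | h2
      · rw [card_eq_zero] at h2
        rw [h2]
        simp
      · rw [card_eq_one] at h2
        obtain ⟨T, hT⟩ := h2
        rw [hT, sum_singleton]
        exact hg1 T
    have hall : ∀ e : Finset V, e.card = 2 → e ⊆ ({a, b, c} : Finset V) →
        e = {a, b} ∨ e = {a, c} ∨ e = {b, c} := by
      intro e he heD
      obtain ⟨x, y, hxy, rfl⟩ := card_eq_two.1 he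
      have hx := heD (show x ∈ ({x, y} : Finset V) by simp)
      have hy := heD (show y ∈ ({x, y} : Finset V) by simp)
      simp only [mem_insert, mem_singleton] at hx hy
      rcases hx with rfl | rfl | rfl <;> rcases hy with rfl | rfl | rfl
      · exact absurd rfl hxy
      · exact Or.inl rfl
      · exact Or.inr (Or.inl rfl)
      · exact Or.inl (pair_comm _ _)
      · exact absurd rfl hxy
      · exact Or.inr (Or.inr rfl)
      · exact Or.inr (Or.inl (pair_comm _ _))
      · exact Or.inr (Or.inr (pair_comm _ _))
      · exact absurd rfl hxy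
    have htot := total_identity (g := g) (fun T hT => by
      apply hP.three
      by_contra h
      exact hT (hg T h))
    have hsum : ∑ e ∈ univ.filter (fun e : Finset V => e.card = 2), inci g e =
        ∑ e ∈ ({({a, b} : Finset V), {a, c}, {b, c}} : Finset (Finset V)), inci g e := by
      symm
      apply sum_subset
      · intro e he
        simp only [mem_insert, mem_singleton] at he
        rw [mem_filter]
        refine ⟨mem_univ _, ?_⟩
        rcases he with rfl | rfl | rfl
        · exact card_pair hab
        · exact card_pair hac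
        · exact card_pair hbc
      · intro e he he2
        rw [mem_filter] at he
        by_cases hdis : Disjoint e C
        · apply hP.zero_other hg hdis
          intro hsub
          apply he2
          simp only [mem_insert, mem_singleton]
          exact hall e he.2 hsub
        · exact hC e he.2 hdis
    have ne1 : ({a, b} : Finset V) ≠ {a, c} := by
      intro h
      have : b ∈ ({a, c} : Finset V) := by rw [← h]; simp
      simp only [mem_insert, mem_singleton] at this
      rcases this with h | h
      · exact hab h.symm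
      · exact hbc h
    have ne2 : ({a, b} : Finset V) ≠ {b, c} := by
      intro h
      have : a ∈ ({b, c} : Finset V) := by rw [← h]; simp
      simp only [mem_insert, mem_singleton] at this
      rcases this with h | h
      · exact hab h
      · exact hac h
    have ne3 : ({a, c} : Finset V) ≠ {b, c} := by
      intro h
      have : a ∈ ({b, c} : Finset V) := by rw [← h]; simp
      simp only [mem_insert, mem_singleton] at this
      rcases this with h | h
      · exact hab h
      · exact hac h
    rw [hsum, sum_insert (by simp [ne1, ne2]), sum_insert (by simp [ne3]), sum_singleton] at htot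
    have v1 := hval {a, b} (card_pair hab) (by intro x; simp; tauto)
    have v2 := hval {a, c} (card_pair hac) (by intro x; simp; tauto)
    have v3 := hval {b, c} (card_pair hbc) (by intro x; simp; tauto)
    refine ⟨inci g {a, b}, fun e he heD => ?_⟩
    rcases hall e he heD with rfl | rfl | rfl
    · rfl
    · omega
    · omega

end Pool.Agent.Helper47.TD
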