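import Pool.Agent.Helper47.TD2

open Finset

set_option linter.unusedSectionVars false

namespace Pool.Agent.Helper47.TD

variable {V : Type*} [Fintype V] [DecidableEq V]

/-- two-element analysis of a `C`-edge -/
lemma Piece.edge_cases {C D : Finset V} {P : Finset (Finset V)} (hP : Piece C D P) {e : Finset V}
    (he : e.card = 2) (heC : ¬ Disjoint e C) :
    (P.filter (fun T => e ⊆ T) = ∅) ∨ (∃ T ∈ P, e ⊆ T ∧ P.filter (fun T => e ⊆ T) = {T}) ∨
      (∃ T ∈ P, ∃ T' ∈ P, T ≠ T' ∧ P.filter (fun T => e ⊆ T) = {T, T'}) := by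
  have h := hP.two e he heC
  have h3 : (P.filter (fun T => e ⊆ T)).card = 0 ∨ (P.filter (fun T => e ⊆ T)).card = 1 ∨
      (P.filter (fun T => e ⊆ T)).card = 2 := by omega
  rcases h3 with h3 | h3 | h3
  · left
    exact card_eq_zero.1 h3
  · right; left
    obtain ⟨T, hT⟩ := card_eq_one.1 h3
    have : T ∈ P.filter (fun T => e ⊆ T) := by rw [hT]; simp
    rw [mem_filter] at this
    exact ⟨T, this.1, this.2, hT⟩
  · right; right
    obtain ⟨T, T', hne, hT⟩ := card_eq_two.1 h3
    have m1 : T ∈ P.filter (fun T => e ⊆ T) := by rw [hT]; simp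
    have m2 : T' ∈ P.filter (fun T => e ⊆ T) := by rw [hT]; simp
    rw [mem_filter] at m1 m2
    exact ⟨T, m1.1, T', m2.1, hne, hT⟩

/-- the boundary values of a real kernel element -/
lemma Piece.boundary {C D : Finset V} {P : Finset (Finset V)} (hP : Piece C D P)
    {φ : Finset V → ℚ} (hφ : ∀ T, T ∉ P → φ T = 0)
    (hC : ∀ e, e.card = 2 → ¬ Disjoint e C → inci φ e = 0) :
    ∃ τ : ℚ, (∀ e, e.card = 2 → e ⊆ D → inci φ e = τ) ∧
      (τ ≠ 0 → ∃ z : Finset V → ℤ, (∀ T, φ T = 0 → z T = 0) ∧
        (∀ e, e.card = 2 → ¬ Disjoint e C → inci z e = 0) ∧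
        (∀ e, e.card = 2 → e ⊆ D → inci z e = 1)) := by
  classical
  by_cases hall : ∀ e, e.card = 2 → e ⊆ D → inci φ e = 0
  · exact ⟨0, hall, fun h => absurd rfl h⟩
  push Not at hall
  obtain ⟨e0, he0, he0D, hne⟩ := hall
  set τ := inci φ e0 with hτ
  set g : Finset V → ℤ := fun T => if φ T = τ then 1 else if φ T = -τ then -1 else 0 with hg
  have hτ2 : τ ≠ -τ := by
    intro h
    apply hne
    linarith
  have hgP : ∀ T, T ∉ P → g T = 0 := by
    intro T hT
    rw [hg]
    simp only
    rw [hφ T hT, if_neg (fun h => hne h.symm), if_neg]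
    intro h
    apply hne
    linarith
  have hg0 : ∀ T, φ T = 0 → g T = 0 := by
    intro T hT
    rw [hg]
    simp only
    rw [hT, if_neg (fun h => hne h.symm), if_neg]
    intro h
    apply hne
    linarith
  have hg1 : ∀ T, g T = -1 ∨ g T = 0 ∨ g T = 1 := by
    intro T
    rw [hg]
    simp only
    split_ifs <;> simp
  have hgC : ∀ e, e.card = 2 → ¬ Disjoint e C → inci g e = 0 := by
    intro e he heC
    have h1 := hC e he heC
    rw [inci_supp hφ] at h1
    rw [inci_supp hgP]
    rcases hP.edge_cases he heC with h2 | ⟨T, hT, hT2, h2⟩ | ⟨T, hT, T', hT', hne', h2⟩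
    · rw [h2]; simp
    · rw [h2, sum_singleton] at h1 ⊢
      exact hg0 T h1
    · rw [h2, sum_pair hne'] at h1 ⊢
      have h3 : φ T' = - φ T := by linarith
      rw [hg]
      simp only
      rw [h3]
      by_cases h4 : φ T = τ
      · rw [h4, if_pos rfl, if_neg (fun h => hτ2 h.symm), if_pos rfl]
        norm_num
      · by_cases h5 : φ T = -τ
        · rw [h5, if_neg (fun h => hτ2 h.symm), if_pos rfl, neg_neg, if_pos rfl]
          norm_num
        · rw [if_neg h4, if_neg h5, if_neg, if_neg]
          · norm_num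
          · intro h; apply h4; linarith
          · intro h; apply h5; linarith
  obtain ⟨s, hs⟩ := hP.signs hgP hg1 hgC
  -- for boundary edges the value of φ and g are related
  have hrel : ∀ e, e.card = 2 → e ⊆ D → (inci g e = 1 ↔ inci φ e = τ) := by
    intro e he heD
    have h1 := hP.one e he heD
    rw [inci_supp hgP e, inci_supp hφ e]
    rcases Nat.le_one_iff_eq_zero_or_eq_one.1 h1 with h2 | h2
    · rw [card_eq_zero] at h2
      rw [h2, sum_empty, sum_empty]
      constructor
      · intro h; exact absurd h (by norm_num)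
      · intro h; exact absurd h.symm hne
    · rw [card_eq_one] at h2
      obtain ⟨T, hT⟩ := h2
      rw [hT, sum_singleton, sum_singleton]
      rw [hg]
      simp only
      constructor
      · intro h
        split_ifs at h with h3 h4
        · exact h3
        · exact absurd h (by norm_num)
      · intro h
        rw [if_pos h]
  have hs1 : s = 1 := by
    rw [← hs e0 he0 he0D]
    exact (hrel e0 he0 he0D).2 rfl
  refine ⟨τ, ?_, fun _ => ⟨g, hg0, hgC, ?_⟩⟩
  · intro e he heD
    rw [← hrel e he heD, hs e he heD, hs1]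
  · intro e he heD
    rw [hs e he heD, hs1]

/-- rounding `w` modulo the kernel -/
lemma Piece.shift {C D : Finset V} {P : Finset (Finset V)} (hP : Piece C D P)
    {w : Finset V → ℚ} (hw : ∀ T, T ∉ P → w T = 0) (b : Finset V → ℤ)
    (hb : ∀ e, e.card = 2 → ¬ Disjoint e C → inci w e = b e)
    (x : Finset V → ℤ) (hx : ∀ T, T ∉ P → x T = 0)
    (hbx : ∀ e, e.card = 2 → ¬ Disjoint e C → (2 : ℤ) ∣ b e - inci x e) :
    ∃ (φ : Finset V → ℚ) (k : Finset V → ℤ), (∀ T, w T = 0 → φ T = 0) ∧
      (∀ T, w T - φ T = k T) ∧ (∀ e, e.card = 2 → ¬ Disjoint e C → inci φ e = 0) := by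
  classical
  set φ : Finset V → ℚ := fun T => if w T = 0 then 0 else
    if Int.fract (w T) = 1 / 2 then (if Even (⌊w T⌋ + x T) then 1 / 2 else - (1 / 2))
    else w T - round (w T) with hφ
  have hint : ∀ T, ∃ k : ℤ, w T - φ T = k := by
    intro T
    rw [hφ]
    simp only
    split_ifs with h1 h2 h3
    · exact ⟨0, by rw [h1]; simp⟩
    · refine ⟨⌊w T⌋, ?_⟩
      have h4 := Int.floor_add_fract (w T)
      linarith
    · refine ⟨⌊w T⌋ + 1, ?_⟩
      have h4 := Int.floor_add_fract (w T)
      push_cast
      linarith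
    · exact ⟨round (w T), by ring⟩
  choose k hk using hint
  have h0 : ∀ T, w T = 0 → φ T = 0 := by
    intro T hT
    rw [hφ]
    simp [hT]
  refine ⟨φ, k, h0, hk, ?_⟩
  intro e he heC
  have hφP : ∀ T, T ∉ P → φ T = 0 := fun T hT => h0 T (hw T hT)
  have h1 := hb e he heC
  have h2 := hbx e he heC
  rw [inci_supp hw] at h1
  rw [inci_supp hx] at h2
  rw [inci_supp hφP]
  rcases hP.edge_cases he heC with h3 | ⟨T, hT, hT2, h3⟩ | ⟨T, hT, T', hT', hne, h3⟩
  · rw [h3]; simp
  · rw [h3, sum_singleton] at h1 ⊢
    have hfr : Int.fract (w T) = 0 := by rw [h1]; simp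
    rw [hφ]
    simp only
    split_ifs with h4 h5 h6
    · rfl
    · rw [hfr] at h5; norm_num at h5
    · rw [hfr] at h5; norm_num at h5
    · rw [h1]; simp
  · rw [h3, sum_pair hne] at h1 h2 ⊢
    -- the two rational numbers add to an integer
    have ha := Int.floor_add_fract (w T)
    have hb' := Int.floor_add_fract (w T')
    have f0 := Int.fract_nonneg (w T)
    have f1 := Int.fract_lt_one (w T)
    have g0 := Int.fract_nonneg (w T')
    have g1 := Int.fract_lt_one (w T')
    set A : ℤ := ⌊w T⌋ with hA
    set B : ℤ := ⌊w T'⌋ with hB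
    set α := Int.fract (w T) with hα
    set β := Int.fract (w T') with hβ
    have hsum : α + β = ((b e - A - B : ℤ) : ℚ) := by push_cast; linarith
    have hsum2 : b e - A - B = 0 ∨ b e - A - B = 1 := by
      have l1 : (0 : ℚ) ≤ ((b e - A - B : ℤ) : ℚ) := by rw [← hsum]; linarith
      have l2 : ((b e - A - B : ℤ) : ℚ) < ((2 : ℤ) : ℚ) := by rw [← hsum]; push_cast; linarith
      have l3 : (0 : ℤ) ≤ b e - A - B := by exact_mod_cast l1
      have l4 : b e - A - B < 2 := by exact_mod_cast l2
      omega
    by_cases hhalf : α = 1 / 2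
    · -- both are half integers
      have hβ2 : β = 1 / 2 := by
        rcases hsum2 with h4 | h4
        · rw [h4] at hsum; push_cast at hsum; linarith
        · rw [h4] at hsum; push_cast at hsum; linarith
      have hone : b e - A - B = 1 := by
        rcases hsum2 with h4 | h4
        · rw [h4] at hsum; push_cast at hsum; linarith
        · exact h4
      have hw1 : w T ≠ 0 := by
        intro h
        rw [h] at hα
        rw [hα] at hhalf
        norm_num at hhalf
      have hw2 : w T' ≠ 0 := by
        intro h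
        rw [h] at hβ
        rw [hβ] at hβ2
        norm_num at hβ2
      rw [hφ]
      simp only
      rw [if_neg hw1, if_neg hw2, ← hα, ← hβ, if_pos hhalf, if_pos hβ2, ← hA, ← hB]
      have hpar : Even (A + x T) ↔ ¬ Even (B + x T') := by
        rw [Int.even_iff, Int.even_iff]
        omega
      by_cases h5 : Even (A + x T)
      · rw [if_pos h5, if_neg (hpar.1 h5)]; norm_num
      · rw [if_neg h5, if_pos]
        · norm_num
        · by_contra h6
          exact h5 (hpar.2 h6)
    · have hβ2 : β ≠ 1 / 2 := by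
        intro h
        apply hhalf
        rcases hsum2 with h4 | h4
        · rw [h4] at hsum; push_cast at hsum; linarith
        · rw [h4] at hsum; push_cast at hsum; linarith
      -- φ = w - round w
      have hφT : ∀ T, Int.fract (w T) ≠ 1 / 2 → φ T = w T - round (w T) := by
        intro T hT
        rw [hφ]
        simp only
        split_ifs with h4
        · rw [h4]; simp
        · rfl
      have hround : ∀ T, Int.fract (w T) ≠ 1 / 2 → |w T - round (w T)| < 1 / 2 := by
        intro T hT
        rw [abs_sub_round_eq_min]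
        rcases lt_or_gt_of_ne hT with h4 | h4
        · exact lt_of_le_of_lt (min_le_left _ _) h4
        · exact lt_of_le_of_lt (min_le_right _ _) (by linarith)
      rw [hφT T hhalf, hφT T' hβ2]
      have r1 := abs_lt.1 (hround T hhalf)
      have r2 := abs_lt.1 (hround T' hβ2)
      have hz : w T - round (w T) + (w T' - round (w T')) =
          ((b e - round (w T) - round (w T') : ℤ) : ℚ) := by
        push_cast
        linarith
      rw [hz] 
      have l1 : ((-1 : ℤ) : ℚ) < ((b e - round (w T) - round (w T') : ℤ) : ℚ) := by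
        rw [← hz]; push_cast; linarith
      have l2 : ((b e - round (w T) - round (w T') : ℤ) : ℚ) < ((1 : ℤ) : ℚ) := by
        rw [← hz]; push_cast; linarith
      have l3 : (-1 : ℤ) < b e - round (w T) - round (w T') := by exact_mod_cast l1
      have l4 : b e - round (w T) - round (w T') < 1 := by exact_mod_cast l2
      have l5 : b e - round (w T) - round (w T') = 0 := by omega
      rw [l5]
      norm_num

end Pool.Agent.Helper47.TD
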