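import Pool.Agent.Helper47.TD3

open Finset

set_option linter.unusedSectionVars false

namespace Pool.Agent.Helper47.TD

variable {V : Type*} [Fintype V] [DecidableEq V]

/-- `x` and `y` lie in different parts of `G - T` -/
def Split (G : SimpleGraph V) (T : Finset V) (x y : V) : Prop :=
  ∃ R : Set V, x ∈ R ∧ y ∉ R ∧ ∀ a ∈ R, ∀ b, b ∉ T → G.Adj a b → b ∈ R

/-- the only consequence of planarity that is used -/
def P5 (G : SimpleGraph V) : Prop :=
  ∀ u v x y z : V, x ≠ y → x ≠ z → y ≠ z → G.Adj u v → G.Adj u x → G.Adj u y → G.Adj u z →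
    G.Adj v x → G.Adj v y → G.Adj v z →
    Split G {u, v, x} y z ∨ Split G {u, v, y} x z ∨ Split G {u, v, z} x y

open Classical in
/-- triangles inside `U` -/
noncomputable def tri (G : SimpleGraph V) (U : Finset V) : Finset (Finset V) :=
  univ.filter (fun T => G.IsNClique 3 T ∧ T ⊆ U)

lemma mem_tri {G : SimpleGraph V} {U T : Finset V} : T ∈ tri G U ↔ G.IsNClique 3 T ∧ T ⊆ U := by
  unfold tri
  simp

/-- two closed parts of `U - T1` -/
structure Parts (G : SimpleGraph V) (U T1 R1 R2 : Finset V) : Prop where
  cl : G.IsNClique 3 T1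
  T1U : T1 ⊆ U
  R1U : R1 ⊆ U \ T1
  R2U : R2 ⊆ U \ T1
  dis : Disjoint R1 R2
  ne1 : R1.Nonempty
  ne2 : R2.Nonempty
  c1 : ∀ a ∈ R1, ∀ b ∈ U \ T1, G.Adj a b → b ∈ R1
  c2 : ∀ a ∈ R2, ∀ b ∈ U \ T1, G.Adj a b → b ∈ R2

lemma Parts.symm {G : SimpleGraph V} {U T1 R1 R2 : Finset V} (h : Parts G U T1 R1 R2) :
    Parts G U T1 R2 R1 :=
  ⟨h.cl, h.T1U, h.R2U, h.R1U, h.dis.symm, h.ne2, h.ne1, h.c2, h.c1⟩

lemma parts_of_split {G : SimpleGraph V} {U T1 : Finset V} (hT : G.IsNClique 3 T1) (hTU : T1 ⊆ U)
    {x y : V} (hx : x ∈ U \ T1) (hy : y ∈ U \ T1) (h : Split G T1 x y) :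
    ∃ R1 R2, Parts G U T1 R1 R2 := by
  classical
  obtain ⟨R, hxR, hyR, hR⟩ := h
  refine ⟨(U \ T1).filter (fun a => a ∈ R), (U \ T1).filter (fun a => a ∉ R), hT, hTU,
    filter_subset _ _, filter_subset _ _, disjoint_filter_filter_not _ _ _, ⟨x, ?_⟩, ⟨y, ?_⟩, ?_, ?_⟩
  · rw [mem_filter]; exact ⟨hx, hxR⟩
  · rw [mem_filter]; exact ⟨hy, hyR⟩
  · intro a ha b hb hab
    rw [mem_filter] at ha ⊢
    exact ⟨hb, hR a ha.2 b (Finset.mem_sdiff.1 hb).2 hab⟩
  · intro a ha b hb hab
    rw [mem_filter] at ha ⊢
    refine ⟨hb, fun h => ha.2 ?_⟩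
    exact hR b h a (Finset.mem_sdiff.1 ha.1).2 hab.symm

lemma third_vertex {e T : Finset V} (he : e.card = 2) (hT : T.card = 3) (h : e ⊆ T) :
    ∃ x, x ∉ e ∧ T = insert x e := by
  have h1 : (T \ e).card = 1 := by
    rw [card_sdiff_of_subset h]
    omega
  obtain ⟨x, hx⟩ := card_eq_one.1 h1
  have h2 : x ∈ T \ e := by rw [hx]; simp
  rw [Finset.mem_sdiff] at h2
  refine ⟨x, h2.2, ?_⟩
  rw [← sdiff_union_of_subset h, hx]
  rfl

lemma three_parts {G : SimpleGraph V} (hG : P5 G) {U e : Finset V} (he : e.card = 2)
    (h3 : 2 < ((tri G U).filter (fun T => e ⊆ T)).card) : ∃ T1 R1 R2, Parts G U T1 R1 R2 := by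
  obtain ⟨T, hT, T', hT', T'', hT'', n1, n2, n3⟩ := two_lt_card.1 h3
  rw [mem_filter, mem_tri] at hT hT' hT''
  obtain ⟨u, v, huv, rfl⟩ := card_eq_two.1 he
  obtain ⟨x, hx, rfl⟩ := third_vertex he hT.1.1.card_eq hT.2
  obtain ⟨y, hy, rfl⟩ := third_vertex he hT'.1.1.card_eq hT'.2
  obtain ⟨z, hz, rfl⟩ := third_vertex he hT''.1.1.card_eq hT''.2
  simp only [mem_insert, mem_singleton, not_or] at hx hy hz
  have hxy : x ≠ y := fun h => n1 (by rw [h])
  have hxz : x ≠ z := fun h => n2 (by rw [h])
  have hyz : y ≠ z := fun h => n3 (by rw [h])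
  have auv : G.Adj u v := hT.1.1.isClique (by simp) (by simp) huv
  have aux : G.Adj u x := hT.1.1.isClique (by simp) (by simp) (Ne.symm hx.1)
  have avx : G.Adj v x := hT.1.1.isClique (by simp) (by simp) (Ne.symm hx.2)
  have auy : G.Adj u y := hT'.1.1.isClique (by simp) (by simp) (Ne.symm hy.1)
  have avy : G.Adj v y := hT'.1.1.isClique (by simp) (by simp) (Ne.symm hy.2)
  have auz : G.Adj u z := hT''.1.1.isClique (by simp) (by simp) (Ne.symm hz.1)
  have avz : G.Adj v z := hT''.1.1.isClique (by simp) (by simp) (Ne.symm hz.2)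
  have hxU : x ∈ U := hT.1.2 (by simp)
  have hyU : y ∈ U := hT'.1.2 (by simp)
  have hzU : z ∈ U := hT''.1.2 (by simp)
  have ex : ({u, v, x} : Finset V) = insert x {u, v} := by ext a; simp; tauto
  have ey : ({u, v, y} : Finset V) = insert y {u, v} := by ext a; simp; tauto
  have ez : ({u, v, z} : Finset V) = insert z {u, v} := by ext a; simp; tauto
  rcases hG u v x y z hxy hxz hyz auv aux auy auz avx avy avz with h | h | h
  · rw [ex] at h
    obtain ⟨R1, R2, hR⟩ := parts_of_split hT.1.1 hT.1.2 (x := y) (y := z)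
      (by simp [hyU, hy, hxy.symm]) (by simp [hzU, hz, hxz.symm]) h
    exact ⟨_, R1, R2, hR⟩
  · rw [ey] at h
    obtain ⟨R1, R2, hR⟩ := parts_of_split hT'.1.1 hT'.1.2 (x := x) (y := z)
      (by simp [hxU, hx, hxy]) (by simp [hzU, hz, hyz.symm]) h
    exact ⟨_, R1, R2, hR⟩
  · rw [ez] at h
    obtain ⟨R1, R2, hR⟩ := parts_of_split hT''.1.1 hT''.1.2 (x := x) (y := y)
      (by simp [hxU, hx, hxz]) (by simp [hyU, hy, hyz]) h
    exact ⟨_, R1, R2, hR⟩

/-- a separation of `G[U]` by a triangle -/
structure Sep (G : SimpleGraph V) (U T C : Finset V) : Prop where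
  cl : G.IsNClique 3 T
  TU : T ⊆ U
  CU : C ⊆ U
  dis : Disjoint C T
  ne : C.Nonempty
  out : (U \ (C ∪ T)).Nonempty
  closed : ∀ a ∈ C, ∀ b ∈ U, G.Adj a b → b ∈ C ∪ T

lemma Parts.sep {G : SimpleGraph V} {U T1 R1 R2 : Finset V} (h : Parts G U T1 R1 R2) :
    Sep G U T1 R1 := by
  refine ⟨h.cl, h.T1U, h.R1U.trans sdiff_subset, ?_, h.ne1, ?_, ?_⟩
  · exact disjoint_left.2 fun a ha => (Finset.mem_sdiff.1 (h.R1U ha)).2
  · obtain ⟨r, hr⟩ := h.ne2
    have h1 := Finset.mem_sdiff.1 (h.R2U hr)
    refine ⟨r, ?_⟩
    rw [Finset.mem_sdiff, mem_union, not_or]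
    exact ⟨h1.1, disjoint_right.1 h.dis hr, h1.2⟩
  · intro a ha b hb hab
    rw [mem_union]
    by_cases hbT : b ∈ T1
    · exact Or.inr hbT
    · exact Or.inl (h.c1 a ha b (Finset.mem_sdiff.2 ⟨hb, hbT⟩) hab)

lemma Sep.smaller {G : SimpleGraph V} {U T C T1 R R' : Finset V} (h : Sep G U T C)
    (hp : Parts G (C ∪ T) T1 R R') (hRT : Disjoint R T) : Sep G U T1 R ∧ R.card < C.card := by
  have hCT : C ∪ T ⊆ U := union_subset h.CU h.TU
  have hRC : R ⊆ C := by
    intro a ha
    have h1 := Finset.mem_sdiff.1 (hp.R1U ha)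
    rw [mem_union] at h1
    rcases h1.1 with h2 | h2
    · exact h2
    · exact absurd h2 (disjoint_left.1 hRT ha)
  refine ⟨⟨hp.cl, hp.T1U.trans hCT, hRC.trans h.CU, ?_, hp.ne1, ?_, ?_⟩, ?_⟩
  · exact disjoint_left.2 fun a ha => (Finset.mem_sdiff.1 (hp.R1U ha)).2
  · obtain ⟨r, hr⟩ := hp.ne2
    have h1 := Finset.mem_sdiff.1 (hp.R2U hr)
    refine ⟨r, ?_⟩
    rw [Finset.mem_sdiff, mem_union, not_or]
    exact ⟨hCT h1.1, disjoint_right.1 hp.dis hr, h1.2⟩
  · intro a ha b hb hab
    have h1 := h.closed a (hRC ha) b hb hab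
    rw [mem_union]
    by_cases hbT : b ∈ T1
    · exact Or.inr hbT
    · exact Or.inl (hp.c1 a ha b (Finset.mem_sdiff.2 ⟨h1, hbT⟩) hab)
  · apply card_lt_card
    rw [ssubset_iff_of_subset hRC]
    by_cases hT : T1 = T
    · obtain ⟨r, hr⟩ := hp.ne2
      have h1 := Finset.mem_sdiff.1 (hp.R2U hr)
      rw [hT, mem_union] at h1
      refine ⟨r, ?_, disjoint_right.1 hp.dis hr⟩
      rcases h1.1 with h2 | h2
      · exact h2
      · exact absurd h2 h1.2
    · have h1 : ¬ T1 ⊆ T := by
        intro h2
        apply hT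
        apply eq_of_subset_of_card_le h2
        rw [hp.cl.card_eq, h.cl.card_eq]
      rw [not_subset] at h1
      obtain ⟨t, ht, ht2⟩ := h1
      have h2 := hp.T1U ht
      rw [mem_union] at h2
      refine ⟨t, ?_, ?_⟩
      · rcases h2 with h2 | h2
        · exact h2
        · exact absurd h2 ht2
      · intro h3
        exact (Finset.mem_sdiff.1 (hp.R1U h3)).2 ht

lemma min_sep {G : SimpleGraph V} (hG : P5 G) {U T C : Finset V} (h : Sep G U T C)
    (hmin : ∀ T' C', Sep G U T' C' → C.card ≤ C'.card) {e : Finset V} (he : e.card = 2) :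
    ((tri G (C ∪ T)).filter (fun T => e ⊆ T)).card ≤ 2 := by
  by_contra hcon
  push Not at hcon
  obtain ⟨T1, R1, R2, hp⟩ := three_parts hG he hcon
  have hd : Disjoint R1 T ∨ Disjoint R2 T := by
    by_contra h1
    push Not at h1
    obtain ⟨h2, h3⟩ := h1
    rw [not_disjoint_iff] at h2 h3
    obtain ⟨a, ha, ha2⟩ := h2
    obtain ⟨b, hb, hb2⟩ := h3
    have hab : a ≠ b := by
      rintro rfl
      exact disjoint_left.1 hp.dis ha hb
    have h4 : G.Adj a b := h.cl.isClique ha2 hb2 hab
    have h5 := hp.c1 a ha b (hp.R2U hb) h4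
    exact disjoint_left.1 hp.dis h5 hb
  rcases hd with hd | hd
  · obtain ⟨h1, h2⟩ := h.smaller hp hd
    exact absurd (hmin _ _ h1) (not_le.2 h2)
  · obtain ⟨h1, h2⟩ := h.smaller hp.symm hd
    exact absurd (hmin _ _ h1) (not_le.2 h2)

theorem main_comb {G : SimpleGraph V} (hG : P5 G) : ∀ (n : ℕ) (U : Finset V), U.card = n →
    ∀ (S : Finset (Finset V)), (∀ T ∈ S, G.IsNClique 3 T ∧ T ⊆ U) →
    ∀ (w : Finset V → ℚ), (∀ T, T ∉ S → w T = 0) →
    ∀ (b : Finset V → ℤ), (∀ e, e.card = 2 → inci w e = b e) →
    ∀ (x : Finset V → ℤ), (∀ T, x T ≠ 0 → G.IsNClique 3 T ∧ T ⊆ U) →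
      (∀ e, e.card = 2 → (2 : ℤ) ∣ b e - inci x e) →
    ∃ w' : Finset V → ℤ, (∀ T, T ∉ S → w' T = 0) ∧ ∀ e, e.card = 2 → inci w' e = b e := by
  classical
  intro n
  induction n using Nat.strong_induction_on with
  | _ n ih =>
  intro U hU S hS w hw b hb x hx hbx
  by_cases hsep : ∃ T C, Sep G U T C
  · -- take a separation with `C` minimal
    have hex : ∃ m, ∃ T C, Sep G U T C ∧ C.card = m := by
      obtain ⟨T, C, h⟩ := hsep
      exact ⟨_, T, C, h, rfl⟩
    obtain ⟨D, C, hDC, hCm⟩ := Nat.find_spec hex
    have hmin : ∀ T' C', Sep G U T' C' → C.card ≤ C'.card := by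
      intro T' C' h
      rw [hCm]
      exact Nat.find_min' hex ⟨T', C', h, rfl⟩
    set P : Finset (Finset V) := (tri G (C ∪ D)).filter (fun T => ¬ Disjoint T C) with hPdef
    have hCD : C ∪ D ⊆ U := union_subset hDC.CU hDC.TU
    have hDP : D ∉ P := by
      rw [hPdef, mem_filter]
      intro h
      exact h.2 hDC.dis.symm
    have hP : Piece C D P := by
      refine ⟨hDC.dis, ?_, ?_, ?_, ?_, ?_, Or.inr hDC.cl.card_eq⟩
      · intro T hT
        rw [hPdef, mem_filter, mem_tri] at hT
        exact hT.1.1.card_eq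
      · intro T hT
        rw [hPdef, mem_filter, mem_tri] at hT
        exact hT.1.2
      · intro T hT
        rw [hPdef, mem_filter, mem_tri] at hT
        exact hT.2
      · intro e he _
        refine le_trans (card_le_card ?_) (min_sep hG hDC hmin he)
        exact filter_subset_filter _ (filter_subset _ _)
      · intro e he heD
        have h1 := min_sep hG hDC hmin he
        have h2 : insert D (P.filter (fun T => e ⊆ T)) ⊆
            (tri G (C ∪ D)).filter (fun T => e ⊆ T) := by
          intro T hT
          rw [mem_insert] at hT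
          rcases hT with rfl | hT
          · rw [mem_filter, mem_tri]
            exact ⟨⟨hDC.cl, subset_union_right⟩, heD⟩
          · rw [mem_filter] at hT ⊢
            exact ⟨(mem_filter.1 hT.1).1, hT.2⟩
        have h3 := card_le_card h2
        rw [card_insert_of_notMem (fun h => hDP (mem_filter.1 h).1)] at h3
        omega
    have K1 : ∀ T, G.IsNClique 3 T → T ⊆ U → ¬ Disjoint T C → T ∈ P := by
      intro T hT hTU hTC
      rw [hPdef, mem_filter, mem_tri]
      refine ⟨⟨hT, ?_⟩, hTC⟩
      rw [not_disjoint_iff] at hTC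
      obtain ⟨c, hc, hc2⟩ := hTC
      intro t ht
      by_cases htc : c = t
      · rw [← htc]; exact mem_union_left _ hc2
      · exact hDC.closed c hc2 t (hTU ht) (hT.isClique hc ht htc)
    set wC : Finset V → ℚ := fun T => if T ∈ P then w T else 0 with hwC
    set w0 : Finset V → ℚ := fun T => if T ∈ P then 0 else w T with hw0
    have hwsplit : ∀ e, inci w e = inci wC e + inci w0 e := by
      intro e
      rw [← inci_add]
      congr 1
      ext T
      rw [hwC, hw0]
      simp only
      split_ifs <;> ring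
    set xC : Finset V → ℤ := fun T => if T ∈ P then x T else 0 with hxC
    set x0 : Finset V → ℤ := fun T => if T ∈ P then 0 else x T with hx0
    have hxsplit : ∀ e, inci x e = inci xC e + inci x0 e := by
      intro e
      rw [← inci_add]
      congr 1
      ext T
      rw [hxC, hx0]
      simp only
      split_ifs <;> ring
    have hwCP : ∀ T, T ∉ P → wC T = 0 := fun T hT => if_neg hT
    have hxCP : ∀ T, T ∉ P → xC T = 0 := fun T hT => if_neg hT
    have K2 : ∀ e, ¬ Disjoint e C → inci w0 e = 0 := by
      intro e he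
      apply inci_zero
      intro T hT
      rw [hw0]
      simp only
      by_cases hTP : T ∈ P
      · rw [if_pos hTP]
      · rw [if_neg hTP]
        by_contra h
        have hTS : T ∈ S := by
          by_contra h2
          exact h (hw T h2)
        apply hTP
        apply K1 T (hS T hTS).1 (hS T hTS).2
        intro h2
        exact he (h2.mono_left hT)
    have K3 : ∀ e, ¬ Disjoint e C → inci x0 e = 0 := by
      intro e he
      apply inci_zero
      intro T hT
      rw [hx0]
      simp only
      by_cases hTP : T ∈ P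
      · rw [if_pos hTP]
      · rw [if_neg hTP]
        by_contra h
        apply hTP
        apply K1 T (hx T h).1 (hx T h).2
        intro h2
        exact he (h2.mono_left hT)
    obtain ⟨φ, k, hφ0, hk, hφC⟩ := hP.shift hwCP b
      (fun e he heC => by rw [← hb e he, hwsplit, K2 e heC, add_zero]) xC hxCP
      (fun e he heC => by
        have h1 := hbx e he
        rw [hxsplit, K3 e heC, add_zero] at h1
        exact h1)
    have hφP : ∀ T, T ∉ P → φ T = 0 := fun T hT => hφ0 T (hwCP T hT)
    have hkP : ∀ T, T ∉ P → k T = 0 := by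
      intro T hT
      have h1 := hk T
      rw [hwCP T hT, hφP T hT, sub_zero] at h1
      exact_mod_cast h1.symm
    obtain ⟨τ, hτ, hz⟩ := hP.boundary hφP hφC
    have hφe : ∀ e, e.card = 2 → inci φ e = if e ⊆ D then τ else 0 := by
      intro e he
      split_ifs with h
      · exact hτ e he h
      · by_cases hd : Disjoint e C
        · exact hP.zero_other hφP hd h
        · exact hφC e he hd
    have hke : ∀ e, ((inci k e : ℤ) : ℚ) = inci wC e - inci φ e := by
      intro e
      rw [← inci_cast, ← inci_sub]
      congr 1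
      ext T
      exact (hk T).symm
    have hkC : ∀ e, e.card = 2 → ¬ Disjoint e C → inci k e = b e := by
      intro e he heC
      have h1 := hke e
      rw [hφC e he heC, sub_zero] at h1
      have h2 := hb e he
      rw [hwsplit, K2 e heC, add_zero] at h2
      rw [h2] at h1
      exact_mod_cast h1
    set y : Finset V → ℤ := fun T => xC T - k T with hy
    have hyP : ∀ T, T ∉ P → y T = 0 := by
      intro T hT
      rw [hy]
      simp only
      rw [hxCP T hT, hkP T hT, sub_zero]
    have hye : ∀ e, inci y e = inci xC e - inci k e := fun e => inci_sub _ _ _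
    have hyC : ∀ e, e.card = 2 → ¬ Disjoint e C → (2 : ℤ) ∣ inci y e := by
      intro e he heC
      rw [hye, hkC e he heC]
      have h1 := hbx e he
      rw [hxsplit, K3 e heC, add_zero] at h1
      omega
    obtain ⟨η, hη⟩ := hP.parity_all hyP hyC
    have hyη : ∀ e, e.card = 2 → (2 : ℤ) ∣ inci y e - if e ⊆ D then η else 0 := by
      intro e he
      split_ifs with h
      · exact hη e he h
      · rw [sub_zero]
        by_cases hd : Disjoint e C
        · rw [hP.zero_other hyP hd h]; exact dvd_zero 2
        · exact hyC e he hd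
    -- the smaller instance
    set S' : Finset (Finset V) := if τ = 0 then S.filter (fun T => T ∉ P) else
      insert D (S.filter (fun T => T ∉ P)) with hS'
    have hSP : ∀ T ∈ S.filter (fun T => T ∉ P), G.IsNClique 3 T ∧ T ⊆ U \ C := by
      intro T hT
      rw [mem_filter] at hT
      refine ⟨(hS T hT.1).1, ?_⟩
      have h1 : Disjoint T C := by
        by_contra h
        exact hT.2 (K1 T (hS T hT.1).1 (hS T hT.1).2 h)
      intro t ht
      rw [Finset.mem_sdiff]
      exact ⟨(hS T hT.1).2 ht, disjoint_left.1 h1 ht⟩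
    have hDU : D ⊆ U \ C := by
      intro t ht
      rw [Finset.mem_sdiff]
      exact ⟨hDC.TU ht, disjoint_right.1 hDC.dis ht⟩
    have hS'1 : ∀ T ∈ S', G.IsNClique 3 T ∧ T ⊆ U \ C := by
      intro T hT
      rw [hS'] at hT
      split_ifs at hT with h
      · exact hSP T hT
      · rw [mem_insert] at hT
        rcases hT with rfl | hT
        · exact ⟨hDC.cl, hDU⟩
        · exact hSP T hT
    set b' : Finset V → ℤ := fun e => b e - inci k e with hb'
    have hcard : (U \ C).card < n := by
      rw [← hU]
      apply card_lt_card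
      rw [ssubset_iff_of_subset sdiff_subset]
      obtain ⟨c, hc⟩ := hDC.ne
      exact ⟨c, hDC.CU hc, fun h => (Finset.mem_sdiff.1 h).2 hc⟩
    obtain ⟨w', hw'S, hw'e⟩ := ih (U \ C).card hcard (U \ C) rfl S' hS'1
      (fun T => w0 T + if T = D then τ else 0)
      (by
        intro T hT
        have h1 : w0 T = 0 := by
          rw [hw0]
          simp only
          by_cases hTP : T ∈ P
          · rw [if_pos hTP]
          · rw [if_neg hTP]
            by_cases hTS : T ∈ S
            · exfalso
              apply hT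
              rw [hS']
              have h2 : T ∈ S.filter (fun T => T ∉ P) := mem_filter.2 ⟨hTS, hTP⟩
              split_ifs
              · exact h2
              · exact mem_insert_of_mem h2
            · exact hw T hTS
        rw [h1, zero_add]
        split_ifs with h2
        · by_contra h3
          apply hT
          rw [hS', if_neg h3, h2]
          exact mem_insert_self _ _
        · rfl)
      b'
      (by
        intro e he
        rw [inci_add, inci_single, hb']
        push_cast
        rw [hke, ← hb e he, hwsplit, hφe e he]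
        ring)
      (fun T => x0 T + if T = D then η else 0)
      (by
        intro T hT
        by_cases hTD : T = D
        · rw [hTD]; exact ⟨hDC.cl, hDU⟩
        · rw [if_neg hTD, add_zero] at hT
          have hTP : T ∉ P := by
            intro h
            apply hT
            rw [hx0]
            simp only
            rw [if_pos h]
          have hxT : x T ≠ 0 := by
            rw [hx0] at hT
            simp only at hT
            rwa [if_neg hTP] at hT
          refine ⟨(hx T hxT).1, ?_⟩
          have h1 : Disjoint T C := by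
            by_contra h
            exact hTP (K1 T (hx T hxT).1 (hx T hxT).2 h)
          intro t ht
          rw [Finset.mem_sdiff]
          exact ⟨(hx T hxT).2 ht, disjoint_left.1 h1 ht⟩)
      (by
        intro e he
        rw [inci_add, inci_single, hb']
        have h1 := hbx e he
        have h2 := hyη e he
        rw [hye] at h2
        rw [hxsplit] at h1
        simp only
        omega)
    -- assemble
    have hk0 : ∀ T, T ∉ S → k T = 0 := by
      intro T hT
      have h1 : wC T = 0 := by
        rw [hwC]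
        simp only
        rw [hw T hT]
        simp
      have h2 := hk T
      rw [h1, hφ0 T h1, sub_zero] at h2
      exact_mod_cast h2.symm
    by_cases hτ0 : τ = 0
    · refine ⟨fun T => k T + w' T, ?_, ?_⟩
      · intro T hT
        simp only
        rw [hk0 T hT, zero_add]
        apply hw'S
        rw [hS', if_pos hτ0, mem_filter]
        exact fun h => hT h.1
      · intro e he
        rw [inci_add, hw'e e he, hb']
        simp only
        ring
    · obtain ⟨z, hz0, hzC, hzD⟩ := hz hτ0
      have hzP : ∀ T, T ∉ P → z T = 0 := fun T hT => hz0 T (hφP T hT)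
      refine ⟨fun T => k T + (w' T + w' D * (z T - if T = D then 1 else 0)), ?_, ?_⟩
      · intro T hT
        have hzT : z T = 0 := by
          apply hz0
          apply hφ0
          rw [hwC]
          simp only
          rw [hw T hT]
          simp
        simp only
        rw [hk0 T hT, hzT, zero_add]
        by_cases hTD : T = D
        · rw [hTD, if_pos rfl]
          ring
        · rw [if_neg hTD, hw'S T]
          · ring
          · rw [hS', if_neg hτ0, mem_insert, mem_filter, not_or]
            exact ⟨hTD, fun h => hT h.1⟩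
      · intro e he
        rw [inci_add, inci_add, inci_mul, inci_sub, inci_single, hw'e e he, hb']
        have h1 : inci z e = if e ⊆ D then 1 else 0 := by
          split_ifs with h
          · exact hzD e he h
          · by_cases hd : Disjoint e C
            · exact hP.zero_other hzP hd h
            · exact hzC e he hd
        rw [h1]
        simp only
        ring
  · -- no separation
    have hP : Piece U ∅ (tri G U) := by
      refine ⟨disjoint_empty_right _, ?_, ?_, ?_, ?_, ?_, Or.inl rfl⟩
      · intro T hT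
        rw [mem_tri] at hT
        exact hT.1.card_eq
      · intro T hT
        rw [mem_tri] at hT
        rw [union_empty]
        exact hT.2
      · intro T hT
        rw [mem_tri] at hT
        intro h
        have h1 : T = ∅ := by
          rw [eq_empty_iff_forall_notMem]
          intro a ha
          exact disjoint_left.1 h ha (hT.2 ha)
        have h2 := hT.1.card_eq
        rw [h1] at h2
        simp at h2
      · intro e he _
        by_contra h
        push Not at h
        obtain ⟨T1, R1, R2, hp⟩ := three_parts hG he h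
        exact hsep ⟨T1, R1, hp.sep⟩
      · intro e he he2
        rw [subset_empty] at he2
        rw [he2] at he
        simp at he
    have hwP : ∀ T, T ∉ tri G U → w T = 0 := by
      intro T hT
      apply hw
      intro h
      exact hT (mem_tri.2 (hS T h))
    have hxP : ∀ T, T ∉ tri G U → x T = 0 := by
      intro T hT
      by_contra h
      exact hT (mem_tri.2 (hx T h))
    obtain ⟨φ, k, hφ0, hk, hφC⟩ := hP.shift hwP b (fun e he _ => hb e he) x hxP
      (fun e he _ => hbx e he)
    have hφP : ∀ T, T ∉ tri G U → φ T = 0 := fun T hT => hφ0 T (hwP T hT)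
    refine ⟨k, ?_, ?_⟩
    · intro T hT
      have h1 := hk T
      rw [hw T hT, hφ0 T (hw T hT), sub_zero] at h1
      exact_mod_cast h1.symm
    · intro e he
      have h0 : inci φ e = 0 := by
        by_cases hd : Disjoint e U
        · apply hP.zero_other hφP hd
          intro h
          rw [subset_empty] at h
          rw [h] at he
          simp at he
        · exact hφC e he hd
      have h1 : ((inci k e : ℤ) : ℚ) = inci w e - inci φ e := by
        rw [← inci_cast, ← inci_sub]
        congr 1
        ext T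
        exact (hk T).symm
      rw [h0, hb e he, sub_zero] at h1
      exact_mod_cast h1

end Pool.Agent.Helper47.TD
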