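import Pool.Agent.Helper47.TD4

open Finset

set_option linter.unusedSectionVars false

namespace Pool.Agent.Helper47.TD

variable {V : Type*} [Fintype V] [DecidableEq V]

/-- moving to the boundary of the orthant -/
lemma reduce_aux {α : Type*} [Fintype α] (w z : α → ℚ) (hw : ∀ a, 0 ≤ w a)
    (hzw : ∀ a, w a = 0 → z a = 0) (hz : ∃ a, z a < 0) :
    ∃ t : ℚ, (∀ a, 0 ≤ w a + t * z a) ∧ ∃ a, w a ≠ 0 ∧ w a + t * z a = 0 := by
  classical
  obtain ⟨a0, ha0⟩ := hz
  obtain ⟨m, hm, hmin⟩ := exists_min_image (univ.filter (fun a => z a < 0)) (fun a => w a / (- z a))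
    ⟨a0, by simp [ha0]⟩
  rw [mem_filter] at hm
  have hzm : 0 < - z m := by linarith [hm.2]
  refine ⟨w m / (- z m), ?_, m, ?_, ?_⟩
  · intro a
    by_cases ha : z a < 0
    · have h1 := hmin a (by simp [ha])
      have hza : 0 < - z a := by linarith
      rw [le_div_iff₀ hza] at h1
      linarith
    · push Not at ha
      have h1 : 0 ≤ w m / (- z m) := div_nonneg (hw m) hzm.le
      have := mul_nonneg h1 ha
      linarith [hw a]
  · intro h
    have := hzw m h
    linarith [hm.2]
  · have : w m / (- z m) * z m = - w m := by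
      rw [div_mul_eq_mul_div, div_eq_iff hzm.ne']
      ring
    rw [this]
    ring

lemma reduce {α : Type*} [Fintype α] (w z : α → ℚ) (hw : ∀ a, 0 ≤ w a)
    (hzw : ∀ a, w a = 0 → z a = 0) (hz : ∃ a, z a ≠ 0) :
    ∃ t : ℚ, (∀ a, 0 ≤ w a + t * z a) ∧ ∃ a, w a ≠ 0 ∧ w a + t * z a = 0 := by
  by_cases h : ∃ a, z a < 0
  · exact reduce_aux w z hw hzw h
  · push Not at h
    obtain ⟨a, ha⟩ := hz
    have ha2 : 0 < z a := lt_of_le_of_ne (h a) (Ne.symm ha)
    obtain ⟨t, h1, b, h2, h3⟩ := reduce_aux w (fun a => - z a) hw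
      (fun a ha => by rw [hzw a ha, neg_zero]) ⟨a, by linarith⟩
    refine ⟨-t, fun a => ?_, b, h2, ?_⟩
    · have := h1 a
      linarith
    · linarith

theorem half_integral {G : SimpleGraph V} (hG : P5 G) (b : Finset V → ℤ) :
    ∀ (n : ℕ) (w : Finset V → ℚ), (univ.filter (fun T => w T ≠ 0)).card = n → (∀ T, 0 ≤ w T) →
      (∀ T, w T ≠ 0 → G.IsNClique 3 T) → (∀ e, e.card = 2 → inci w e = b e) →
      ∃ w' : Finset V → ℤ, (∀ T, 0 ≤ w' T) ∧ (∀ T, w' T ≠ 0 → G.IsNClique 3 T) ∧
        (∀ e, e.card = 2 → inci w' e = 2 * b e) := by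
  intro n
  induction n using Nat.strong_induction_on with
  | _ n ih =>
  intro w hn h0 hsupp he
  obtain ⟨w', hw'S, hw'e⟩ := main_comb hG _ univ rfl (univ.filter (fun T => w T ≠ 0))
    (fun T hT => ⟨hsupp T (mem_filter.1 hT).2, subset_univ _⟩) (fun T => 2 * w T)
    (fun T hT => by
      have : w T = 0 := by
        by_contra h
        exact hT (mem_filter.2 ⟨mem_univ _, h⟩)
      rw [this, mul_zero])
    (fun e => 2 * b e)
    (fun e h => by rw [inci_mul, he e h]; push_cast; ring)
    (fun _ => 0) (fun T hT => absurd rfl hT)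
    (fun e _ => by
      have : inci (fun _ : Finset V => (0 : ℤ)) e = 0 := inci_zero fun _ _ => rfl
      rw [this, sub_zero]
      exact dvd_mul_right _ _)
  by_cases hall : ∀ T, (w' T : ℚ) = 2 * w T
  · refine ⟨w', fun T => ?_, fun T hT => ?_, hw'e⟩
    · have h1 : (0 : ℚ) ≤ w' T := by rw [hall T]; linarith [h0 T]
      exact_mod_cast h1
    · apply hsupp
      intro h
      have h1 := hall T
      rw [h, mul_zero] at h1
      exact hT (by exact_mod_cast h1)
  · push Not at hall
    obtain ⟨T1, hT1⟩ := hall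
    have hz0 : ∀ T, w T = 0 → (w' T : ℚ) - 2 * w T = 0 := by
      intro T hT
      rw [hT, hw'S T (fun h => (mem_filter.1 h).2 hT)]
      simp
    obtain ⟨t, ht, T0, hT0, hT0'⟩ := reduce w (fun T => (w' T : ℚ) - 2 * w T) h0 hz0
      ⟨T1, sub_ne_zero.2 hT1⟩
    have hnew0 : ∀ T, w T = 0 → w T + t * ((w' T : ℚ) - 2 * w T) = 0 := by
      intro T hT
      rw [hz0 T hT, hT]
      ring
    apply ih (univ.filter (fun T => w T + t * ((w' T : ℚ) - 2 * w T) ≠ 0)).card _
      (fun T => w T + t * ((w' T : ℚ) - 2 * w T)) rfl ht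
    · intro T hT
      apply hsupp
      intro h
      exact hT (hnew0 T h)
    · intro e h
      rw [inci_add, inci_mul, inci_sub, inci_cast, inci_mul, hw'e e h, he e h]
      push_cast
      ring
    · rw [← hn]
      apply card_lt_card
      rw [ssubset_iff_of_subset]
      · exact ⟨T0, by simp [hT0], by simp [hT0']⟩
      · intro T hT
        rw [mem_filter] at hT ⊢
        refine ⟨mem_univ _, fun h => hT.2 (hnew0 T h)⟩

/-- two-to-one maps -/
lemma two_to_one {α β : Type*} [DecidableEq α] [DecidableEq β] (A : Finset α)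
    (B : Finset β) (h : A.card = 2 * B.card) :
    ∃ F : α → Option β, (∀ a ∈ A, ∃ b ∈ B, F a = some b) ∧
      ∀ b ∈ B, (A.filter (fun a => F a = some b)).card = 2 := by
  have hc : Fintype.card A = Fintype.card (B × Bool) := by
    rw [Fintype.card_prod, Fintype.card_coe, Fintype.card_coe, Fintype.card_bool, h]
    ring
  let φ : A ≃ B × Bool := Fintype.equivOfCardEq hc
  refine ⟨fun a => if h : a ∈ A then some (φ ⟨a, h⟩).1.1 else none, ?_, ?_⟩
  · intro a ha
    exact ⟨(φ ⟨a, ha⟩).1.1, (φ ⟨a, ha⟩).1.2, by simp [ha]⟩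
  · intro b hb
    have h1 : A.filter (fun a => (if h : a ∈ A then some (φ ⟨a, h⟩).1.1 else none) = some b) =
        (univ : Finset Bool).image (fun i => (φ.symm (⟨b, hb⟩, i)).1) := by
      ext a
      rw [mem_filter, mem_image]
      constructor
      · rintro ⟨ha, h2⟩
        rw [dif_pos ha, Option.some.injEq] at h2
        refine ⟨(φ ⟨a, ha⟩).2, mem_univ _, ?_⟩
        have h3 : ((⟨b, hb⟩ : B), (φ ⟨a, ha⟩).2) = φ ⟨a, ha⟩ := by
          apply Prod.ext
          · exact Subtype.ext h2.symm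
          · rfl
        rw [h3, Equiv.symm_apply_apply]
      · rintro ⟨i, -, rfl⟩
        refine ⟨(φ.symm (⟨b, hb⟩, i)).2, ?_⟩
        rw [dif_pos (φ.symm (⟨b, hb⟩, i)).2]
        simp
    rw [h1, card_image_of_injective]
    · simp
    · intro i j hij
      have := φ.symm.injective (Subtype.ext hij)
      exact (Prod.ext_iff.1 this).2

end Pool.Agent.Helper47.TD
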