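import Pool.Agent.Helper47.TD5

open Finset

set_option linter.unusedSectionVars false

namespace Pool.Agent.Helper47.TD

variable {V : Type*} [Fintype V] [DecidableEq V] {E : Type*} [Fintype E] [DecidableEq E]

/-- triangles of a multigraph, as sets of three edges -/
def IsTri (ends : E → Sym2 V) (τ : Finset E) : Prop :=
  ∃ u v w : V, u ≠ v ∧ v ≠ w ∧ w ≠ u ∧ ∃ e₁ e₂ e₃ : E, ends e₁ = s(u, v) ∧ ends e₂ = s(v, w) ∧
    ends e₃ = s(w, u) ∧ τ = {e₁, e₂, e₃}

/-- the underlying simple graph -/
def under (ends : E → Sym2 V) : SimpleGraph V := SimpleGraph.fromEdgeSet (Set.range ends)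

lemma under_adj {ends : E → Sym2 V} {a b : V} :
    (under ends).Adj a b ↔ (∃ e, ends e = s(a, b)) ∧ a ≠ b := by
  unfold under
  rw [SimpleGraph.fromEdgeSet_adj]
  rfl

/-- end vertices as a finset -/
def vs (ends : E → Sym2 V) (e : E) : Finset V := (ends e).toFinset

lemma vs_eq {ends : E → Sym2 V} {e : E} {a b : V} (h : ends e = s(a, b)) : vs ends e = {a, b} := by
  unfold vs
  rw [h]
  ext x
  simp

lemma ends_of_vs {ends : E → Sym2 V} {e : E} {a b : V} (hab : a ≠ b) (h : vs ends e = {a, b}) :
    ends e = s(a, b) := by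
  have h1 : ∀ x, x ∈ ends e ↔ x = a ∨ x = b := by
    intro x
    have : x ∈ vs ends e ↔ x ∈ ends e := by unfold vs; simp
    rw [← this, h]
    simp
  exact (Sym2.mem_and_mem_iff hab).1 ⟨(h1 a).2 (Or.inl rfl), (h1 b).2 (Or.inr rfl)⟩

lemma vs_card {ends : E → Sym2 V} (hl : ∀ e, ¬ (ends e).IsDiag) (e : E) :
    (vs ends e).card = 2 := by
  unfold vs
  exact Sym2.card_toFinset_of_not_isDiag _ (hl e)

lemma pair_cases {u v w : V} {p : Finset V} (hp : p.card = 2) (h : p ⊆ {u, v, w}) :
    p = {u, v} ∨ p = {v, w} ∨ p = {w, u} := by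
  obtain ⟨x, y, hxy, rfl⟩ := card_eq_two.1 hp
  have hx := h (show x ∈ ({x, y} : Finset V) by simp)
  have hy := h (show y ∈ ({x, y} : Finset V) by simp)
  simp only [mem_insert, mem_singleton] at hx hy
  rcases hx with rfl | rfl | rfl <;> rcases hy with rfl | rfl | rfl
  · exact absurd rfl hxy
  · exact Or.inl rfl
  · exact Or.inr (Or.inr (pair_comm _ _))
  · exact Or.inl (pair_comm _ _)
  · exact absurd rfl hxy
  · exact Or.inr (Or.inl rfl)
  · exact Or.inr (Or.inr rfl)
  · exact Or.inr (Or.inl (pair_comm _ _))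
  · exact absurd rfl hxy

lemma three_pairs {u v w : V} (huv : u ≠ v) (hvw : v ≠ w) (hwu : w ≠ u) :
    ({u, v} : Finset V) ≠ {v, w} ∧ ({u, v} : Finset V) ≠ {w, u} ∧
      ({v, w} : Finset V) ≠ {w, u} := by
  refine ⟨?_, ?_, ?_⟩
  · intro h
    have : u ∈ ({v, w} : Finset V) := by rw [← h]; simp
    simp only [mem_insert, mem_singleton] at this
    rcases this with h | h
    · exact huv h
    · exact hwu h.symm
  · intro h
    have : v ∈ ({w, u} : Finset V) := by rw [← h]; simp
    simp only [mem_insert, mem_singleton] at this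
    rcases this with h | h
    · exact hvw h
    · exact huv h.symm
  · intro h
    have : v ∈ ({w, u} : Finset V) := by rw [← h]; simp
    simp only [mem_insert, mem_singleton] at this
    rcases this with h | h
    · exact hvw h
    · exact huv h.symm

/-- vertex set -/
def vt (ends : E → Sym2 V) (τ : Finset E) : Finset V := τ.biUnion (vs ends)

lemma tri_data {ends : E → Sym2 V} {τ : Finset E} {u v w : V} {e₁ e₂ e₃ : E}
    (h1 : ends e₁ = s(u, v)) (h2 : ends e₂ = s(v, w)) (h3 : ends e₃ = s(w, u))
    (hτ : τ = {e₁, e₂, e₃}) : vt ends τ = {u, v, w} := by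
  unfold vt
  rw [hτ, biUnion_insert, biUnion_insert, singleton_biUnion, vs_eq h1, vs_eq h2, vs_eq h3]
  ext x
  simp
  tauto

lemma tri_clique {ends : E → Sym2 V} {τ : Finset E} (h : IsTri ends τ) :
    (under ends).IsNClique 3 (vt ends τ) := by
  obtain ⟨u, v, w, huv, hvw, hwu, e₁, e₂, e₃, h1, h2, h3, hτ⟩ := h
  rw [tri_data h1 h2 h3 hτ, SimpleGraph.is3Clique_triple_iff]
  refine ⟨under_adj.2 ⟨⟨e₁, h1⟩, huv⟩, under_adj.2 ⟨⟨e₃, ?_⟩, hwu.symm⟩, under_adj.2 ⟨⟨e₂, h2⟩, hvw⟩⟩
  rw [h3]
  exact Sym2.eq_swap

lemma tri_count {ends : E → Sym2 V} {τ : Finset E} (h : IsTri ends τ) {p : Finset V}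
    (hp : p.card = 2) :
    (τ.filter (fun e => vs ends e = p)).card = if p ⊆ vt ends τ then 1 else 0 := by
  obtain ⟨u, v, w, huv, hvw, hwu, e₁, e₂, e₃, h1, h2, h3, hτ⟩ := h
  rw [tri_data h1 h2 h3 hτ, hτ]
  have g1 := vs_eq h1
  have g2 := vs_eq h2
  have g3 := vs_eq h3
  obtain ⟨n1, n2, n3⟩ := three_pairs huv hvw hwu
  by_cases hsub : p ⊆ {u, v, w}
  · rw [if_pos hsub]
    rcases pair_cases hp hsub with rfl | rfl | rfl
    · have : ({e₁, e₂, e₃} : Finset E).filter (fun e => vs ends e = {u, v}) = {e₁} := by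
        ext e
        rw [mem_filter, mem_insert, mem_insert, mem_singleton, mem_singleton]
        constructor
        · rintro ⟨rfl | rfl | rfl, h⟩
          · rfl
          · exact absurd (h.symm.trans g2) n1
          · exact absurd (h.symm.trans g3) n2
        · rintro rfl
          exact ⟨Or.inl rfl, g1⟩
      rw [this, card_singleton]
    · have : ({e₁, e₂, e₃} : Finset E).filter (fun e => vs ends e = {v, w}) = {e₂} := by
        ext e
        rw [mem_filter, mem_insert, mem_insert, mem_singleton, mem_singleton]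
        constructor
        · rintro ⟨rfl | rfl | rfl, h⟩
          · exact absurd (g1.symm.trans h) n1
          · rfl
          · exact absurd (h.symm.trans g3) n3
        · rintro rfl
          exact ⟨Or.inr (Or.inl rfl), g2⟩
      rw [this, card_singleton]
    · have : ({e₁, e₂, e₃} : Finset E).filter (fun e => vs ends e = {w, u}) = {e₃} := by
        ext e
        rw [mem_filter, mem_insert, mem_insert, mem_singleton]
        constructor
        · rintro ⟨rfl | rfl | rfl, h⟩
          · exact absurd (g1.symm.trans h) n2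
          · exact absurd (g2.symm.trans h) n3
          · rfl
        · rintro rfl
          exact ⟨Or.inr (Or.inr rfl), g3⟩
      rw [this, card_singleton]
  · rw [if_neg hsub, card_eq_zero, filter_eq_empty_iff]
    intro e he h
    apply hsub
    rw [← h]
    rw [mem_insert, mem_insert, mem_singleton] at he
    rcases he with rfl | rfl | rfl
    · rw [g1]; intro x; simp; tauto
    · rw [g2]; intro x; simp; tauto
    · rw [g3]; intro x; simp; tauto

theorem multi (ends : E → Sym2 V) (hl : ∀ e, ¬ (ends e).IsDiag) (hG : P5 (under ends))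
    [DecidablePred (IsTri ends)]
    (wt : Finset E → ℚ) (h0 : ∀ τ, IsTri ends τ → 0 ≤ wt τ)
    (h1 : ∀ e, ∑ τ ∈ univ.filter (fun τ => IsTri ends τ ∧ e ∈ τ), wt τ = 1) :
    ∃ wt' : Finset E → ℚ, (∀ τ, IsTri ends τ → wt' τ = 0 ∨ wt' τ = 1 / 2 ∨ wt' τ = 1) ∧
      ∀ e, ∑ τ ∈ univ.filter (fun τ => IsTri ends τ ∧ e ∈ τ), wt' τ = 1 := by
  classical
  -- the weights on vertex triples
  set w : Finset V → ℚ := fun T => ∑ τ ∈ univ.filter (fun τ => IsTri ends τ ∧ vt ends τ = T), wt τ
    with hw
  set m : Finset V → ℕ := fun p => (univ.filter (fun e => vs ends e = p)).card with hm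
  have hinci : ∀ p : Finset V, p.card = 2 → inci w p = ((m p : ℕ) : ℤ) := by
    intro p hp
    have e1 : inci w p = ∑ τ ∈ univ.filter (fun τ => IsTri ends τ), (if p ⊆ vt ends τ then wt τ else 0) := by
      unfold inci
      rw [sum_filter]
      have : ∀ T : Finset V, (if p ⊆ T then w T else 0) =
          ∑ τ ∈ univ.filter (fun τ => IsTri ends τ), (if vt ends τ = T then (if p ⊆ T then wt τ else 0) else 0) := by
        intro T
        by_cases hT : p ⊆ T
        · simp only [if_pos hT]
          rw [hw]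
          simp only
          rw [← sum_filter, filter_filter]
        · simp only [if_neg hT, ite_self, sum_const_zero]
      rw [sum_congr rfl fun T _ => this T, sum_comm]
      apply sum_congr rfl
      intro τ _
      rw [sum_ite_eq]
      simp
    have e2 : ∀ τ ∈ univ.filter (fun τ => IsTri ends τ), (if p ⊆ vt ends τ then wt τ else 0) =
        ∑ e ∈ univ.filter (fun e => vs ends e = p), if e ∈ τ then wt τ else 0 := by
      intro τ hτ
      have hc := tri_count (mem_filter.1 hτ).2 hp
      have e3 : ∑ e ∈ univ.filter (fun e => vs ends e = p), (if e ∈ τ then wt τ else 0) =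
          ((τ.filter (fun e => vs ends e = p)).card : ℚ) * wt τ := by
        rw [← sum_filter, filter_filter, sum_const, nsmul_eq_mul]
        congr 3
        ext e
        simp
        tauto
      rw [e3, hc]
      split_ifs <;> simp
    rw [e1, sum_congr rfl e2, sum_comm]
    have e4 : ∀ e ∈ univ.filter (fun e => vs ends e = p),
        ∑ τ ∈ univ.filter (fun τ => IsTri ends τ), (if e ∈ τ then wt τ else 0) = 1 := by
      intro e _
      rw [← h1 e, ← sum_filter, filter_filter]
    rw [sum_congr rfl e4, sum_const, hm]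
    simp
  obtain ⟨w', hw0, hwc, hwe⟩ := half_integral hG (fun p => ((m p : ℕ) : ℤ)) _ w rfl
    (by
      intro T
      apply sum_nonneg
      intro τ hτ
      exact h0 τ (mem_filter.1 hτ).2.1)
    (by
      intro T hT
      obtain ⟨τ, hτ, -⟩ := exists_ne_zero_of_sum_ne_zero hT
      rw [mem_filter] at hτ
      rw [← hτ.2.2]
      exact tri_clique hτ.2.1)
    hinci
  set n : Finset V → ℕ := fun T => (w' T).toNat with hn
  have hnw : ∀ T, (n T : ℤ) = w' T := fun T => Int.toNat_of_nonneg (hw0 T)
  -- half copies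
  let A : Finset V → Finset (Σ T : Finset V, Fin (n T)) := fun p => univ.filter (fun h => p ⊆ h.1)
  let B : Finset V → Finset E := fun p => univ.filter (fun e => vs ends e = p)
  have hAB : ∀ p : Finset V, p.card = 2 → (A p).card = 2 * (B p).card := by
    intro p hp
    have h3 : ((A p).card : ℤ) = inci w' p := by
      have h4 : (A p).card = ∑ T : Finset V, if p ⊆ T then n T else 0 := by
        change (univ.filter (fun h : (Σ T : Finset V, Fin (n T)) => p ⊆ h.1)).card = _
        rw [card_filter, Fintype.sum_sigma]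
        apply sum_congr rfl
        intro T _
        by_cases h : p ⊆ T <;> simp [h]
      rw [h4]
      unfold inci
      rw [sum_filter]
      push_cast
      apply sum_congr rfl
      intro T _
      split_ifs
      · exact hnw T
      · rfl
    rw [hwe p hp] at h3
    exact_mod_cast h3
  have hex : ∀ p : Finset V, ∃ F : (Σ T : Finset V, Fin (n T)) → Option E, p.card = 2 →
      ((∀ a ∈ A p, ∃ b ∈ B p, F a = some b) ∧
      ∀ b ∈ B p, ((A p).filter (fun a => F a = some b)).card = 2) := by
    intro p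
    by_cases hp : p.card = 2
    · obtain ⟨F, hF⟩ := two_to_one (A p) (B p) (hAB p hp)
      exact ⟨F, fun _ => hF⟩
    · exact ⟨fun _ => none, fun h => absurd h hp⟩
  choose F hF using hex
  let τ' : (Σ T : Finset V, Fin (n T)) → Finset E := fun h =>
    univ.filter (fun e => vs ends e ⊆ h.1 ∧ F (vs ends e) h = some e)
  have hmemτ : ∀ h e, e ∈ τ' h ↔ vs ends e ⊆ h.1 ∧ F (vs ends e) h = some e := by
    intro h e
    change e ∈ univ.filter (fun e => vs ends e ⊆ h.1 ∧ F (vs ends e) h = some e) ↔ _
    rw [mem_filter]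
    simp
  have hτtri : ∀ h, IsTri ends (τ' h) := by
    intro h
    have hne : w' h.1 ≠ 0 := by
      have h2 := h.2.pos
      have h3 : (0 : ℤ) < n h.1 := by exact_mod_cast h2
      rw [hnw] at h3
      exact h3.ne'
    have hcl := hwc _ hne
    rw [SimpleGraph.is3Clique_iff] at hcl
    obtain ⟨u, v, x, a1, a2, a3, hT⟩ := hcl
    have huv : u ≠ v := a1.ne
    have hvx : v ≠ x := a3.ne
    have hxu : x ≠ u := a2.ne'
    have get : ∀ a b : V, a ≠ b → ({a, b} : Finset V) ⊆ h.1 →
        ∃ e, ends e = s(a, b) ∧ F {a, b} h = some e := by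
      intro a b hab hs
      obtain ⟨e, he, he2⟩ := (hF {a, b} (card_pair hab)).1 h (mem_filter.2 ⟨mem_univ _, hs⟩)
      exact ⟨e, ends_of_vs hab (mem_filter.1 he).2, he2⟩
    obtain ⟨e₁, b1, c1⟩ := get u v huv (by rw [hT]; intro y; simp; tauto)
    obtain ⟨e₂, b2, c2⟩ := get v x hvx (by rw [hT]; intro y; simp; tauto)
    obtain ⟨e₃, b3, c3⟩ := get x u hxu (by rw [hT]; intro y; simp; tauto)
    refine ⟨u, v, x, huv, hvx, hxu, e₁, e₂, e₃, b1, b2, b3, ?_⟩
    ext e
    rw [hmemτ, mem_insert, mem_insert, mem_singleton]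
    constructor
    · rintro ⟨hs, hFe⟩
      rw [hT] at hs
      rcases pair_cases (vs_card hl e) hs with g | g | g
      · rw [g, c1, Option.some.injEq] at hFe
        exact Or.inl hFe.symm
      · rw [g, c2, Option.some.injEq] at hFe
        exact Or.inr (Or.inl hFe.symm)
      · rw [g, c3, Option.some.injEq] at hFe
        exact Or.inr (Or.inr hFe.symm)
    · rintro (rfl | rfl | rfl)
      · rw [vs_eq b1]
        exact ⟨by rw [hT]; intro y; simp; tauto, c1⟩
      · rw [vs_eq b2]
        exact ⟨by rw [hT]; intro y; simp; tauto, c2⟩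
      · rw [vs_eq b3]
        exact ⟨by rw [hT]; intro y; simp; tauto, c3⟩
  have hcount : ∀ e, (univ.filter (fun h => e ∈ τ' h)).card = 2 := by
    intro e
    rw [← (hF (vs ends e) (vs_card hl e)).2 e (mem_filter.2 ⟨mem_univ _, rfl⟩)]
    congr 1
    ext h
    have hA : h ∈ A (vs ends e) ↔ vs ends e ⊆ h.1 := by
      change h ∈ univ.filter (fun h : (Σ T : Finset V, Fin (n T)) => vs ends e ⊆ h.1) ↔ _
      rw [mem_filter]
      simp
    rw [mem_filter, hmemτ, mem_filter, hA]
    simp
  refine ⟨fun τ => ((univ.filter (fun h => τ' h = τ)).card : ℚ) / 2, ?_, ?_⟩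
  · intro τ hτ
    obtain ⟨u, v, x, -, -, -, e₁, e₂, e₃, -, -, -, rfl⟩ := hτ
    have hle : (univ.filter (fun h => τ' h = {e₁, e₂, e₃})).card ≤ 2 := by
      rw [← hcount e₁]
      apply card_le_card
      intro h hh
      rw [mem_filter] at hh ⊢
      refine ⟨mem_univ _, ?_⟩
      rw [hh.2]
      simp
    have h3 : (univ.filter (fun h => τ' h = {e₁, e₂, e₃})).card = 0 ∨
        (univ.filter (fun h => τ' h = {e₁, e₂, e₃})).card = 1 ∨
        (univ.filter (fun h => τ' h = {e₁, e₂, e₃})).card = 2 := by omega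
    rcases h3 with h3 | h3 | h3
    · left; simp only; rw [h3]; norm_num
    · right; left; simp only; rw [h3]; norm_num
    · right; right; simp only; rw [h3]; norm_num
  · intro e
    rw [← sum_div]
    have h5 : ((univ.filter (fun h => e ∈ τ' h)).card : ℚ) =
        ∑ τ ∈ univ.filter (fun τ => IsTri ends τ ∧ e ∈ τ), ((univ.filter (fun h => τ' h = τ)).card : ℚ) := by
      rw [card_eq_sum_card_fiberwise (f := τ') (t := univ.filter (fun τ => IsTri ends τ ∧ e ∈ τ))]
      · push_cast
        apply sum_congr rfl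
        intro τ hτ
        have hset : (univ.filter (fun h => e ∈ τ' h)).filter (fun h => τ' h = τ) =
            univ.filter (fun h => τ' h = τ) := by
          ext h
          simp only [mem_filter, mem_univ, true_and]
          constructor
          · exact fun h => h.2
          · intro h
            refine ⟨?_, h⟩
            rw [h]
            exact (mem_filter.1 hτ).2.2
        rw [hset]
      · intro h hh
        rw [mem_coe, mem_filter] at hh ⊢
        exact ⟨mem_univ _, hτtri h, hh.2⟩
    rw [← h5, hcount e]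
    norm_num

end Pool.Agent.Helper47.TD
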