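import Pool.Agent.Helper47.TD1
import Pool.Agent.Helper47.TD6

open Finset unitInterval

set_option linter.unusedSectionVars false

namespace Pool.Agent.Helper47.TD

variable {V : Type*} [Fintype V] [DecidableEq V] {E : Type*} [Fintype E] [DecidableEq E]

/-- a drawing in which arcs of different edges meet only at vertices -/
structure Drawing (ends : E → Sym2 V) (pt : V → ℂ) (arc : E → I → ℂ) : Prop where
  inj : Function.Injective pt
  cont : ∀ e, Continuous (arc e)
  ends_eq : ∀ e, (ends e).map pt = s(arc e 0, arc e 1)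
  avoid : ∀ e t v, arc e t = pt v → t = 0 ∨ t = 1
  cross : ∀ e e', e ≠ e' → ∀ t t', arc e t = arc e' t' → ∃ v, arc e t = pt v

/-- the part of the drawing inside a vertex set -/
def Arcs (ends : E → Sym2 V) (pt : V → ℂ) (arc : E → I → ℂ) (A : Set V) : Set ℂ :=
  {z | (∃ e t, (∀ x ∈ ends e, x ∈ A) ∧ z = arc e t) ∨ ∃ v ∈ A, z = pt v}

variable {ends : E → Sym2 V} {pt : V → ℂ} {arc : E → I → ℂ}

lemma Drawing.mem_ends (hd : Drawing ends pt arc) {e : E} {t : I} {v : V} (h : arc e t = pt v) :
    v ∈ ends e := by
  have h1 : pt v ∈ (ends e).map pt := by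
    rw [hd.ends_eq e, ← h]
    rcases hd.avoid e t v h with rfl | rfl
    · simp
    · simp
  rw [Sym2.mem_map] at h1
  obtain ⟨a, ha, ha2⟩ := h1
  rw [← hd.inj ha2]
  exact ha

lemma Drawing.arcs_disjoint (hd : Drawing ends pt arc) {A B : Set V} (hAB : Disjoint A B) :
    Disjoint (Arcs ends pt arc A) (Arcs ends pt arc B) := by
  rw [Set.disjoint_left] at hAB ⊢
  rintro z (⟨e, t, he, hz⟩ | ⟨v, hv, hz⟩) (⟨e', t', he', hz'⟩ | ⟨v', hv', hz'⟩)
  · have hne : e ≠ e' := by
      rintro rfl
      obtain ⟨a, ha⟩ : ∃ a, a ∈ ends e := ⟨_, Sym2.out_fst_mem (ends e)⟩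
      exact hAB (he a ha) (he' a ha)
    obtain ⟨v, hv⟩ := hd.cross e e' hne t t' (hz.symm.trans hz')
    have h1 := he v (hd.mem_ends hv)
    have h2 := he' v (hd.mem_ends (t := t') (by rw [← hz', hz, hv]))
    exact hAB h1 h2
  · have h1 := he v' (hd.mem_ends (hz.symm.trans hz'))
    exact hAB h1 hv'
  · have h1 := he' v (hd.mem_ends (hz'.symm.trans hz))
    exact hAB hv h1
  · have h1 := hd.inj (hz.symm.trans hz')
    rw [h1] at hv
    exact hAB hv hv'

lemma Arcs_mono {A B : Set V} (h : A ⊆ B) : Arcs ends pt arc A ⊆ Arcs ends pt arc B := by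
  rintro z (⟨e, t, he, hz⟩ | ⟨v, hv, hz⟩)
  · exact Or.inl ⟨e, t, fun x hx => h (he x hx), hz⟩
  · exact Or.inr ⟨v, h hv, hz⟩

lemma Drawing.joined (hd : Drawing ends pt arc) {A : Set V} {a b : V} (ha : a ∈ A) (hb : b ∈ A)
    (hab : (under ends).Adj a b) : JoinedIn (Arcs ends pt arc A) (pt a) (pt b) := by
  rw [under_adj] at hab
  obtain ⟨⟨e, he⟩, -⟩ := hab
  have h1 := hd.ends_eq e
  rw [he, Sym2.map_mk, Sym2.eq_iff] at h1
  have h2 : JoinedIn (Arcs ends pt arc A) (arc e 0) (arc e 1) := by
    refine ⟨⟨⟨arc e, hd.cont e⟩, rfl, rfl⟩, fun t => Or.inl ⟨e, t, ?_, rfl⟩⟩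
    intro x hx
    rw [he, Sym2.mem_iff] at hx
    rcases hx with rfl | rfl <;> assumption
  rcases h1 with ⟨h3, h4⟩ | ⟨h3, h4⟩
  · rw [← h3, ← h4] at h2
    exact h2
  · rw [← h3, ← h4] at h2
    exact h2.symm

lemma Drawing.split_or_joined (hd : Drawing ends pt arc) (T : Finset V) {y z : V} (hy : y ∉ T) :
    Split (under ends) T y z ∨ JoinedIn (Arcs ends pt arc {w | w ∉ T}) (pt y) (pt z) := by
  by_cases h : JoinedIn (Arcs ends pt arc {w | w ∉ T}) (pt y) (pt z)
  · exact Or.inr h
  · left
    refine ⟨{a | a ∉ T ∧ JoinedIn (Arcs ends pt arc {w | w ∉ T}) (pt y) (pt a)}, ?_, ?_, ?_⟩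
    · exact ⟨hy, JoinedIn.refl (Or.inr ⟨y, hy, rfl⟩)⟩
    · intro hz
      exact h hz.2
    · intro a ha b hb hab
      exact ⟨hb, ha.2.trans (hd.joined ha.1 hb hab)⟩

theorem Drawing.p5 (hd : Drawing ends pt arc) : P5 (under ends) := by
  intro u v x y z hxy hxz hyz auv aux auy auz avx avy avz
  by_contra hcon
  push Not at hcon
  obtain ⟨c1, c2, c3⟩ := hcon
  have j1 := (hd.split_or_joined {u, v, x} (y := y) (z := z) (by
    simp only [mem_insert, mem_singleton, not_or]; exact ⟨auy.ne', avy.ne', hxy.symm⟩)).resolve_left c1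
  have j2 := (hd.split_or_joined {u, v, y} (y := x) (z := z) (by
    simp only [mem_insert, mem_singleton, not_or]; exact ⟨aux.ne', avx.ne', hxy⟩)).resolve_left c2
  have j3 := (hd.split_or_joined {u, v, z} (y := x) (z := y) (by
    simp only [mem_insert, mem_singleton, not_or]; exact ⟨aux.ne', avx.ne', hxz⟩)).resolve_left c3
  set q : Fin 5 → V := ![u, v, x, y, z] with hq
  have q0 : q 0 = u := rfl
  have q1 : q 1 = v := rfl
  have q2 : q 2 = x := rfl
  have q3 : q 3 = y := rfl
  have q4 : q 4 = z := rfl
  have hqi : Function.Injective q := by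
    intro i j hij
    by_contra hne
    have huv := auv.ne
    have hux := aux.ne
    have huy := auy.ne
    have huz := auz.ne
    have hvx := avx.ne
    have hvy := avy.ne
    have hvz := avz.ne
    fin_cases i <;> fin_cases j <;>
      first
        | exact hne rfl
        | exact huv hij
        | exact huv hij.symm
        | exact hux hij
        | exact hux hij.symm
        | exact huy hij
        | exact huy hij.symm
        | exact huz hij
        | exact huz hij.symm
        | exact hvx hij
        | exact hvx hij.symm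
        | exact hvy hij
        | exact hvy hij.symm
        | exact hvz hij
        | exact hvz hij.symm
        | exact hxy hij
        | exact hxy hij.symm
        | exact hxz hij
        | exact hxz hij.symm
        | exact hyz hij
        | exact hyz hij.symm
  let A : Fin 5 → Fin 5 → Set V := fun i j =>
    if i ≤ 1 then {w | w = q i ∨ w = q j} else {w | ∀ k, w = q k → k = i ∨ k = j}
  have hA1 : ∀ i j w, i ≤ 1 → w ∈ A i j → w = q i ∨ w = q j := by
    intro i j w hi hw
    change w ∈ (if i ≤ 1 then {w | w = q i ∨ w = q j} else {w | ∀ k, w = q k → k = i ∨ k = j} : Set V) at hw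
    rw [if_pos hi] at hw
    exact hw
  have hA2 : ∀ i j w, ¬ i ≤ 1 → w ∈ A i j → ∀ k, w = q k → k = i ∨ k = j := by
    intro i j w hi hw
    change w ∈ (if i ≤ 1 then {w | w = q i ∨ w = q j} else {w | ∀ k, w = q k → k = i ∨ k = j} : Set V) at hw
    rw [if_neg hi] at hw
    exact hw
  have hadj : ∀ i j, i ≤ 1 → (under ends).Adj (q i) (q j) →
      JoinedIn (Arcs ends pt arc (A i j)) (pt (q i)) (pt (q j)) := by
    intro i j hi h
    apply hd.joined _ _ h
    · change q i ∈ (if i ≤ 1 then {w | w = q i ∨ w = q j} else {w | ∀ k, w = q k → k = i ∨ k = j} : Set V)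
      rw [if_pos hi]
      exact Or.inl rfl
    · change q j ∈ (if i ≤ 1 then {w | w = q i ∨ w = q j} else {w | ∀ k, w = q k → k = i ∨ k = j} : Set V)
      rw [if_pos hi]
      exact Or.inr rfl
  have hfar : ∀ i j, ¬ i ≤ 1 → ∀ T : Finset V, (∀ k, k ≠ i → k ≠ j → q k ∈ T) →
      JoinedIn (Arcs ends pt arc {w | w ∉ T}) (pt (q i)) (pt (q j)) →
      JoinedIn (Arcs ends pt arc (A i j)) (pt (q i)) (pt (q j)) := by
    intro i j hi T hT h
    apply h.mono
    apply Arcs_mono
    intro w hw
    change w ∈ (if i ≤ 1 then {w | w = q i ∨ w = q j} else {w | ∀ k, w = q k → k = i ∨ k = j} : Set V)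
    rw [if_neg hi]
    intro k hk
    by_contra hne
    push Not at hne
    apply hw
    rw [hk]
    exact hT k hne.1 hne.2
  have hJ : ∀ i j : Fin 5, i < j → JoinedIn (Arcs ends pt arc (A i j)) (pt (q i)) (pt (q j)) := by
    intro i j hij
    fin_cases i <;> fin_cases j
    all_goals first
      | exact absurd hij (by decide)
      | exact hadj _ _ (by decide) auv
      | exact hadj _ _ (by decide) aux
      | exact hadj _ _ (by decide) auy
      | exact hadj _ _ (by decide) auz
      | exact hadj _ _ (by decide) avx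
      | exact hadj _ _ (by decide) avy
      | exact hadj _ _ (by decide) avz
      | skip
    · refine hfar 2 3 (by decide) {u, v, z} ?_ j3
      intro k hk1 hk2
      fin_cases k
      · simp [q0]
      · simp [q1]
      · exact absurd rfl hk1
      · exact absurd rfl hk2
      · simp [q4]
    · refine hfar 2 4 (by decide) {u, v, y} ?_ j2
      intro k hk1 hk2
      fin_cases k
      · simp [q0]
      · simp [q1]
      · exact absurd rfl hk1
      · simp [q3]
      · exact absurd rfl hk2
    · refine hfar 3 4 (by decide) {u, v, x} ?_ j1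
      intro k hk1 hk2
      fin_cases k
      · simp [q0]
      · simp [q1]
      · simp [q2]
      · exact absurd rfl hk1
      · exact absurd rfl hk2
  have hdisj : ∀ a b c d : Fin 5, a < b → c < d → a ≠ c → a ≠ d → b ≠ c → b ≠ d →
      Disjoint (A a b) (A c d) := by
    intro a b c d hab hcd hac had hbc hbd
    rw [Set.disjoint_left]
    intro w hw hw'
    by_cases ha : a ≤ 1
    · by_cases hc : c ≤ 1
      · rcases hA1 a b w ha hw with h | h <;> rcases hA1 c d w hc hw' with h' | h'
        · exact hac (hqi (h.symm.trans h'))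
        · exact had (hqi (h.symm.trans h'))
        · exact hbc (hqi (h.symm.trans h'))
        · exact hbd (hqi (h.symm.trans h'))
      · rcases hA1 a b w ha hw with h | h
        · rcases hA2 c d w hc hw' a h with h' | h'
          · exact hac h'
          · exact had h'
        · rcases hA2 c d w hc hw' b h with h' | h'
          · exact hbc h'
          · exact hbd h'
    · by_cases hc : c ≤ 1
      · rcases hA1 c d w hc hw' with h | h
        · rcases hA2 a b w ha hw c h with h' | h'
          · exact hac h'.symm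
          · exact hbc h'.symm
        · rcases hA2 a b w ha hw d h with h' | h'
          · exact had h'.symm
          · exact hbd h'.symm
      · exfalso
        clear hw hw'
        revert a b c d
        decide
  let γ : Fin 5 → Fin 5 → I → ℂ := fun i j t => if h : i < j then (hJ i j h).somePath t else 0
  have hγ : ∀ i j (h : i < j), γ i j = (hJ i j h).somePath := by
    intro i j h
    ext t
    change (if h : i < j then (hJ i j h).somePath t else 0) = _
    rw [dif_pos h]
  apply no_K5 (fun i => pt (q i)) (hd.inj.comp hqi) γ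
  · intro a b hab
    rw [hγ a b hab]
    exact (hJ a b hab).somePath.continuous
  · intro a b hab
    rw [hγ a b hab]
    exact (hJ a b hab).somePath.source
  · intro a b hab
    rw [hγ a b hab]
    exact (hJ a b hab).somePath.target
  · intro a b c d hab hcd hac had hbc hbd s t h
    rw [hγ a b hab, hγ c d hcd] at h
    have m1 := (hJ a b hab).somePath_mem s
    have m2 := (hJ c d hcd).somePath_mem t
    rw [← h] at m2
    exact Set.disjoint_left.1 (hd.arcs_disjoint (hdisj a b c d hab hcd hac had hbc hbd)) m1 m2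

end Pool.Agent.Helper47.TD
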